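import Pool.Agent.H85.CQ.Stm
import Pool.Agent.Y172.Cov4

/-!
# Project CQ, leaf AUTDN: automorphisms descend to the quotient

Also the lemmas on norms and integral elements which are used for the leaf FREEDN.

(helper96 for helper85)
-/

set_option autoImplicit false
set_option linter.overlappingInstances false
set_option linter.unusedSectionVars false

open FF Module Pool.Agent.W602.GT Pool.Agent.Y172 Pool.Agent.R887 Pool.Agent.N110
open Pool.Agent.N110.CC

namespace Pool.Agent.H85.CQ.H96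

section LR

variable {K : Type} [Field K] [Algebra ℂ K] {N : ℕ} {y : Fin (N + 1) → K}

theorem mem_iff (hy : NormalModel y) {P : Place ℂ K} {f : K} :
    f ∈ localRing y P ↔ ∀ P', IsPrimeDivisor y P' → Through y P' P → P'.Reg f :=
  ⟨fun h P' _ ht => ht f h, mem_localRing_of_reg hy⟩

/-- the local ring as a subring -/
def lr (hy : NormalModel y) (P : Place ℂ K) : Subring K where
  carrier := localRing y P
  mul_mem' := by
    intro a b ha hb
    rw [mem_iff hy] at *
    exact fun P' h1 h2 => P'.reg_mul (ha P' h1 h2) (hb P' h1 h2)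
  one_mem' := by
    rw [mem_iff hy]
    exact fun P' _ _ => P'.reg_one
  add_mem' := by
    intro a b ha hb
    rw [mem_iff hy] at *
    exact fun P' h1 h2 => P'.reg_add (ha P' h1 h2) (hb P' h1 h2)
  zero_mem' := by
    rw [mem_iff hy]
    exact fun P' _ _ => P'.reg_zero
  neg_mem' := by
    intro a ha
    rw [mem_iff hy] at *
    exact fun P' h1 h2 => P'.reg_neg (ha P' h1 h2)

theorem coe_lr (hy : NormalModel y) (P : Place ℂ K) : (lr hy P : Set K) = localRing y P := rfl

theorem const_mem (hy : NormalModel y) (P : Place ℂ K) (c : ℂ) : algebraMap ℂ K c ∈ lr hy P := by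
  change algebraMap ℂ K c ∈ localRing y P
  rw [mem_iff hy]
  exact fun P' _ _ => P'.reg_const c

theorem inv_mem {P : Place ℂ K} {f : K} (hf : f ∈ localRing y P) (h0 : f ≠ 0) (h : P.ord f = 0) :
    f⁻¹ ∈ localRing y P := by
  obtain ⟨j, hj, a, ha, b, hb, hb0, hbo, hab⟩ := hf
  have ha0 : a ≠ 0 := by rw [← hab]; exact mul_ne_zero h0 hb0
  refine ⟨j, hj, b, hb, a, ha, ha0, ?_, ?_⟩
  · rw [← hab, P.ord_mul h0 hb0, h, hbo, add_zero]
  · rw [← hab]
    field_simp

/-- the valuation ring -/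
def vs (Q : Place ℂ K) : ValuationSubring K where
  carrier := {f | Q.Reg f}
  mul_mem' := fun ha hb => Q.reg_mul ha hb
  one_mem' := Q.reg_one
  add_mem' := fun ha hb => Q.reg_add ha hb
  zero_mem' := Q.reg_zero
  neg_mem' := fun ha => Q.reg_neg ha
  mem_or_inv_mem' := by
    intro x
    by_cases hx : x = 0
    · left; exact Or.inl hx
    rcases le_total 0 (Q.ord x) with h | h
    · left; exact Or.inr h
    · right
      refine Or.inr ?_
      rw [Q.ord_inv]
      omega

theorem reg_of_root (Q : Place ℂ K) {p : Polynomial K} (hp : p.Monic) (hc : ∀ i, Q.Reg (p.coeff i))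
    {u : K} (hu : p.eval u = 0) : Q.Reg u := by
  have hsub : (↑p.coeffs : Set K) ⊆ (vs Q).toSubring := by
    intro c hc'
    rw [Finset.mem_coe, Polynomial.mem_coeffs_iff] at hc'
    obtain ⟨i, _, rfl⟩ := hc'
    exact hc i
  have hint : IsIntegral (vs Q) u := by
    refine ⟨p.toSubring (vs Q).toSubring hsub, (Polynomial.monic_toSubring _ _ _).2 hp, ?_⟩
    have h1 : (algebraMap (vs Q) K) = (vs Q).toSubring.subtype := rfl
    rw [h1, ← Polynomial.eval_map, Polynomial.map_toSubring]
    exact hu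
  obtain ⟨z, hz⟩ := IsIntegrallyClosed.isIntegral_iff.1 hint
  rw [← hz]
  exact z.2

/-- the elements which vanish at the place -/
def mx (Q : Place ℂ K) : Submodule ℂ K where
  carrier := {x | x = 0 ∨ 0 < Q.ord x}
  add_mem' := by
    intro a b ha hb
    rcases ha with rfl | ha
    · rwa [zero_add]
    rcases hb with rfl | hb
    · rw [add_zero]; exact Or.inr ha
    by_cases h : a + b = 0
    · exact Or.inl h
    have ha0 : a ≠ 0 := by rintro rfl; rw [Q.ord_zero] at ha; exact lt_irrefl _ ha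
    have hb0 : b ≠ 0 := by rintro rfl; rw [Q.ord_zero] at hb; exact lt_irrefl _ hb
    exact Or.inr (lt_of_lt_of_le (lt_min ha hb) (Q.ord_add ha0 hb0 h))
  zero_mem' := Or.inl rfl
  smul_mem' := by
    intro c x hx
    rcases hx with rfl | hx
    · left; exact smul_zero c
    by_cases hc : c = 0
    · left; rw [hc, zero_smul]
    right
    have hx0 : x ≠ 0 := by rintro rfl; rw [Q.ord_zero] at hx; exact lt_irrefl _ hx
    rw [Algebra.smul_def, Q.ord_mul (by rwa [Ne, map_eq_zero]) hx0, Q.ord_const hc, zero_add]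
    exact hx

theorem reg_comb {ι : Type} (s : Finset ι) (Q : Place ℂ K) (μ : ι → ℂ) (u : ι → K)
    (h : ∀ i, Q.Reg (u i)) : Q.Reg (∑ i ∈ s, μ i • u i) := by
  classical
  induction s using Finset.induction_on with
  | empty => exact Q.reg_zero
  | insert a s ha ih =>
    rw [Finset.sum_insert ha]
    refine Q.reg_add ?_ ih
    rw [Algebra.smul_def]
    exact Q.reg_mul (Q.reg_const _) (h a)

/-- **Generic combinations.** -/
theorem generic {ι J : Type} [Fintype ι] [Finite J] [Nonempty J] (u : ι → K) (S : J → Place ℂ K)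
    (w : J → K) (hw : ∀ j, w j ≠ 0) (hreg : ∀ j i, (S j).Reg (u i / w j))
    (hex : ∀ j, ∃ i, u i ≠ 0 ∧ (S j).ord (u i / w j) = 0) :
    ∃ μ : ι → ℂ, ∑ i, μ i • u i ≠ 0 ∧ ∀ j, (S j).ord ((∑ i, μ i • u i) / w j) = 0 := by
  classical
  let L : J → ((ι → ℂ) →ₗ[ℂ] K) := fun j =>
    { toFun := fun μ => (∑ i, μ i • u i) / w j
      map_add' := by
        intro a b
        simp only [Pi.add_apply, add_smul, Finset.sum_add_distrib, add_div]
      map_smul' := by
        intro c a
        simp only [Pi.smul_apply, smul_eq_mul, mul_smul, ← Finset.smul_sum, RingHom.id_apply,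
          smul_div_assoc] }
  have hne : ∀ j, (mx (S j)).comap (L j) ≠ ⊤ := by
    intro j htop
    obtain ⟨i, hi0, hi⟩ := hex j
    have h1 : Pi.single i (1 : ℂ) ∈ (mx (S j)).comap (L j) := by rw [htop]; trivial
    have h2 : L j (Pi.single i (1 : ℂ)) = u i / w j := by
      change (∑ i', (Pi.single i (1 : ℂ) : ι → ℂ) i' • u i') / w j = u i / w j
      congr 1
      rw [Finset.sum_eq_single i]
      · rw [Pi.single_eq_same, one_smul]
      · intro b _ hb
        rw [Pi.single_eq_of_ne hb, zero_smul]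
      · intro h; exact absurd (Finset.mem_univ i) h
    rw [Submodule.mem_comap, h2] at h1
    rcases h1 with h1 | h1
    · exact div_ne_zero hi0 (hw j) h1
    · omega
  have hun : (⋃ j, (((mx (S j)).comap (L j) : Submodule ℂ (ι → ℂ)) : Set (ι → ℂ))) ≠ Set.univ := by
    intro h
    obtain ⟨j, hj⟩ := Subspace.exists_eq_top_of_iUnion_eq_univ h
    exact hne j hj
  rw [Ne, Set.eq_univ_iff_forall] at hun
  push Not at hun
  obtain ⟨μ, hμ⟩ := hun
  rw [Set.mem_iUnion] at hμ
  push Not at hμ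
  have key : ∀ j, (∑ i, μ i • u i) / w j ≠ 0 ∧ (S j).ord ((∑ i, μ i • u i) / w j) = 0 := by
    intro j
    have h1 : ¬ ((∑ i, μ i • u i) / w j = 0 ∨ 0 < (S j).ord ((∑ i, μ i • u i) / w j)) := hμ j
    push Not at h1
    refine ⟨h1.1, le_antisymm h1.2 ?_⟩
    have h2 : (S j).Reg ((∑ i, μ i • u i) / w j) := by
      have h3 : (∑ i, μ i • u i) / w j = ∑ i, μ i • (u i / w j) := by
        rw [Finset.sum_div]
        exact Finset.sum_congr rfl fun i _ => smul_div_assoc _ _ _
      rw [h3]
      exact reg_comb _ _ _ _ (hreg j)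
    exact ((S j).reg_iff h1.1).1 h2
  refine ⟨μ, ?_, fun j => (key j).2⟩
  intro h0
  have j : J := Classical.arbitrary J
  exact (key j).1 (by rw [h0, zero_div])

theorem ord_prod {ι : Type} (s : Finset ι) (Q : Place ℂ K) (u : ι → K) (h : ∀ i ∈ s, u i ≠ 0) :
    Q.ord (∏ i ∈ s, u i) = ∑ i ∈ s, Q.ord (u i) := by
  classical
  induction s using Finset.induction_on with
  | empty => simp [Q.ord_one]
  | insert a s ha ih =>
    rw [Finset.prod_insert ha, Finset.sum_insert ha, Q.ord_mul (h a (Finset.mem_insert_self a s))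
      (Finset.prod_ne_zero_iff.2 fun i hi => h i (Finset.mem_insert_of_mem hi)),
      ih fun i hi => h i (Finset.mem_insert_of_mem hi)]

end LR

section Int

variable {K K' : Type} [Field K] [Algebra ℂ K] [Field K'] [Algebra ℂ K'] {N N' : ℕ}
  {y : Fin (N + 1) → K} {y' : Fin (N' + 1) → K'} {π : K →ₐ[ℂ] K'}

theorem intOver_iff (A : Subring K) (u : K') :
    IntegralOver π (A : Set K) u ↔ ((π : K →+* K').comp A.subtype).IsIntegralElem u := by
  constructor
  · rintro ⟨p, hp, hc, hu⟩
    have hsub : (↑p.coeffs : Set K) ⊆ A := by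
      intro c hc'
      rw [Finset.mem_coe, Polynomial.mem_coeffs_iff] at hc'
      obtain ⟨i, _, rfl⟩ := hc'
      exact hc i
    refine ⟨p.toSubring A hsub, (Polynomial.monic_toSubring _ _ _).2 hp, ?_⟩
    rw [← Polynomial.eval₂_map, Polynomial.map_toSubring]
    exact hu
  · rintro ⟨q, hq, hu⟩
    refine ⟨q.map A.subtype, hq.map _, ?_, ?_⟩
    · intro i
      rw [Polynomial.coeff_map]
      exact (q.coeff i).2
    · rw [Polynomial.eval₂_map]
      exact hu

variable (hy : NormalModel y) {P : Place ℂ K}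
include hy

theorem int_add {a b : K'} (ha : IntegralOver π (localRing y P) a)
    (hb : IntegralOver π (localRing y P) b) : IntegralOver π (localRing y P) (a + b) := by
  rw [← coe_lr hy, intOver_iff] at *
  exact ha.add _ hb

theorem int_mul {a b : K'} (ha : IntegralOver π (localRing y P) a)
    (hb : IntegralOver π (localRing y P) b) : IntegralOver π (localRing y P) (a * b) := by
  rw [← coe_lr hy, intOver_iff] at *
  exact ha.mul _ hb

theorem int_base {a : K} (ha : a ∈ localRing y P) : IntegralOver π (localRing y P) (π a) := by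
  rw [← coe_lr hy, intOver_iff]
  have := RingHom.isIntegralElem_map ((π : K →+* K').comp (lr hy P).subtype) (x := ⟨a, ha⟩)
  exact this

theorem int_smul {a : K'} (c : ℂ) (ha : IntegralOver π (localRing y P) a) :
    IntegralOver π (localRing y P) (c • a) := by
  have h1 : c • a = π (algebraMap ℂ K c) * a := by
    rw [Algebra.smul_def, π.commutes]
  rw [h1]
  exact int_mul hy (int_base hy (const_mem hy P c)) ha

theorem int_comb {ι : Type} (s : Finset ι) (μ : ι → ℂ) (u : ι → K')
    (h : ∀ i, IntegralOver π (localRing y P) (u i)) :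
    IntegralOver π (localRing y P) (∑ i ∈ s, μ i • u i) := by
  classical
  induction s using Finset.induction_on with
  | empty =>
    rw [Finset.sum_empty, ← map_zero π]
    exact int_base hy (lr hy P).zero_mem
  | insert a s ha ih =>
    rw [Finset.sum_insert ha]
    exact int_add hy (int_smul hy _ (h a)) ih

theorem int_prod {ι : Type} (s : Finset ι) (u : ι → K')
    (h : ∀ i ∈ s, IntegralOver π (localRing y P) (u i)) :
    IntegralOver π (localRing y P) (∏ i ∈ s, u i) := by
  classical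
  induction s using Finset.induction_on with
  | empty =>
    rw [Finset.prod_empty, ← map_one π]
    exact int_base hy (lr hy P).one_mem
  | insert a s ha ih =>
    rw [Finset.prod_insert ha]
    exact int_mul hy (h a (Finset.mem_insert_self a s))
      (ih fun i hi => h i (Finset.mem_insert_of_mem hi))

/-- the local ring is integrally closed -/
theorem int_down {f : K} (h : IntegralOver π (localRing y P) (π f)) : f ∈ localRing y P := by
  obtain ⟨p, hp, hc, hu⟩ := h
  have h1 : π (p.eval f) = 0 := by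
    rw [← hu]
    have := Polynomial.hom_eval₂ p (RingHom.id K) (π : K →+* K') f
    rw [RingHom.comp_id] at this
    exact this
  have h2 : p.eval f = 0 := by
    rwa [map_eq_zero] at h1
  rw [mem_iff hy]
  intro P' hP' ht
  exact reg_of_root P' hp (fun i => ht _ (hc i)) h2

omit hy in
theorem int_reg {Q : Place ℂ K'} {P₁ : Place ℂ K} {e : ℕ} (hQ : LiesOver π Q P₁ e)
    (hP : ∀ a ∈ localRing y P, P₁.Reg a) {u : K'} (h : IntegralOver π (localRing y P) u) :
    Q.Reg u := by
  obtain ⟨p, hp, hc, hu⟩ := h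
  refine reg_of_root Q (p := p.map (π : K →+* K')) (hp.map _) ?_ ?_
  · intro i
    rw [Polynomial.coeff_map]
    change Q.Reg (π (p.coeff i))
    by_cases h0 : p.coeff i = 0
    · rw [h0, map_zero]; exact Q.reg_zero
    refine Or.inr ?_
    rw [hQ.2]
    have := (P₁.reg_iff h0).1 (hP _ (hc i))
    positivity
  · rw [Polynomial.eval_map]
    exact hu

omit hy in
theorem int_conj {g : K' ≃ₐ[ℂ] K'} (hg : ∀ a, g (π a) = π a) {u : K'}
    (h : IntegralOver π (localRing y P) u) : IntegralOver π (localRing y P) (g u) := by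
  obtain ⟨p, hp, hc, hu⟩ := h
  refine ⟨p, hp, hc, ?_⟩
  have h1 := Polynomial.hom_eval₂ p (π : K →+* K') (g : K' →+* K') u
  rw [hu, map_zero] at h1
  have h2 : (g : K' →+* K').comp (π : K →+* K') = (π : K →+* K') := by
    ext a
    exact hg a
  rw [h2] at h1
  exact h1.symm

end Int

section Norm

variable {K K' : Type} [Field K] [Algebra ℂ K] [Field K'] [Algebra ℂ K'] {N N' : ℕ}
  {y : Fin (N + 1) → K} {y' : Fin (N' + 1) → K'} {π : K →ₐ[ℂ] K'}
  {G : Subgroup (K' ≃ₐ[ℂ] K')} [Fintype G]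

theorem norm_fixed (hfix : ∀ f : K', (∀ g ∈ G, g f = f) ↔ ∃ f₀ : K, π f₀ = f) (b : K') :
    ∃ n₀ : K, π n₀ = ∏ g : G, (g : K' ≃ₐ[ℂ] K') b := by
  rw [← hfix]
  intro h hh
  rw [map_prod]
  refine Fintype.prod_equiv (Equiv.mulLeft (⟨h, hh⟩ : G)) _ _ ?_
  intro g
  rfl

theorem comap_over (hfix : ∀ f : K', (∀ g ∈ G, g f = f) ↔ ∃ f₀ : K, π f₀ = f) {Q : Place ℂ K'}
    {P : Place ℂ K} {e : ℕ} (h : LiesOver π Q P e) {g : K' ≃ₐ[ℂ] K'} (hg : g ∈ G) :
    LiesOver π (comap g Q) P e := by
  refine ⟨h.1, fun f => ?_⟩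
  rw [comap_ord, (hfix (π f)).2 ⟨f, rfl⟩ g hg]
  exact h.2 f

theorem fix_base (hfix : ∀ f : K', (∀ g ∈ G, g f = f) ↔ ∃ f₀ : K, π f₀ = f) {g : K' ≃ₐ[ℂ] K'}
    (hg : g ∈ G) (a : K) : g (π a) = π a := (hfix (π a)).2 ⟨a, rfl⟩ g hg

/-- **Norms.** If `b` is integral over the local ring and a unit at all conjugates of `Q` then its
norm is a unit of the local ring. -/
theorem norm_unit (hy : NormalModel y)
    (hfix : ∀ f : K', (∀ g ∈ G, g f = f) ↔ ∃ f₀ : K, π f₀ = f) {Q : Place ℂ K'}
    {P : Place ℂ K} {e : ℕ} (h : LiesOver π Q P e) {b : K'}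
    (hb : IntegralOver π (localRing y P) b) (hb0 : b ≠ 0)
    (hord : ∀ g : G, (comap (g : K' ≃ₐ[ℂ] K') Q).ord b = 0) :
    ∃ n₀ : K, n₀ ≠ 0 ∧ π n₀ = ∏ g : G, (g : K' ≃ₐ[ℂ] K') b ∧ n₀ ∈ localRing y P ∧
      n₀⁻¹ ∈ localRing y P := by
  obtain ⟨n₀, hn₀⟩ := norm_fixed hfix b
  have hprod : ∏ g : G, (g : K' ≃ₐ[ℂ] K') b ≠ 0 :=
    Finset.prod_ne_zero_iff.2 fun g _ => by rwa [Ne, map_eq_zero]
  have h0 : n₀ ≠ 0 := by
    rintro rfl
    rw [map_zero] at hn₀
    exact hprod hn₀.symm
  have hmem : n₀ ∈ localRing y P := by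
    apply int_down (π := π) hy
    rw [hn₀]
    exact int_prod hy _ _ fun g _ => int_conj (fix_base hfix g.2) hb
  have hP0 : P.ord n₀ = 0 := by
    have h1 := h.2 n₀
    rw [hn₀, ord_prod _ _ _ (fun g _ => by rwa [Ne, map_eq_zero]), Finset.sum_eq_zero] at h1
    · have h2 : (e : ℤ) ≠ 0 := by have := h.1; omega
      rcases mul_eq_zero.1 h1.symm with h3 | h3
      · exact absurd h3 h2
      · exact h3
    · intro g _
      have := hord g
      rwa [comap_ord] at this
  exact ⟨n₀, h0, hn₀, hmem, inv_mem hmem h0 hP0⟩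

end Norm

section Fin

variable {K K' : Type} [Field K] [Algebra ℂ K] [Field K'] [Algebra ℂ K']

/-- this is `Pool.Agent.R887.finite_map` -/
theorem finite_map' {n : ℕ} [Algebra K K'] [IsScalarTower ℂ K K'] [Algebra.EssFiniteType ℂ K']
    (hn : Algebra.trdeg ℂ K = n) (hn' : Algebra.trdeg ℂ K' = n) : FiniteDimensional K K' := by
  have h1 := _root_.trdeg_add_eq ℂ K (A := K')
  rw [hn, hn'] at h1
  have h2 : Algebra.trdeg K K' = 0 := by
    have h3 : (n : Cardinal) + Algebra.trdeg K K' = n + 0 := by rw [h1, add_zero]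
    exact Cardinal.eq_of_add_eq_add_left h3 (Cardinal.natCast_lt_aleph0)
  have h3 : Algebra.IsAlgebraic K K' := _root_.trdeg_eq_zero_iff.1 h2
  have h4 : Algebra.EssFiniteType K K' := Algebra.EssFiniteType.of_comp ℂ K K'
  obtain ⟨s, hs⟩ := IntermediateField.fg_top K K'
  have h5 : FiniteDimensional K (IntermediateField.adjoin K (s : Set K')) :=
    IntermediateField.finiteDimensional_adjoin (fun x _ => (h3.isAlgebraic x).isIntegral)
  rw [hs] at h5
  exact IntermediateField.topEquiv.toLinearEquiv.finiteDimensional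

end Fin

section Main

variable {K K' : Type} [Field K] [Algebra ℂ K] [Field K'] [Algebra ℂ K'] {N N' n : ℕ}
  {y : Fin (N + 1) → K} {y' : Fin (N' + 1) → K'} {π : K →ₐ[ℂ] K'}

theorem exists_over (hy : NormalModel y) (hy' : NormalModel y') (hn : Algebra.trdeg ℂ K = n)
    (hn' : Algebra.trdeg ℂ K' = n) (P : Place ℂ K) :
    ∃ (Q : Place ℂ K') (e : ℕ), LiesOver π Q P e ∧ (Divisorial n P → Divisorial n Q) := by
  have hess := hy.ess
  have hess' := hy'.ess
  let _ : Algebra K K' := π.toRingHom.toAlgebra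
  have hst : IsScalarTower ℂ K K' :=
    IsScalarTower.of_algebraMap_eq fun c => (π.commutes c).symm
  have hfd : FiniteDimensional K K' := finite_map' hn hn'
  obtain ⟨S, T, h1, h2, h3⟩ := exists_places_over (K' := K') P
  have hpos : 0 < finrank K K' := Module.finrank_pos
  have hne : S.Nonempty := by
    by_contra hcon
    rw [Finset.not_nonempty_iff_eq_empty] at hcon
    rw [hcon, Finset.sum_empty] at h3
    omega
  obtain ⟨Q, hQ⟩ := hne
  obtain ⟨e, h, _⟩ := h2 Q hQ
  exact ⟨Q, e, h, fun hP => divisorial_up h hP⟩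

/-- **Key lemma.** -/
theorem base_iff (G : Subgroup (K' ≃ₐ[ℂ] K')) (hy : NormalModel y) (hq : IsQuot π y y' G)
    (hm : FiniteMor π y y') (hG : ∀ g ∈ G, IsAut g y') {Q : Place ℂ K'} {P : Place ℂ K} {e : ℕ}
    (h : LiesOver π Q P e) (f : K) : f ∈ localRing y P ↔ π f ∈ localRing y' Q := by
  classical
  have hfin := hq.finite
  have := Fintype.ofFinite G
  constructor
  · intro hf
    refine (hm Q P e h (π f)).2 ⟨π f, 1, int_base hy hf, ?_, one_ne_zero, Q.ord_one, mul_one _⟩
    rw [← map_one π]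
    exact int_base hy (lr hy P).one_mem
  · intro hf
    have hover : ∀ g : G, LiesOver π (comap (g : K' ≃ₐ[ℂ] K') Q) P e := fun g =>
      comap_over hq.fixed h g.2
    have hmem : ∀ g : G, π f ∈ localRing y' (comap (g : K' ≃ₐ[ℂ] K') Q) := by
      intro g
      rw [hG g g.2 (comap (g : K' ≃ₐ[ℂ] K') Q) Q (fun _ => rfl) (π f), fix_base hq.fixed g.2]
      exact hf
    choose a b ha hb hb0 hbo hab using fun g : G => (hm _ P e (hover g) (π f)).1 (hmem g)
    have hPP : ∀ a ∈ localRing y P, P.Reg a := fun a ha => localRing_reg ha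
    obtain ⟨μ, hμ0, hμ⟩ := generic b (fun g : G => comap (g : K' ≃ₐ[ℂ] K') Q) (fun _ => 1)
      (fun _ => one_ne_zero) (fun g i => by
        rw [div_one]
        exact int_reg (hover g) hPP (hb i))
      (fun g => ⟨g, hb0 g, by rw [div_one]; exact hbo g⟩)
    simp only [div_one] at hμ
    obtain ⟨B, hB⟩ : ∃ B, B = ∑ g : G, μ g • b g := ⟨_, rfl⟩
    rw [← hB] at hμ0 hμ
    have hBint : IntegralOver π (localRing y P) B := by rw [hB]; exact int_comb hy _ _ _ hb
    obtain ⟨n₀, hn0, hn₀, hmem0, hinv⟩ := norm_unit hy hq.fixed h hBint hμ0 hμ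
    have hfB : π f * B = ∑ g : G, μ g • a g := by
      rw [hB, Finset.mul_sum]
      refine Finset.sum_congr rfl fun g _ => ?_
      rw [mul_smul_comm, hab g]
    have hone : (1 : G) ∈ (Finset.univ : Finset G) := Finset.mem_univ _
    have hprod : ∏ g : G, (g : K' ≃ₐ[ℂ] K') B =
        B * ∏ g ∈ Finset.univ.erase (1 : G), (g : K' ≃ₐ[ℂ] K') B := by
      rw [← Finset.mul_prod_erase _ _ hone]
      rfl
    have hfn : π (f * n₀) = (∑ g : G, μ g • a g) *
        ∏ g ∈ Finset.univ.erase (1 : G), (g : K' ≃ₐ[ℂ] K') B := by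
      rw [map_mul, hn₀, hprod, ← mul_assoc, hfB]
    have hfn0 : f * n₀ ∈ localRing y P := by
      apply int_down (π := π) hy
      rw [hfn]
      exact int_mul hy (int_comb hy _ _ _ ha)
        (int_prod hy _ _ fun g _ => int_conj (fix_base hq.fixed g.2) hBint)
    have : f = (f * n₀) * n₀⁻¹ := by field_simp
    rw [this]
    exact (lr hy P).mul_mem hfn0 hinv

end Main

end Pool.Agent.H85.CQ.H96

namespace Pool.Agent.H85.CQ

open H96

theorem autdn : S_AUTDN := by
  intro K K' _ _ _ _ N N' n y y' π G hy hy' hn hn' _ hq hm hG φ φ' hφ hφ' P P₁ hPP f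
  obtain ⟨Q₁, e, hQ₁, _⟩ := H96.exists_over (π := π) hy hy' hn hn' P₁
  have hQ : LiesOver π (comap φ' Q₁) P e := by
    refine ⟨hQ₁.1, fun g => ?_⟩
    rw [comap_ord, hφ, hQ₁.2, hPP]
  rw [base_iff G hy hq hm hG hQ, base_iff G hy hq hm hG hQ₁, ← hφ]
  exact hφ' (comap φ' Q₁) Q₁ (fun _ => rfl) (π f)

theorem leafAUTDN (_ : S_TRANS) : S_AUTDN := autdn

end Pool.Agent.H85.CQ
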