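import Pool.Agent.N165.KM.Core
import Pool.Agent.N165.KM.Dir

/-!
Project CQ (helper85): descent of fundamental domains to the fixed space of a finite group.
-/

set_option autoImplicit false

namespace Pool.Agent.H85.CQ

open Pool.Agent.Y167 Pool.Agent.Y167.CData Pool.Agent.N165.KM Topology

section

variable {ρ ρ' : ℕ} {A : Type} [Group A]
  {pull : A → ((Fin ρ' → ℝ) ≃ₗ[ℝ] (Fin ρ' → ℝ))}

/-- the part of a rational cone in the fixed space -/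
theorem cutfix {C Nf : Set (Fin ρ' → ℝ)} (h : Sandwich C Nf)
    (hL : ∀ f, ∀ x ∈ IntL ρ', pull f x ∈ IntL ρ') (G : Subgroup A) [Finite G]
    {ι : (Fin ρ → ℝ) →ₗ[ℝ] (Fin ρ' → ℝ)} (hι : Function.Injective ι)
    (hιG : ∀ x, ∀ g ∈ G, pull g (ι x) = ι x)
    (hfix : ∀ x ∈ IntL ρ', (∀ g ∈ G, pull g x = x) →
      ∃ d : ℕ, 0 < d ∧ ∃ z ∈ IntL ρ, ι z = (d : ℝ) • x)
    (T : Finset (Fin ρ' → ℝ)) (hT : ∀ a ∈ T, a ∈ IntL ρ' ∧ a ∈ Nf) :
    ∃ F : Finset (Fin ρ → ℝ), (∀ a ∈ F, a ∈ IntL ρ ∧ a ∈ ι ⁻¹' Nf) ∧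
      ∀ x, ι x ∈ cone T → x ∈ cone F := by
  classical
  obtain ⟨ξ₀, y₀, Y, D, hy₀⟩ := exists_cdata h
  have := Fintype.ofFinite G
  obtain ⟨lin, hlin⟩ : ∃ lin : G → Fin ρ' → ((Fin ρ' → ℝ) →ₗ[ℝ] ℝ),
      ∀ g i x, lin g i x = pull g x i - x i :=
    ⟨fun g i => LinearMap.proj i ∘ₗ ((pull g : (Fin ρ' → ℝ) →ₗ[ℝ] (Fin ρ' → ℝ)) - LinearMap.id),
      fun g i x => by simp⟩
  obtain ⟨T', hT', hc⟩ := D.cut_many T hT
    ((Finset.univ.image fun p : G × Fin ρ' => lin p.1 p.2) ∪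
      (Finset.univ.image fun p : G × Fin ρ' => -lin p.1 p.2)) (by
      intro φ hφ x hx
      have hgi : ∀ (g : G) (i : Fin ρ'), ∃ n : ℤ, lin g i x = n := by
        intro g i
        obtain ⟨m, hm⟩ := hL g x hx i
        obtain ⟨k, hk⟩ := hx i
        exact ⟨m - k, by rw [hlin, hm, hk]; push_cast; ring⟩
      rcases Finset.mem_union.1 hφ with h1 | h1
      · obtain ⟨p, -, rfl⟩ := Finset.mem_image.1 h1
        exact hgi p.1 p.2
      · obtain ⟨p, -, rfl⟩ := Finset.mem_image.1 h1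
        obtain ⟨n, hn⟩ := hgi p.1 p.2
        exact ⟨-n, by rw [LinearMap.neg_apply, hn]; push_cast; ring⟩)
  have hTfix : ∀ a ∈ T', ∀ g ∈ G, pull g a = a := by
    intro a ha g hg
    obtain ⟨-, h1⟩ := (hc a).1 (mem_cone_self ha)
    funext i
    have h2 := h1 (lin ⟨g, hg⟩ i) (Finset.mem_union_left _
      (Finset.mem_image.2 ⟨(⟨g, hg⟩, i), Finset.mem_univ _, rfl⟩))
    have h3 := h1 (-lin ⟨g, hg⟩ i) (Finset.mem_union_right _
      (Finset.mem_image.2 ⟨(⟨g, hg⟩, i), Finset.mem_univ _, rfl⟩))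
    rw [LinearMap.neg_apply] at h3
    rw [hlin] at h2 h3
    show pull g a i = a i
    have h4 : (pull ((⟨g, hg⟩ : G) : A)) a i = pull g a i := rfl
    rw [h4] at h2 h3
    linarith
  choose! d hd z hz hdz using fun a (ha : a ∈ T') => hfix a (hT' a ha).1 (hTfix a ha)
  refine ⟨T'.image z, fun b hb => ?_, fun x hx => ?_⟩
  · obtain ⟨a, ha, rfl⟩ := Finset.mem_image.1 hb
    refine ⟨hz a ha, ?_⟩
    show ι (z a) ∈ Nf
    rw [hdz a ha]
    exact h.Nsmul _ (Nat.cast_nonneg _) _ (hT' a ha).2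
  · have h1 : ι x ∈ cone T' := by
      refine (hc _).2 ⟨hx, fun φ hφ => ?_⟩
      have h0 : ∀ (g : G) (i : Fin ρ'), lin g i (ι x) = 0 := by
        intro g i
        rw [hlin, hιG x g g.2, sub_self]
      rcases Finset.mem_union.1 hφ with h1 | h1
      · obtain ⟨p, -, rfl⟩ := Finset.mem_image.1 h1
        exact (h0 p.1 p.2).ge
      · obtain ⟨p, -, rfl⟩ := Finset.mem_image.1 h1
        rw [LinearMap.neg_apply, h0, neg_zero]
    obtain ⟨w, hw, hsum⟩ := h1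
    have h2 : x = ∑ a ∈ T', (w a / d a) • z a := by
      apply hι
      rw [hsum, map_sum]
      refine Finset.sum_congr rfl fun a ha => ?_
      rw [map_smul, hdz a ha, smul_smul, div_mul_cancel₀]
      have := hd a ha
      positivity
    rw [h2]
    exact mem_cone_of_sum T' z _ (fun a ha => Finset.mem_image_of_mem _ ha) fun a ha =>
      div_nonneg (hw a) (Nat.cast_nonneg _)

theorem descent {B : Type} [Group B] {C Nf : Set (Fin ρ' → ℝ)} (h : Sandwich C Nf)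
    (hmul : ∀ f g, pull (f * g) = pull g * pull f)
    (hL : ∀ f, ∀ x ∈ IntL ρ', pull f x ∈ IntL ρ') (hN : ∀ f, ∀ x ∈ Nf, pull f x ∈ Nf)
    (hfd : HasFD pull Nf) (G : Subgroup A) [Finite G]
    (hfin : ∀ a : G → ((Fin ρ' → ℝ) ≃ₗ[ℝ] (Fin ρ' → ℝ)), ∃ R : Set (G → A), R.Finite ∧
      ∀ f : A, (∀ g : G, pull (f⁻¹ * g * f) = a g) → ∃ r ∈ R, ∃ k : A, pull k = 1 ∧
        ∀ g : G, f⁻¹ * g * f = k⁻¹ * r g * k)
    {ι : (Fin ρ → ℝ) →ₗ[ℝ] (Fin ρ' → ℝ)} (hι : Function.Injective ι)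
    (hιG : ∀ x, ∀ g ∈ G, pull g (ι x) = ι x)
    (hfix : ∀ x ∈ IntL ρ', (∀ g ∈ G, pull g x = x) →
      ∃ d : ℕ, 0 < d ∧ ∃ z ∈ IntL ρ, ι z = (d : ℝ) • x)
    (hfix' : ∀ x, (∀ g ∈ G, pull g x = x) → ∃ z, ι z = x)
    {q : B → ((Fin ρ → ℝ) ≃ₗ[ℝ] (Fin ρ → ℝ))} (hqmul : ∀ f g, q (f * g) = q g * q f)
    (hqL : ∀ f, ∀ x ∈ IntL ρ, q f x ∈ IntL ρ) (hqN : ∀ f x, ι x ∈ Nf → ι (q f x) ∈ Nf)
    (hdesc : ∀ z : A, (∀ g ∈ G, z * g = g * z) → ∃ b : B, ∀ x, ι (q b x) = pull z (ι x)) :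
    Sandwich (ι ⁻¹' C) (ι ⁻¹' Nf) ∧ HasFD q (ι ⁻¹' Nf) := by
  classical
  have hιc : Continuous ι := LinearMap.continuous_of_finiteDimensional ι
  have := Fintype.ofFinite G
  -- an interior point in the fixed space
  obtain ⟨t₀, ht₀⟩ : ∃ t₀, ι t₀ ∈ interior C := by
    obtain ⟨y, hy⟩ := h.int
    obtain ⟨t₀, ht₀⟩ := hfix' (∑ g : G, pull g y) (by
      intro g' hg'
      rw [map_sum]
      refine Fintype.sum_equiv (Equiv.mulRight (⟨g', hg'⟩ : G)) _ _ fun g => ?_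
      show pull g' (pull g y) = pull (g * g') y
      rw [hmul]
      rfl)
    refine ⟨t₀, ?_⟩
    rw [ht₀, ← Finset.add_sum_erase _ _ (Finset.mem_univ (1 : G))]
    have h1 : pull ((1 : G) : A) y = y := by
      rw [Subgroup.coe_one, pull_one hmul]
      rfl
    rw [h1]
    refine interior_add_mem h.add hy ?_
    refine Finset.sum_induction _ (fun x => x ∈ C) (fun a b ha hb => h.add a ha b hb) ?_
      fun g _ => h.Nsub (hN g _ (h.Nint hy))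
    have := h.smul 0 le_rfl _ (interior_subset hy)
    rwa [zero_smul] at this
  have hint : ∀ x ∈ interior (ι ⁻¹' C), ι x ∈ interior C := by
    intro x hx
    obtain ⟨ε, hε, hx'⟩ := interior_sub hx t₀
    have h0 : x - ε • t₀ ∈ ι ⁻¹' C := interior_subset hx'
    have h1 : ι (x - ε • t₀) ∈ C := h0
    have h2 : ι x = ε • ι t₀ + ι (x - ε • t₀) := by
      rw [map_sub, map_smul]
      abel
    rw [h2]
    exact interior_add_mem h.add (interior_smul_mem h.smul hε ht₀) h1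
  have hS : Sandwich (ι ⁻¹' C) (ι ⁻¹' Nf) :=
    { closed := h.closed.preimage hιc
      add := fun x hx z hz => by
        show ι (x + z) ∈ C
        rw [map_add]
        exact h.add _ hx _ hz
      smul := fun t ht x hx => by
        show ι (t • x) ∈ C
        rw [map_smul]
        exact h.smul t ht _ hx
      pointed := fun x hx hx' => by
        have h1 : ι (-x) ∈ C := hx'
        rw [map_neg] at h1
        have h2 := h.pointed _ hx h1
        exact hι (by rw [h2, map_zero])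
      int := ⟨t₀, by
        rw [mem_interior]
        exact ⟨ι ⁻¹' interior C, Set.preimage_mono interior_subset,
          isOpen_interior.preimage hιc, ht₀⟩⟩
      Nsub := Set.preimage_mono h.Nsub
      Nint := fun x hx => h.Nint (hint x hx)
      Nadd := fun x hx z hz => by
        show ι (x + z) ∈ Nf
        rw [map_add]
        exact h.Nadd _ hx _ hz
      Nsmul := fun t ht x hx => by
        show ι (t • x) ∈ Nf
        rw [map_smul]
        exact h.Nsmul t ht _ hx }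
  -- the Dirichlet cone
  obtain ⟨ξ₀, y₀, Y, D, hy₀⟩ := exists_cdata h
  obtain ⟨S₁, hS₁, hcov₁⟩ := hfd.cover hmul
  have hL' : ∀ g ∈ rangeSub hmul, ∀ x ∈ IntL ρ', g x ∈ IntL ρ' := by
    rintro _ ⟨f, rfl⟩; exact hL f
  have hN' : ∀ g ∈ rangeSub hmul, ∀ x ∈ Nf, g x ∈ Nf := by
    rintro _ ⟨f, rfl⟩; exact hN f
  obtain ⟨S₂, hS₂, hdir, hcov₂⟩ := dirichlet D (rangeSub hmul) hL' hN' S₁ hS₁
  have hcov : ∀ x ∈ Nf, ∃ f, pull f x ∈ cone S₂ := by
    intro x hx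
    obtain ⟨f₁, hf₁⟩ := hcov₁ x hx
    obtain ⟨_, ⟨f₂, rfl⟩, hf₂⟩ := hcov₂ _ hf₁
    exact ⟨f₁ * f₂, by rw [hmul]; exact hf₂⟩
  have hΦ := finite_fix D (rangeSub hmul) hL' hN' S₂ hS₂ hdir
  -- the finitely many conjugates
  have hfun : {a : G → ((Fin ρ' → ℝ) ≃ₗ[ℝ] (Fin ρ' → ℝ)) | ∀ g, a g ∈
      {h : (Fin ρ' → ℝ) ≃ₗ[ℝ] (Fin ρ' → ℝ) | h ∈ rangeSub hmul ∧ ∃ y ∈ cone S₂,
        (∃ t : ℝ, 0 < t ∧ y - t • y₀ ∈ Nf) ∧ h y = y}}.Finite := Set.Finite.pi' fun _ => hΦ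
  choose R hR hRf using hfin
  obtain ⟨R', hR'⟩ : ∃ R' : Set (G → A), R' = ⋃ a ∈ hfun.toFinset, R a := ⟨_, rfl⟩
  have hR'f : R'.Finite := by
    rw [hR']
    exact Set.Finite.biUnion (Finset.finite_toSet _) fun a _ => hR a
  choose! hh hhh using fun (r : G → A) (hr : ∃ f : A, ∀ g : G, f⁻¹ * g * f = r g) => hr
  have hpt : ∀ x ∈ interior (ι ⁻¹' C), ∃ b : B, ∃ r ∈ hR'f.toFinset,
      ι (q b x) ∈ cone (S₂.image (pull (hh r)⁻¹)) := by
    intro x hx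
    have hx1 := hint x hx
    obtain ⟨f, hf⟩ := hcov (ι x) (h.Nint hx1)
    obtain ⟨r, hr, k, hk, hrk⟩ := hRf (fun g => pull (f⁻¹ * g * f)) f fun g => rfl
    have hr' : r ∈ hR'f.toFinset := by
      rw [Set.Finite.mem_toFinset, hR']
      refine Set.mem_biUnion (x := fun g : G => pull (f⁻¹ * g * f)) ?_ hr
      show _ ∈ hfun.toFinset
      rw [Set.Finite.mem_toFinset]
      intro g
      refine ⟨⟨_, rfl⟩, pull f (ι x), hf, ?_, ?_⟩
      · obtain ⟨t, ht, hxt⟩ := interior_sub hx1 (pull f⁻¹ y₀)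
        refine ⟨t, ht, ?_⟩
        have h1 := hN f _ (h.Nint hxt)
        rwa [map_sub, map_smul, pull_apply_inv hmul] at h1
      · show pull (f⁻¹ * g * f) (pull f (ι x)) = _
        rw [hmul, hmul]
        show pull f (pull g (pull f⁻¹ (pull f (ι x)))) = pull f (ι x)
        rw [pull_inv_apply hmul, hιG x g g.2]
    -- the element of the centraliser
    have hk' : pull k⁻¹ = 1 := by rw [pull_inv hmul, hk, inv_one]
    have hpf : pull (f * k⁻¹) = pull f := by rw [hmul, hk', one_mul]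
    have hconj : ∀ g : G, (f * k⁻¹)⁻¹ * g * (f * k⁻¹) = r g := by
      intro g
      have h1 := hrk g
      calc (f * k⁻¹)⁻¹ * g * (f * k⁻¹) = k * (f⁻¹ * g * f) * k⁻¹ := by group
        _ = r g := by rw [h1]; group
    have hh1 := hhh r ⟨_, hconj⟩
    obtain ⟨b, hb⟩ := hdesc (f * k⁻¹ * (hh r)⁻¹) (by
      intro g hg
      have h1 := hh1 ⟨g, hg⟩
      have h2 := hconj ⟨g, hg⟩
      rw [← h2] at h1
      have h1' : (hh r)⁻¹ * g * hh r = (f * k⁻¹)⁻¹ * g * (f * k⁻¹) := h1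
      have h3 : (hh r)⁻¹ * g = (f * k⁻¹)⁻¹ * g * (f * k⁻¹) * (hh r)⁻¹ := by
        rw [← h1']; group
      rw [mul_assoc (f * k⁻¹), h3]
      group)
    refine ⟨b, r, hr', ?_⟩
    rw [hb, hmul]
    show pull (hh r)⁻¹ (pull (f * k⁻¹) (ι x)) ∈ _
    rw [hpf]
    exact cone_image (pull (hh r)⁻¹ : (Fin ρ' → ℝ) →ₗ[ℝ] (Fin ρ' → ℝ)) hf
  -- the finite set of generators
  have himg : ∀ f : A, ∀ a ∈ S₂.image (pull f), a ∈ IntL ρ' ∧ a ∈ Nf := by
    intro f a ha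
    obtain ⟨b, hb, rfl⟩ := Finset.mem_image.1 ha
    exact ⟨hL f _ (hS₂ b hb).1, hN f _ (hS₂ b hb).2⟩
  choose F hF hFc using fun f : A => cutfix h hL G hι hιG hfix (S₂.image (pull f)) (himg f)
  refine ⟨hS, HasFD.of_cover hS hqmul hqL (fun f x hx => hqN f x hx) (fun x hx => ?_)
    (hR'f.toFinset.biUnion fun r => F (hh r)⁻¹) (fun a ha => ?_) fun x hx => ?_⟩
  · obtain ⟨f, hf⟩ := hcov (ι x) hx
    refine ⟨F f⁻¹, hF f⁻¹, hFc f⁻¹ x ?_⟩
    have h1 := cone_image (pull f⁻¹ : (Fin ρ' → ℝ) →ₗ[ℝ] (Fin ρ' → ℝ)) hf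
    have h2 : (pull f⁻¹ : (Fin ρ' → ℝ) →ₗ[ℝ] (Fin ρ' → ℝ)) (pull f (ι x)) = ι x :=
      pull_inv_apply hmul f (ι x)
    rwa [h2] at h1
  · obtain ⟨r, -, ha'⟩ := Finset.mem_biUnion.1 ha
    exact hF _ a ha'
  · obtain ⟨b, r, hr, hbr⟩ := hpt x hx
    refine ⟨b, cone_mono (Finset.subset_biUnion_of_mem (fun r => F (hh r)⁻¹) hr) ?_⟩
    exact hFc _ _ hbr

end

end Pool.Agent.H85.CQ
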