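import Pool.Agent.N110.CC.RDefs
import Pool.Agent.N110.CC.Defs
import Pool.Agent.N110.Pull

/-!
Definitions: quotients of varieties by finite groups, and finite morphisms.
-/

set_option autoImplicit false

open FF Pool.Agent.W602.GT Pool.Agent.Y172 Pool.Agent.R887 Pool.Agent.N110 Pool.Agent.N110.CC

namespace Pool.Agent.H85.CQ

section

variable {K K' : Type} [Field K] [Algebra ℂ K] [Field K'] [Algebra ℂ K'] {N N' : ℕ}

/-- The element `u` of `K'` is integral over the subset `A` of `K`: it is a root of a monic
polynomial with coefficients in `A`. -/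
def IntegralOver (π : K →ₐ[ℂ] K') (A : Set K) (u : K') : Prop :=
  ∃ p : Polynomial K, p.Monic ∧ (∀ i, p.coeff i ∈ A) ∧ p.eval₂ (π : K →+* K') u = 0

/-- The generically finite rational map `X' ⇢ X` given by the homomorphism `π` of the function
fields is a finite morphism, `X` and `X'` being normal: if the place `Q` lies over the place `P` then
the local ring of `X'` at the centre of `Q` consists of the quotients `a / b` of elements `a`, `b`
which are integral over the local ring of `X` at the centre of `P`, where `b` is not zero at the
centre of `Q`. -/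
def FiniteMor (π : K →ₐ[ℂ] K') (y : Fin (N + 1) → K) (y' : Fin (N' + 1) → K') : Prop :=
  ∀ Q P e, LiesOver π Q P e → ∀ f : K', f ∈ localRing y' Q ↔ ∃ a b : K',
    IntegralOver π (localRing y P) a ∧ IntegralOver π (localRing y P) b ∧ b ≠ 0 ∧ Q.ord b = 0 ∧
      f * b = a

/-- `X` is the quotient of `X'` by the finite group `G`, in codimension one: the function field `K`
of `X` is identified by `π` with the field of the elements of `K'` which are fixed by `G`, and the
rational map `X' ⇢ X` is a finite morphism in codimension one. -/
structure IsQuot (π : K →ₐ[ℂ] K') (y : Fin (N + 1) → K) (y' : Fin (N' + 1) → K')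
    (G : Subgroup (K' ≃ₐ[ℂ] K')) : Prop where
  finite : Finite G
  fixed : ∀ f : K', (∀ g ∈ G, g f = f) ↔ ∃ f₀ : K, π f₀ = f
  map : FiniteMap π y y'

end

end Pool.Agent.H85.CQ
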