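import Pool.Agent.H85.CQ.AUTDN

/-!
# Project CQ, leaf FREEDN: the push forward of a base point free divisor is base point free

(helper96 for helper85)
-/

set_option autoImplicit false
set_option linter.overlappingInstances false
set_option linter.unusedSectionVars false

open FF Module Pool.Agent.W602.GT Pool.Agent.Y172 Pool.Agent.R887 Pool.Agent.N110
open Pool.Agent.N110.CC

namespace Pool.Agent.H85.CQ.H96

section

variable {K K' : Type} [Field K] [Algebra ℂ K] [Field K'] [Algebra ℂ K'] {N N' n : ℕ}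
  {y : Fin (N + 1) → K} {y' : Fin (N' + 1) → K'} {π : K →ₐ[ℂ] K'}

theorem div_over {Q : Place ℂ K'} {P : Place ℂ K} {e : ℕ} (h : LiesOver π Q P e)
    (hP : Divisorial n P) : Divisorial n Q := by
  obtain ⟨u, hu⟩ := hP
  refine ⟨fun i => π (u i), fun F hF => ?_⟩
  have h1 : MvPolynomial.aeval (fun i => π (u i)) F = π (MvPolynomial.aeval u F) := by
    rw [← AlgHom.comp_apply, MvPolynomial.comp_aeval]
  rw [h1]
  refine ⟨by rw [Ne, map_eq_zero]; exact (hu F hF).1, ?_⟩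
  rw [h.2, (hu F hF).2, mul_zero]

theorem ge_comb {ι : Type} (s : Finset ι) (Q : Place ℂ K') (μ : ι → ℂ) (u : ι → K') (c : ℤ)
    (h : ∀ i, u i ≠ 0 → c ≤ Q.ord (u i)) (h0 : ∑ i ∈ s, μ i • u i ≠ 0) :
    c ≤ Q.ord (∑ i ∈ s, μ i • u i) := by
  classical
  induction s using Finset.induction_on with
  | empty => exact absurd Finset.sum_empty h0
  | insert a s ha ih =>
    rw [Finset.sum_insert ha] at h0 ⊢
    have hterm : μ a • u a ≠ 0 → c ≤ Q.ord (μ a • u a) := by
      intro h1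
      have hc : μ a ≠ 0 := fun h => h1 (by rw [h, zero_smul])
      have hu : u a ≠ 0 := fun h => h1 (by rw [h, smul_zero])
      rw [Algebra.smul_def, Q.ord_mul (by rwa [Ne, map_eq_zero]) hu, Q.ord_const hc, zero_add]
      exact h a hu
    by_cases h1 : μ a • u a = 0
    · rw [h1, zero_add] at h0 ⊢
      exact ih h0
    by_cases h2 : ∑ i ∈ s, μ i • u i = 0
    · rw [h2, add_zero]
      exact hterm h1
    exact le_trans (le_min (hterm h1) (ih h2)) (Q.ord_add h1 h2 h0)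

variable {G : Subgroup (K' ≃ₐ[ℂ] K')} [Fintype G]

/-- A place over a prime divisor through the centre of `R` goes through a conjugate of the given
place over `R`. -/
theorem through_conj (hy : NormalModel y) (hq : IsQuot π y y' G) (hm : FiniteMor π y y')
    {R : Place ℂ K} {R' : Place ℂ K'} {eR : ℕ} (hR : LiesOver π R' R eR) {P : Place ℂ K}
    {Q : Place ℂ K'} {e : ℕ} (hQ : LiesOver π Q P e) (hPR : Through y P R) :
    ∃ g : G, Through y' Q (comap (g : K' ≃ₐ[ℂ] K') R') := by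
  classical
  by_contra hcon
  push Not at hcon
  have hover : ∀ g : G, LiesOver π (comap (g : K' ≃ₐ[ℂ] K') R') R eR := fun g =>
    comap_over hq.fixed hR g.2
  have hex : ∀ g : G, ∃ b, IntegralOver π (localRing y R) b ∧ b ≠ 0 ∧
      (comap (g : K' ≃ₐ[ℂ] K') R').ord b = 0 ∧ 0 < Q.ord b := by
    intro g
    have h1 := hcon g
    unfold Through at h1
    push Not at h1
    obtain ⟨u, hu, hureg⟩ := h1
    obtain ⟨a, b, ha, hb, hb0, hbo, hab⟩ := (hm _ R eR (hover g) u).1 hu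
    refine ⟨b, hb, hb0, hbo, ?_⟩
    have hQb : Q.Reg b := int_reg hQ hPR hb
    have hQa : Q.Reg a := int_reg hQ hPR ha
    by_contra hneg
    have hb1 := (Q.reg_iff hb0).1 hQb
    have hu0 : u ≠ 0 := fun h => hureg (Or.inl h)
    have ha0 : a ≠ 0 := by rw [← hab]; exact mul_ne_zero hu0 hb0
    have ha1 := (Q.reg_iff ha0).1 hQa
    have h2 := Q.ord_mul hu0 hb0
    rw [hab] at h2
    exact hureg (Or.inr (by omega))
  choose b hb hb0 hbo hbQ using hex
  obtain ⟨μ, hμ0, hμ⟩ := generic b (fun g : G => comap (g : K' ≃ₐ[ℂ] K') R') (fun _ => 1)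
    (fun _ => one_ne_zero) (fun g i => by
      rw [div_one]
      exact int_reg (hover g) (fun a ha => localRing_reg ha) (hb i))
    (fun g => ⟨g, hb0 g, by rw [div_one]; exact hbo g⟩)
  simp only [div_one] at hμ
  have hBQ : 0 < Q.ord (∑ g : G, μ g • b g) := by
    have h1 : ∑ g : G, μ g • b g ∈ mx Q :=
      Submodule.sum_mem _ fun g _ => Submodule.smul_mem _ _ (Or.inr (hbQ g))
    exact h1.resolve_left hμ0
  obtain ⟨B, hB⟩ : ∃ B, B = ∑ g : G, μ g • b g := ⟨_, rfl⟩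
  rw [← hB] at hμ0 hμ hBQ
  have hBint : IntegralOver π (localRing y R) B := by rw [hB]; exact int_comb hy _ _ _ hb
  obtain ⟨n₀, hn0, hn₀, hmem0, hinv⟩ := norm_unit hy hq.fixed hR hBint hμ0 hμ
  have h1 := ((P.reg_iff (inv_ne_zero hn0)).1 (hPR _ hinv))
  rw [P.ord_inv] at h1
  have h2 := hQ.2 n₀
  rw [hn₀, ord_prod _ _ _ (fun g _ => by rwa [Ne, map_eq_zero])] at h2
  have h3 : 0 < ∑ g : G, Q.ord ((g : K' ≃ₐ[ℂ] K') B) := by
    refine Finset.sum_pos' ?_ ⟨1, Finset.mem_univ _, hBQ⟩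
    intro g _
    exact (Q.reg_iff (by rwa [Ne, map_eq_zero])).1
      (int_reg hQ hPR (int_conj (fix_base hq.fixed g.2) hBint))
  rw [h2] at h3
  have h4 : (0 : ℤ) ≤ e := Int.natCast_nonneg _
  nlinarith

end

end Pool.Agent.H85.CQ.H96

namespace Pool.Agent.H85.CQ

open H96

theorem freedn : S_FREEDN := by
  intro K K' _ _ _ _ N N' n y y' π G _ hy hy' hn hn' _ hq hm _ D' D m hm1 hfree hDfin hrel
  classical
  refine ⟨hDfin, fun R hR => ?_⟩
  obtain ⟨R', eR, hR', _⟩ := H96.exists_over (π := π) hy hy' hn hn' R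
  have hover : ∀ g : G, LiesOver π (comap (g : K' ≃ₐ[ℂ] K') R') R eR := fun g =>
    comap_over hq.fixed hR' g.2
  choose f hf0 hfsec hfgen using fun g : G => hfree.2 (comap (g : K' ≃ₐ[ℂ] K') R')
    (div_over (hover g) hR)
  have hloc : ∀ i j : G, f i / f j ∈ localRing y' (comap (j : K' ≃ₐ[ℂ] K') R') := by
    intro i j
    apply mem_localRing_of_reg hy'
    intro Q hQ ht
    refine Or.inr ?_
    rw [Q.ord_div (hf0 i) (hf0 j)]
    have h1 := hfsec i Q hQ
    have h2 := hfgen j Q hQ ht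
    omega
  obtain ⟨μ, hμ0, hμ⟩ := generic f (fun g : G => comap (g : K' ≃ₐ[ℂ] K') R') f hf0
    (fun j i => localRing_reg (hloc i j))
    (fun j => ⟨j, hf0 j, by rw [div_self (hf0 j)]; exact Place.ord_one _⟩)
  obtain ⟨F, hF⟩ : ∃ F, F = ∑ g : G, μ g • f g := ⟨_, rfl⟩
  have hsec : ∀ Q, IsPrimeDivisor y' Q → 0 ≤ Q.ord F + D' Q := by
    intro Q hQ
    have h1 : -(D' Q) ≤ Q.ord F := by
      rw [hF]
      refine ge_comb _ Q μ f _ (fun i _ => ?_) hμ0
      have := hfsec i Q hQ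
      omega
    omega
  have hgen : ∀ (j : G) Q, IsPrimeDivisor y' Q → Through y' Q (comap (j : K' ≃ₐ[ℂ] K') R') →
      Q.ord F + D' Q = 0 := by
    intro j Q hQ ht
    have hF0 : F ≠ 0 := by rw [hF]; exact hμ0
    have h0 : F / f j ≠ 0 := div_ne_zero hF0 (hf0 j)
    have hmem : F / f j ∈ localRing y' (comap (j : K' ≃ₐ[ℂ] K') R') := by
      have h3 : F / f j = ∑ i, μ i • (f i / f j) := by
        rw [hF, Finset.sum_div]
        exact Finset.sum_congr rfl fun i _ => smul_div_assoc _ _ _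
      rw [h3]
      change _ ∈ lr hy' (comap (j : K' ≃ₐ[ℂ] K') R')
      refine Subring.sum_mem _ fun i _ => ?_
      rw [Algebra.smul_def]
      exact Subring.mul_mem _ (const_mem hy' _ _) (hloc i j)
    have hinv := inv_mem hmem h0 (by rw [hF]; exact hμ j)
    have h1 := (Q.reg_iff h0).1 (ht _ hmem)
    have h2 := (Q.reg_iff (inv_ne_zero h0)).1 (ht _ hinv)
    rw [Q.ord_inv] at h2
    rw [Q.ord_div hF0 (hf0 j)] at h1 h2
    have h4 := hfgen j Q hQ ht
    omega
  have hF0 : F ≠ 0 := by rw [hF]; exact hμ0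
  obtain ⟨n₀, hn₀⟩ := norm_fixed hq.fixed F
  have hn0 : n₀ ≠ 0 := by
    rintro rfl
    rw [map_zero] at hn₀
    exact (Finset.prod_ne_zero_iff.2 fun g _ => by rwa [Ne, map_eq_zero]) hn₀.symm
  have hform : ∀ P, IsPrimeDivisor y P → ∀ Q e, LiesOver π Q P e →
      (e : ℤ) * (P.ord (n₀ ^ m) + D P) = m * ∑ g : G,
        ((comap (g : K' ≃ₐ[ℂ] K') Q).ord F + D' (comap (g : K' ≃ₐ[ℂ] K') Q)) := by
    intro P hP Q e hQ
    have h1 := hrel Q P e ((hq.map Q P e hQ).2 hP) hQ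
    have h2 := hQ.2 n₀
    rw [hn₀, ord_prod _ _ _ (fun g _ => by rwa [Ne, map_eq_zero])] at h2
    rw [P.ord_pow, mul_add, h1, Finset.sum_add_distrib, mul_add]
    congr 1
    have h3 : ∑ g : G, (comap (g : K' ≃ₐ[ℂ] K') Q).ord F = (e : ℤ) * P.ord n₀ := by
      rw [← h2]
      rfl
    rw [h3]
    ring
  have hprime : ∀ P, IsPrimeDivisor y P → ∀ Q e, LiesOver π Q P e → ∀ g : G,
      IsPrimeDivisor y' (comap (g : K' ≃ₐ[ℂ] K') Q) := fun P hP Q e hQ g =>
    (hq.map _ P e (comap_over hq.fixed hQ g.2)).2 hP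
  refine ⟨n₀ ^ m, pow_ne_zero _ hn0, ?_, ?_⟩
  · intro P hP
    obtain ⟨Q, e, hQ, _⟩ := H96.exists_over (π := π) hy hy' hn hn' P
    have h1 := hform P hP Q e hQ
    have h2 : 0 ≤ (m : ℤ) * ∑ g : G,
        ((comap (g : K' ≃ₐ[ℂ] K') Q).ord F + D' (comap (g : K' ≃ₐ[ℂ] K') Q)) :=
      mul_nonneg (Int.natCast_nonneg _) (Finset.sum_nonneg fun g _ =>
        hsec _ (hprime P hP Q e hQ g))
    rw [← h1] at h2
    have h3 : (0 : ℤ) < e := by have := hQ.1; omega
    exact nonneg_of_mul_nonneg_right h2 h3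
  · intro P hP ht
    obtain ⟨Q, e, hQ, _⟩ := H96.exists_over (π := π) hy hy' hn hn' P
    have h1 := hform P hP Q e hQ
    have h2 : ∑ g : G,
        ((comap (g : K' ≃ₐ[ℂ] K') Q).ord F + D' (comap (g : K' ≃ₐ[ℂ] K') Q)) = 0 := by
      refine Finset.sum_eq_zero fun g _ => ?_
      obtain ⟨j, hj⟩ := through_conj hy hq hm hR' (comap_over hq.fixed hQ g.2) ht
      exact hgen j _ (hprime P hP Q e hQ g) hj
    rw [h2, mul_zero] at h1
    rcases mul_eq_zero.1 h1 with h3 | h3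
    · have := hQ.1
      omega
    · exact h3

theorem leafFREEDN (_ : S_TRANS) : S_FREEDN := freedn

end Pool.Agent.H85.CQ
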