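import Pool.Agent.H85.CQ.Stm
import Pool.Agent.R887.Num

/-!
# Project CQ, leaf FREEUP: the pull back of a base point free divisor is base point free

(helper35 for helper85)
-/

set_option autoImplicit false
set_option linter.overlappingInstances false
set_option linter.unusedSectionVars false

open FF Module MvPolynomial Pool.Agent.W602.GT Pool.Agent.W603.LV
open Pool.Agent.Y172 Pool.Agent.Y191 Pool.Agent.R887
open Pool.Agent.N110 Pool.Agent.N110.CC

namespace Pool.Agent.H85.CQ

section

variable {K K' : Type} [Field K] [Algebra ℂ K] [Field K'] [Algebra ℂ K'] {N N' : ℕ}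

theorem localRing_const {y : Fin (N + 1) → K} (hy : NormalModel y) (P : Place ℂ K) (c : ℂ) :
    algebraMap ℂ K c ∈ localRing y P := by
  obtain ⟨j, hj⟩ := exists_centred hy P
  refine ⟨j, hj, algebraMap ℂ K c, (chart y j).algebraMap_mem c, 1, (chart y j).one_mem,
    one_ne_zero, ?_, mul_one _⟩
  rw [← map_one (algebraMap ℂ K)]
  exact P.ord_const one_ne_zero

theorem localRing_neg {y : Fin (N + 1) → K} {P : Place ℂ K} {f : K} (hf : f ∈ localRing y P) :
    -f ∈ localRing y P := by
  obtain ⟨j, hj, a, ha, b, hb, hb0, hb1, h⟩ := hf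
  exact ⟨j, hj, -a, (chart y j).neg_mem ha, b, hb, hb0, hb1, by rw [neg_mul, h]⟩

theorem integralOver_image {y : Fin (N + 1) → K} (hy : NormalModel y) (P : Place ℂ K)
    (π : K →ₐ[ℂ] K') {f : K} (hf : f ∈ localRing y P) :
    IntegralOver π (localRing y P) (π f) := by
  have h0 : (0 : K) ∈ localRing y P := by
    have := localRing_const hy P 0
    rwa [map_zero] at this
  have h1 : (1 : K) ∈ localRing y P := by
    have := localRing_const hy P 1
    rwa [map_one] at this
  refine ⟨Polynomial.X - Polynomial.C f, Polynomial.monic_X_sub_C f, fun i => ?_, ?_⟩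
  · rw [Polynomial.coeff_sub, Polynomial.coeff_X, Polynomial.coeff_C]
    rcases Nat.eq_zero_or_pos i with rfl | hi
    · simpa using localRing_neg hf
    · rw [if_neg (show ¬ i = 0 by omega), sub_zero]
      split_ifs
      · exact h1
      · exact h0
  · rw [Polynomial.eval₂_sub, Polynomial.eval₂_X, Polynomial.eval₂_C]
    exact sub_self _

/-- The local ring of `X` at the centre of the image is mapped into the local ring of `X'`. -/
theorem image_localRing {y : Fin (N + 1) → K} {y' : Fin (N' + 1) → K'} (hy : NormalModel y)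
    {π : K →ₐ[ℂ] K'} (hm : FiniteMor π y y') {Q : Place ℂ K'} {P : Place ℂ K} {e : ℕ}
    (h : LiesOver π Q P e) {f : K} (hf : f ∈ localRing y P) : π f ∈ localRing y' Q := by
  rw [hm Q P e h]
  refine ⟨π f, 1, integralOver_image hy P π hf, ?_, one_ne_zero, ?_, mul_one _⟩
  · have := integralOver_image hy P π (localRing_const hy P 1)
    rwa [map_one, map_one] at this
  · rw [← map_one (algebraMap ℂ K')]
    exact Q.ord_const one_ne_zero

end

theorem leafFREEUP : S_FREEUP := by
  intro K K' _ _ _ _ N N' n y y' π hy hy' hn hn' _ hπ hm D D' hD hfin hDD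
  have hess := hy.ess
  have hess' := hy'.ess
  let _ : Algebra K K' := π.toRingHom.toAlgebra
  have hst : IsScalarTower ℂ K K' :=
    IsScalarTower.of_algebraMap_eq fun c => (π.commutes c).symm
  have hfd : FiniteDimensional K K' := finite_map hn hn'
  have hov : ∀ Q : Place ℂ K', LiesOver π Q (bel K Q) (ram K Q) := fun Q => over_bel K Q
  refine ⟨hfin, fun R' hR' => ?_⟩
  obtain ⟨f, hf0, hf1, hf2⟩ := hD.2 (bel K R') (divisorial_down (over_bel K R') hR')
  refine ⟨π f, by rwa [Ne, map_eq_zero], fun Q' hQ' => ?_, fun Q' hQ' hT => ?_⟩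
  · rw [hDD Q' _ _ hQ' (hov Q'), (hov Q').2 f, ← mul_add]
    exact mul_nonneg (Int.natCast_nonneg _) (hf1 _ ((hπ Q' _ _ (hov Q')).1 hQ'))
  · have h1 : Through y (bel K Q') (bel K R') := by
      intro f0 hf0
      have h2 := hT _ (image_localRing hy hm (hov R') hf0)
      rcases h2 with h2 | h2
      · left
        rwa [map_eq_zero] at h2
      · right
        rw [(hov Q').2 f0] at h2
        have h3 : 1 ≤ ram K Q' := (hov Q').1
        have h4 : (1 : ℤ) ≤ ram K Q' := by exact_mod_cast h3
        nlinarith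
    rw [hDD Q' _ _ hQ' (hov Q'), (hov Q').2 f, ← mul_add,
      hf2 _ ((hπ Q' _ _ (hov Q')).1 hQ') h1, mul_zero]

end Pool.Agent.H85.CQ
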