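import Pool.Agent.H85.CQ.Ker
import Pool.Agent.N265.CC.FREE

/-!
Project CQ (helper85): the movable cone and the nef cone.
-/

set_option autoImplicit false
set_option linter.unusedSectionVars false

open FF Pool.Agent.W602.GT Pool.Agent.Y172 Pool.Agent.R887
open Pool.Agent.N110 Pool.Agent.N110.PA Pool.Agent.N110.NV Pool.Agent.N492.PA Pool.Agent.N110.CC

namespace Pool.Agent.H85.CQ

section

variable {K K' : Type} [Field K] [Algebra ℂ K] [Field K'] [Algebra ℂ K'] {N N' n ρ ρ' : ℕ}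
  {y : Fin (N + 1) → K} {y' : Fin (N' + 1) → K'} {π : K →ₐ[ℂ] K'}
  {G : Subgroup (K' ≃ₐ[ℂ] K')} {c : Place ℂ K → Fin ρ → ℤ} {c' : Place ℂ K' → Fin ρ' → ℤ}

/-- the pull back of a movable divisor is movable -/
theorem mov_up {b : Place ℂ K' → Place ℂ K} {r : Place ℂ K' → ℕ} (hb : Bel π b r)
    (hπ : FiniteMap π y y') {D : Place ℂ K → ℤ} (hD : IsMovable y D) :
    IsMovable y' (Cx.plZ b r D) := by
  refine ⟨?_, fun Q hQ => ?_⟩
  · refine (hb.fin _ hD.1).subset ?_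
    rintro Q ⟨hQ, h0⟩
    exact ⟨(hb.prime hπ Q).1 hQ, right_ne_zero_of_mul h0⟩
  · obtain ⟨f, hf, h1, h2⟩ := hD.2 (b Q) ((hb.prime hπ Q).1 hQ)
    refine ⟨π f, by rwa [Ne, map_eq_zero], fun R hR => ?_, ?_⟩
    · have h3 := h1 (b R) ((hb.prime hπ R).1 hR)
      have h4 := (hb.lo R).2 f
      show 0 ≤ R.ord (π f) + (r R : ℤ) * D (b R)
      rw [h4, ← mul_add]
      exact mul_nonneg (Int.natCast_nonneg _) h3
    · have h4 := (hb.lo Q).2 f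
      show Q.ord (π f) + (r Q : ℤ) * D (b Q) = 0
      rw [h4, ← mul_add, h2, mul_zero]

theorem mov_pres (hy : NormalModel y) (hc : PicardBasis y c) {φ : K ≃ₐ[ℂ] K}
    (hφ : PseudoAut φ y) {D : Place ℂ K → ℤ} (hD : IsMovable y D) :
    IsMovable y (fun P => D (comap φ P)) := by
  obtain ⟨M, hM⟩ := exists_rep hy hc (𝒮 := psGroup y) (fun _ h => h)
  exact (Pool.Agent.N608.CC.leafMOV K N ρ y hy c φ hφ _ (hM.isPull ⟨φ, hφ⟩) D hD.1).2 hD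

/-- **The movable cone.** -/
theorem main_mov (hT : S_TRANS) (hM : S_MOVDN) (hI : S_INTMOV) (hy : NormalModel y)
    (hy' : NormalModel y') (hn : Algebra.trdeg ℂ K = n) (hn' : Algebra.trdeg ℂ K' = n)
    (hn0 : 0 < n) (hc : PicardBasis y c) (hc' : PicardBasis y' c') (hq : IsQuot π y y' G)
    {𝒮' : Subgroup (K' ≃ₐ[ℂ] K')} {𝒮 : Subgroup (K ≃ₐ[ℂ] K)} (hps' : ∀ φ ∈ 𝒮', PseudoAut φ y')
    (hps : ∀ φ ∈ 𝒮, PseudoAut φ y) (hG : G ≤ 𝒮')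
    (hdesc : ∀ φ' ∈ 𝒮', (∀ g ∈ G, φ' * g = g * φ') → ∀ φ : K ≃ₐ[ℂ] K,
      (∀ f, φ' (π f) = π (φ f)) → φ ∈ 𝒮)
    (hfc : FinConj y' c' 𝒮' G)
    (hfd : HasFundDomain {T | ∃ φ ∈ 𝒮', IsPullBack y' c' φ T}
      (movCone y' c' ∩ effCone y' c')) :
    Pool.Agent.N165.KM.Sandwich (movCone y c) (movCone y c ∩ effCone y c) ∧
    HasFundDomain {T | ∃ φ ∈ 𝒮, IsPullBack y c φ T} (movCone y c ∩ effCone y c) :=
  main hT hy hy' hn hn' hn0 hc hc' hq hps' hG hfc (𝒟 := IsMovable y) (𝒟' := IsMovable y')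
    (fun _ h => h.1) (fun _ h => h.1) (fun _ _ hb _ hD => mov_up hb hq.map hD)
    (fun {_} D' D m hm hD' hfin hrel => hM K K' N N' n y y' π G hy hy' hn hn' hn0 hq
      (fun g hg => hps' g (hG hg)) D' D m hm hD' hfin hrel)
    (mov_sub hy' hn' hn0 hc') (hI K' N' n ρ' y' hy' hn' hn0 c' hc')
    (fun _ hφ _ hD => mov_pres hy' hc' (hps' _ hφ) hD) hfd hps
    (fun _ hφ _ hD => mov_pres hy hc (hps _ hφ) hD) hdesc

/-- **The nef cone.** -/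
theorem main_nef (hT : S_TRANS) (hU : S_FREEUP) (hF : S_FREEDN) (hy : NormalModel y)
    (hy' : NormalModel y') (hn : Algebra.trdeg ℂ K = n) (hn' : Algebra.trdeg ℂ K' = n)
    (hn0 : 0 < n) (hc : PicardBasis y c) (hc' : PicardBasis y' c') (hq : IsQuot π y y' G)
    (hm : FiniteMor π y y') (hint : (interior (nefCone y' n c')).Nonempty)
    {𝒮' : Subgroup (K' ≃ₐ[ℂ] K')} {𝒮 : Subgroup (K ≃ₐ[ℂ] K)} (hps' : ∀ φ ∈ 𝒮', IsAut φ y')
    (hps : ∀ φ ∈ 𝒮, IsAut φ y) (hG : G ≤ 𝒮')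
    (hdesc : ∀ φ' ∈ 𝒮', (∀ g ∈ G, φ' * g = g * φ') → ∀ φ : K ≃ₐ[ℂ] K,
      (∀ f, φ' (π f) = π (φ f)) → φ ∈ 𝒮)
    (hfc : FinConj y' c' 𝒮' G)
    (hfd : HasFundDomain {T | ∃ φ ∈ 𝒮', IsPullBack y' c' φ T}
      (nefCone y' n c' ∩ effCone y' c')) :
    Pool.Agent.N165.KM.Sandwich (nefCone y n c) (nefCone y n c ∩ effCone y c) ∧
    HasFundDomain {T | ∃ φ ∈ 𝒮, IsPullBack y c φ T} (nefCone y n c ∩ effCone y c) :=
  main hT hy hy' hn hn' hn0 hc hc' hq (fun φ hφ => isAut_ps hy' (hps' φ hφ)) hG hfc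
    (𝒟 := IsFree y n) (𝒟' := IsFree y' n)
    (fun _ h => h.1) (fun _ h => h.1)
    (fun b r hb D hD => hU K K' N N' n y y' π hy hy' hn hn' hn0 hq.map hm D _ hD (by
      refine (hb.fin _ hD.1).subset ?_
      rintro Q ⟨hQ, h0⟩
      exact ⟨(hb.prime hq.map Q).1 hQ, right_ne_zero_of_mul h0⟩) (fun Q P e _ hl => by
      obtain ⟨e1, e2⟩ := hb.eq hl
      show (r Q : ℤ) * D (b Q) = e * D P
      rw [e1, e2]))
    (fun {_} D' D m hm' hD' hfin hrel => hF K K' N N' n y y' π G hy hy' hn hn' hn0 hq hm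
      (fun g hg => hps' g (hG hg)) D' D m hm' hD' hfin hrel)
    ((nef_sub_mov hy' hn' hn0 hc').trans (mov_sub hy' hn' hn0 hc')) hint
    (fun φ hφ D hD => (Pool.Agent.N265.CC.leafFREE K' N' n y' hy' φ (hps' φ hφ)).2 D hD) hfd
    (fun φ hφ => isAut_ps hy (hps φ hφ))
    (fun φ hφ D hD => (Pool.Agent.N265.CC.leafFREE K N n y hy φ (hps φ hφ)).2 D hD) hdesc

/-- an automorphism which preserves `Δ'` descends to an automorphism which preserves `Δ` -/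
theorem pres_dn {b : Place ℂ K' → Place ℂ K} {r : Place ℂ K' → ℕ} (hb : Bel π b r)
    (hπ : FiniteMap π y y') {Δ' : Place ℂ K' → ℝ} {Δ : Place ℂ K → ℝ}
    (hΔ : LogPull π y' Δ' Δ) {φ : K ≃ₐ[ℂ] K} {φ' : K' ≃ₐ[ℂ] K'}
    (h : ∀ f, φ' (π f) = π (φ f)) (hps : PseudoAut φ' y') (hφ' : Preserves φ' y' Δ') :
    Preserves φ y Δ := by
  intro P P1 hP hPP
  obtain ⟨Q1, rfl⟩ := hb.surj P1
  rw [image_iff] at hPP
  subst hPP
  obtain ⟨h1, h2⟩ := hb.comap h Q1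
  have hQ : IsPrimeDivisor y' (comap φ' Q1) := by
    rw [hb.prime hπ, h1]
    exact hP
  have hQ1 : IsPrimeDivisor y' Q1 := (psaut_iff.1 hps Q1).1 hQ
  have h3 := hφ' (comap φ' Q1) Q1 hQ fun _ => rfl
  have h4 := hΔ _ _ _ hQ (hb.lo (comap φ' Q1))
  have h5 := hΔ _ _ _ hQ1 (hb.lo Q1)
  rw [h1, h2, h3, h5] at h4
  have h6 : (r Q1 : ℝ) ≠ 0 := by
    have := hb.pos Q1
    positivity
  have h7 := mul_left_cancel₀ h6 h4
  linarith

end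

end Pool.Agent.H85.CQ
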