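import Pool.Agent.H85.CQ.Stm
import Pool.Agent.N110.CC.R
import Pool.Agent.R887.Num

/-!
Project CQ (helper85): the pull back of divisor classes under a finite map.
-/

set_option autoImplicit false
set_option linter.unusedSectionVars false

open FF Pool.Agent.W602.GT Pool.Agent.Y172 Pool.Agent.R887
open Pool.Agent.N110 Pool.Agent.N110.PA Pool.Agent.N110.NV Pool.Agent.N492.PA Pool.Agent.N110.CC

namespace Pool.Agent.H85.CQ

section

variable {K K' : Type} [Field K] [Algebra ℂ K] [Field K'] [Algebra ℂ K'] {N N' n ρ ρ' : ℕ}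
  {y : Fin (N + 1) → K} {y' : Fin (N' + 1) → K'} {π : K →ₐ[ℂ] K'}

/-- the place below and the ramification index -/
structure Bel (π : K →ₐ[ℂ] K') (b : Place ℂ K' → Place ℂ K) (r : Place ℂ K' → ℕ) : Prop where
  lo : ∀ Q, LiesOver π Q (b Q) (r Q)
  eq : ∀ {Q P e}, LiesOver π Q P e → b Q = P ∧ r Q = e
  fin : ∀ T : Set (Place ℂ K), T.Finite → {Q | b Q ∈ T}.Finite
  surj : ∀ P, ∃ Q, b Q = P

theorem exists_bel (hy' : NormalModel y') (hn : Algebra.trdeg ℂ K = n)
    (hn' : Algebra.trdeg ℂ K' = n) (π : K →ₐ[ℂ] K') : ∃ b r, Bel π b r := by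
  have hess' := hy'.ess
  let _ : Algebra K K' := π.toRingHom.toAlgebra
  have hst : IsScalarTower ℂ K K' :=
    IsScalarTower.of_algebraMap_eq fun c => (π.commutes c).symm
  have hfd : FiniteDimensional K K' := finite_map hn hn'
  refine ⟨bel K, ram K, fun Q => over_bel K Q, fun {Q P e} h => bel_eq K h,
    fun T hT => finite_bel K hT, fun P => ?_⟩
  obtain ⟨S, T, -, hT, hsum⟩ := exists_places_over (K' := K') P
  have hpos : 0 < Module.finrank K K' := Module.finrank_pos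
  have hne : S.Nonempty := by
    rw [← hsum] at hpos
    by_contra hcon
    rw [Finset.not_nonempty_iff_eq_empty] at hcon
    rw [hcon, Finset.sum_empty] at hpos
    exact lt_irrefl _ hpos
  obtain ⟨Q, hQ⟩ := hne
  obtain ⟨e, h, -⟩ := hT Q hQ
  exact ⟨Q, (bel_eq K h).1⟩

variable {b : Place ℂ K' → Place ℂ K} {r : Place ℂ K' → ℕ}

/-- the pull back of a divisor -/
def pl (b : Place ℂ K' → Place ℂ K) (r : Place ℂ K' → ℕ) (L : Place ℂ K → ℚ) :
    Place ℂ K' → ℚ := fun Q => (r Q : ℚ) * L (b Q)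

theorem Bel.prime (hb : Bel π b r) (hπ : FiniteMap π y y') (Q : Place ℂ K') :
    IsPrimeDivisor y' Q ↔ IsPrimeDivisor y (b Q) := hπ Q _ _ (hb.lo Q)

theorem Bel.pos (hb : Bel π b r) (Q : Place ℂ K') : 1 ≤ r Q := (hb.lo Q).1

theorem Bel.pl_fin (hb : Bel π b r) (hπ : FiniteMap π y y') {L : Place ℂ K → ℚ}
    (hL : Fin0 y L) : Fin0 y' (pl b r L) := by
  refine (hb.fin _ hL).subset ?_
  rintro Q ⟨hQ, h0⟩
  exact ⟨(hb.prime hπ Q).1 hQ, right_ne_zero_of_mul h0⟩

theorem psef_congr {L L' : Place ℂ K → ℚ} (h : ∀ P, IsPrimeDivisor y P → L P = L' P)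
    (hL : PsefD y L) : PsefD y L' := by
  intro i hi q hq
  obtain ⟨m, hm, f, hf, h1⟩ := hL i hi q hq
  exact ⟨m, hm, f, hf, fun P l hP hl => by rw [← h P hP]; exact h1 P l hP hl⟩

theorem Bel.psef_up (hb : Bel π b r) (hy : NormalModel y) (hy' : NormalModel y')
    (hn : Algebra.trdeg ℂ K = n) (hn' : Algebra.trdeg ℂ K' = n) (hn0 : 0 < n)
    (hπ : FiniteMap π y y') {L : Place ℂ K → ℚ} (hL : Fin0 y L) (h : PsefD y L) :
    PsefD y' (pl b r L) := by
  obtain ⟨L', -, hrel, h1⟩ := Pool.Agent.N340.CC.leafPSUP K K' N N' n y y' hy hy' hn hn' hn0 π hπ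
    L hL
  exact psef_congr (fun Q hQ => hrel Q _ _ hQ (hb.lo Q)) (h1 h)

theorem Bel.psef_dn (hb : Bel π b r) (hy : NormalModel y) (hy' : NormalModel y')
    (hn : Algebra.trdeg ℂ K = n) (hn' : Algebra.trdeg ℂ K' = n) (hn0 : 0 < n)
    (hπ : FiniteMap π y y') {L : Place ℂ K → ℚ} (h : PsefD y' (pl b r L)) : PsefD y L := by
  refine Pool.Agent.N701.CC.leafPSDN Pool.Agent.N832.CC.leafNORM Pool.Agent.N252.CC.leafPUSH
    K K' N N' n y y' hy hy' hn hn' hn0 π hπ L (pl b r L) (fun Q P e _ hl => ?_) h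
  obtain ⟨h1, h2⟩ := hb.eq hl
  show (r Q : ℚ) * L (b Q) = e * L P
  rw [h1, h2]

theorem zero_of_psef (hy : NormalModel y) {c : Place ℂ K → Fin ρ → ℤ} (hc : NumClasses y c)
    {L : Place ℂ K → ℚ} (hL : Fin0 y L) (h1 : PsefD y L) (h2 : PsefD y (fun P => -L P)) :
    cls y (cQ c) L = 0 := by
  have h3 := Pool.Agent.N618.CC.leafPSCL K N ρ y hy (cQ c) hc.principal L hL h1
  have h4 := Pool.Agent.N618.CC.leafPSCL K N ρ y hy (cQ c) hc.principal _ (fin_neg hL) h2
  rw [cls_neg, toR_neg] at h4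
  have h5 := hc.salient _ h3 h4
  refine toR_inj (h5.trans ?_)
  funext i
  simp [toR]

theorem psef_neg_of_zero {c : Place ℂ K → Fin ρ → ℤ} (hc : NumClasses y c) {L : Place ℂ K → ℚ}
    (hL : Fin0 y L) (h0 : cls y (cQ c) L = 0) : PsefD y (fun P => -L P) :=
  psef_of_zero hc (fin_neg hL) (by rw [cls_neg, h0, neg_zero])

theorem Bel.cls_up (hb : Bel π b r) (hy : NormalModel y) (hy' : NormalModel y')
    (hn : Algebra.trdeg ℂ K = n) (hn' : Algebra.trdeg ℂ K' = n) (hn0 : 0 < n)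
    (hπ : FiniteMap π y y') {c : Place ℂ K → Fin ρ → ℤ} (hc : NumClasses y c)
    {c' : Place ℂ K' → Fin ρ' → ℤ} (hc' : NumClasses y' c') {L : Place ℂ K → ℚ} (hL : Fin0 y L)
    (h0 : cls y (cQ c) L = 0) : cls y' (cQ c') (pl b r L) = 0 := by
  refine zero_of_psef hy' hc' (hb.pl_fin hπ hL)
    (hb.psef_up hy hy' hn hn' hn0 hπ hL (psef_of_zero hc hL h0)) ?_
  refine psef_congr (fun Q _ => ?_)
    (hb.psef_up hy hy' hn hn' hn0 hπ (fin_neg hL) (psef_neg_of_zero hc hL h0))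
  show (r Q : ℚ) * -L (b Q) = -((r Q : ℚ) * L (b Q))
  ring

theorem Bel.cls_dn (hb : Bel π b r) (hy : NormalModel y) (hy' : NormalModel y')
    (hn : Algebra.trdeg ℂ K = n) (hn' : Algebra.trdeg ℂ K' = n) (hn0 : 0 < n)
    (hπ : FiniteMap π y y') {c : Place ℂ K → Fin ρ → ℤ} (hc : NumClasses y c)
    {c' : Place ℂ K' → Fin ρ' → ℤ} (hc' : NumClasses y' c') {L : Place ℂ K → ℚ} (hL : Fin0 y L)
    (h0 : cls y' (cQ c') (pl b r L) = 0) : cls y (cQ c) L = 0 := by
  refine zero_of_psef hy hc hL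
    (hb.psef_dn hy hy' hn hn' hn0 hπ (psef_of_zero hc' (hb.pl_fin hπ hL) h0)) ?_
  refine hb.psef_dn hy hy' hn hn' hn0 hπ (psef_congr (fun Q _ => ?_)
    (psef_neg_of_zero hc' (hb.pl_fin hπ hL) h0))
  show -((r Q : ℚ) * L (b Q)) = (r Q : ℚ) * -L (b Q)
  ring

/-- every integral vector is the class of an integral divisor -/
theorem exists_int_div {c : Place ℂ K → Fin ρ → ℤ} (hc : PicardBasis y c) (z : Fin ρ → ℤ) :
    ∃ D : Place ℂ K → ℤ, Fin0 y (fun P => (D P : ℚ)) ∧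
      cls y (cQ c) (fun P => (D P : ℚ)) = fun i => (z i : ℚ) := by
  classical
  have h1 := hc.generate z
  induction h1 using AddSubgroup.closure_induction with
  | mem z hz =>
    obtain ⟨P, hP, rfl⟩ := hz
    have e : (fun Q => (((if Q = P then 1 else 0 : ℤ)) : ℚ)) = fun Q => if Q = P then (1 : ℚ) else 0 := by
      funext Q
      split_ifs <;> simp
    refine ⟨fun Q => if Q = P then 1 else 0, ?_, ?_⟩
    · rw [e]
      exact fin_single P 1
    · rw [e, cls_single hP, one_smul]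
      rfl
  | zero =>
    refine ⟨fun _ => 0, ?_, ?_⟩
    · refine Set.finite_empty.subset ?_
      rintro P ⟨-, h0⟩
      exact h0 (by simp)
    · simp only [Int.cast_zero]
      rw [cls_zero]
      funext i
      simp
  | add z w _ _ hz hw =>
    obtain ⟨D, hD, h1⟩ := hz
    obtain ⟨E, hE, h2⟩ := hw
    refine ⟨fun P => D P + E P, ?_, ?_⟩
    · have h3 := hD.add hE
      refine h3.subset ?_
      rintro P ⟨hP, h0⟩
      refine ⟨hP, ?_⟩
      push_cast at h0
      exact h0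
    · have h3 := cls_add (c := cQ c) hD hE
      rw [h1, h2] at h3
      rw [← cls_congr (D := fun P => (D P : ℚ) + (E P : ℚ)) fun P _ => by push_cast; ring, h3]
      funext i
      simp
  | neg z _ hz =>
    obtain ⟨D, hD, h1⟩ := hz
    refine ⟨fun P => -D P, ?_, ?_⟩
    · refine (fin_neg hD).subset ?_
      rintro P ⟨hP, h0⟩
      refine ⟨hP, ?_⟩
      push_cast at h0
      exact h0
    · rw [← cls_congr (D := fun P => -(D P : ℚ)) fun P _ => by push_cast; ring, cls_neg, h1]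
      funext i
      simp

/-- the class of an integral divisor is integral -/
theorem cls_int {c : Place ℂ K → Fin ρ → ℤ} {L : Place ℂ K → ℚ} (hL : Fin0 y L)
    (h : ∀ P, ∃ m : ℤ, L P = m) : ∀ i, ∃ m : ℤ, cls y (cQ c) L i = m := by
  classical
  intro i
  have hT : ∀ P ∈ hL.toFinset, IsPrimeDivisor y P := fun P hP => (hL.mem_toFinset.1 hP).1
  rw [cls_finset (T := hL.toFinset) hT (fun P hP hPT => by
    by_contra h0
    exact hPT (hL.mem_toFinset.2 ⟨hP, h0⟩)), Finset.sum_apply]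
  refine Finset.sum_induction (fun P => (L P • cQ c P) i) (fun x : ℚ => ∃ m : ℤ, x = m) ?_ ⟨0, by simp⟩
    fun P _ => ?_
  · rintro a a' ⟨m, rfl⟩ ⟨m', rfl⟩
    exact ⟨m + m', by push_cast; ring⟩
  · obtain ⟨m, hm⟩ := h P
    exact ⟨m * c P i, by
      rw [Pi.smul_apply, hm, smul_eq_mul]
      unfold cQ
      push_cast
      ring⟩

theorem fin0_mul_sum {ι : Type*} (s : Finset ι) (q : ι → ℚ) {D : ι → Place ℂ K → ℚ}
    (h : ∀ i ∈ s, Fin0 y (D i)) : Fin0 y (fun P => ∑ i ∈ s, q i * D i P) :=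
  Fin0.sum s (D := fun i P => q i * D i P) fun i hi => (h i hi).smul (q i)

/-- **The pull back of classes.** -/
theorem Bel.exists_iota (hb : Bel π b r) (hy : NormalModel y) (hy' : NormalModel y')
    (hn : Algebra.trdeg ℂ K = n) (hn' : Algebra.trdeg ℂ K' = n) (hn0 : 0 < n)
    (hπ : FiniteMap π y y') {c : Place ℂ K → Fin ρ → ℤ} (hc : PicardBasis y c)
    {c' : Place ℂ K' → Fin ρ' → ℤ} (hc' : PicardBasis y' c') :
    ∃ (ι : (Fin ρ → ℝ) →ₗ[ℝ] (Fin ρ' → ℝ)) (lam : (Fin ρ' → ℝ) →ₗ[ℝ] (Fin ρ → ℝ)),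
      (∀ x, lam (ι x) = x) ∧
      (∀ L, Fin0 y L → ι (toR (cls y (cQ c) L)) = toR (cls y' (cQ c') (pl b r L))) ∧
      (∀ x : Fin ρ → ℝ, (∀ i, ∃ m : ℤ, x i = m) → ∀ i, ∃ m : ℤ, ι x i = m) := by
  classical
  choose D hD hDc using fun j : Fin ρ => exists_int_div hc (Pi.single j 1)
  obtain ⟨v, hv⟩ : ∃ v : Fin ρ → Fin ρ' → ℚ, ∀ j, v j =
    cls y' (cQ c') (pl b r fun P => (D j P : ℚ)) := ⟨_, fun _ => rfl⟩
  obtain ⟨ι, hι⟩ : ∃ ι : (Fin ρ → ℝ) →ₗ[ℝ] (Fin ρ' → ℝ), ∀ t, ι t = ∑ j, t j • toR (v j) :=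
    ⟨Fintype.linearCombination ℝ (fun j => toR (v j)), fun t =>
      Fintype.linearCombination_apply ℝ _ t⟩
  -- rational combinations
  have hcomb : ∀ q : Fin ρ → ℚ, cls y (cQ c) (fun P => ∑ j, q j * (D j P : ℚ)) = q ∧
      cls y' (cQ c') (pl b r fun P => ∑ j, q j * (D j P : ℚ)) = ∑ j, q j • v j := by
    intro q
    constructor
    · rw [cls_sum Finset.univ (D := fun j P => q j * (D j P : ℚ)) fun j _ => (hD j).smul (q j)]
      funext i
      rw [Finset.sum_apply, Finset.sum_eq_single i]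
      · rw [cls_smul, hDc]
        simp
      · intro j _ hj
        rw [cls_smul, hDc]
        simp [Pi.single_eq_of_ne (Ne.symm hj)]
      · intro h
        exact absurd (Finset.mem_univ _) h
    · have h1 : cls y' (cQ c') (pl b r fun P => ∑ j, q j * (D j P : ℚ)) =
          cls y' (cQ c') (fun Q => ∑ j, q j * pl b r (fun P => (D j P : ℚ)) Q) := by
        refine cls_congr fun Q _ => ?_
        show (r Q : ℚ) * ∑ j, q j * (D j (b Q) : ℚ) = ∑ j, q j * ((r Q : ℚ) * (D j (b Q) : ℚ))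
        rw [Finset.mul_sum]
        exact Finset.sum_congr rfl fun j _ => by ring
      rw [h1, cls_sum Finset.univ (D := fun j Q => q j * pl b r (fun P => (D j P : ℚ)) Q)
        fun j _ => (hb.pl_fin hπ (hD j)).smul (q j)]
      exact Finset.sum_congr rfl fun j _ => by rw [cls_smul, hv]
  have hinj : ∀ q : Fin ρ → ℚ, ∑ j, q j • v j = 0 → q = 0 := by
    intro q hq
    obtain ⟨h1, h2⟩ := hcomb q
    rw [← h1]
    exact hb.cls_dn hy hy' hn hn' hn0 hπ hc.numClasses hc'.numClasses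
      (fin0_mul_sum Finset.univ q fun j _ => hD j) (h2.trans hq)
  -- the left inverse
  obtain ⟨g, hg⟩ := LinearMap.exists_leftInverse_of_injective
    (Fintype.linearCombination ℚ v : (Fin ρ → ℚ) →ₗ[ℚ] (Fin ρ' → ℚ)) (by
      rw [LinearMap.ker_eq_bot']
      intro q hq
      rw [Fintype.linearCombination_apply] at hq
      exact hinj q hq)
  have hgv : ∀ j, g (v j) = Pi.single j 1 := by
    intro j
    have h1 := LinearMap.congr_fun hg (Pi.single j 1)
    rw [LinearMap.comp_apply, Fintype.linearCombination_apply_single, one_smul] at h1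
    exact h1
  obtain ⟨lam, hlam⟩ : ∃ lam : (Fin ρ' → ℝ) →ₗ[ℝ] (Fin ρ → ℝ), ∀ w : Fin ρ' → ℚ,
      lam (toR w) = toR (g w) := by
    refine ⟨Matrix.toLin' ((LinearMap.toMatrix' g).map (fun q : ℚ => (q : ℝ))), fun w => ?_⟩
    funext i
    have h1 : g w = (LinearMap.toMatrix' g).mulVec w := by
      rw [LinearMap.toMatrix'_mulVec]
    rw [Matrix.toLin'_apply]
    show ∑ j, ((LinearMap.toMatrix' g i j : ℚ) : ℝ) * ((w j : ℚ) : ℝ) = ((g w i : ℚ) : ℝ)
    rw [h1]
    show _ = ((∑ j, LinearMap.toMatrix' g i j * w j : ℚ) : ℝ)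
    push_cast
    rfl
  refine ⟨ι, lam, fun x => ?_, fun L hL => ?_, fun x hx => ?_⟩
  · rw [hι, map_sum]
    funext i
    rw [Finset.sum_apply, Finset.sum_eq_single i]
    · rw [map_smul, hlam, hgv]
      simp [toR]
    · intro j _ hj
      rw [map_smul, hlam, hgv]
      simp [toR, Pi.single_eq_of_ne (Ne.symm hj)]
    · intro h
      exact absurd (Finset.mem_univ _) h
  · obtain ⟨q, hq⟩ : ∃ q, q = cls y (cQ c) L := ⟨_, rfl⟩
    obtain ⟨h1, h2⟩ := hcomb q
    have hE := fin0_mul_sum (y := y) Finset.univ q fun j (_ : j ∈ Finset.univ) => hD j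
    have h3 := hb.cls_up hy hy' hn hn' hn0 hπ hc.numClasses hc'.numClasses
      (hL.sub hE) (by rw [cls_sub hL hE, h1, hq, sub_self])
    have h4 : cls y' (cQ c') (pl b r fun P => L P - ∑ j, q j * (D j P : ℚ)) =
        cls y' (cQ c') (fun Q => pl b r L Q - pl b r (fun P => ∑ j, q j * (D j P : ℚ)) Q) := by
      refine cls_congr fun Q _ => ?_
      show (r Q : ℚ) * (L (b Q) - ∑ j, q j * (D j (b Q) : ℚ)) =
        (r Q : ℚ) * L (b Q) - (r Q : ℚ) * ∑ j, q j * (D j (b Q) : ℚ)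
      ring
    rw [h4, cls_sub (hb.pl_fin hπ hL) (hb.pl_fin hπ hE), h2, sub_eq_zero] at h3
    rw [h3, ← hq, hι, toR_sum]
    exact Finset.sum_congr rfl fun j _ => by rw [toR_smul]; rfl
  · choose m hm using hx
    have h1 : ∀ j, ∃ z : Fin ρ' → ℤ, toR (v j) = fun i => (z i : ℝ) := by
      intro j
      have h2 := cls_int (c := c') (hb.pl_fin hπ (hD j)) fun Q =>
        ⟨(r Q : ℤ) * D j (b Q), by
          show (r Q : ℚ) * (D j (b Q) : ℚ) = _
          push_cast
          ring⟩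
      choose z hz using h2
      refine ⟨z, funext fun i => ?_⟩
      show ((v j i : ℚ) : ℝ) = _
      rw [hv, hz]
      push_cast
      rfl
    choose z hz using h1
    intro i
    refine ⟨∑ j, m j * z j i, ?_⟩
    rw [hι, Finset.sum_apply]
    push_cast
    refine Finset.sum_congr rfl fun j _ => ?_
    rw [Pi.smul_apply, smul_eq_mul, hm, hz]

end

end Pool.Agent.H85.CQ
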