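import Pool.Agent.H85.CQ.Geo1
import Pool.Agent.N110.CC.Res

/-!
Project CQ (helper85): the sum over the group, and the descent of automorphisms.
-/

set_option autoImplicit false
set_option linter.unusedSectionVars false

open FF Pool.Agent.W602.GT Pool.Agent.Y172 Pool.Agent.R887
open Pool.Agent.N110 Pool.Agent.N110.PA Pool.Agent.N110.NV Pool.Agent.N492.PA Pool.Agent.N110.CC

namespace Pool.Agent.H85.CQ

section

variable {K K' : Type} [Field K] [Algebra ℂ K] [Field K'] [Algebra ℂ K'] {N N' n ρ ρ' : ℕ}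
  {y : Fin (N + 1) → K} {y' : Fin (N' + 1) → K'} {π : K →ₐ[ℂ] K'}
  {b : Place ℂ K' → Place ℂ K} {r : Place ℂ K' → ℕ} {G : Subgroup (K' ≃ₐ[ℂ] K')}

/-- places below translates -/
theorem Bel.comap (hb : Bel π b r) {φ : K ≃ₐ[ℂ] K} {φ' : K' ≃ₐ[ℂ] K'}
    (h : ∀ f, φ' (π f) = π (φ f)) (Q : Place ℂ K') :
    b (Pool.Agent.N110.comap φ' Q) = Pool.Agent.N110.comap φ (b Q) ∧
      r (Pool.Agent.N110.comap φ' Q) = r Q := by
  refine hb.eq ⟨hb.pos Q, fun f => ?_⟩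
  show Q.ord (φ' (π f)) = (r Q : ℤ) * (b Q).ord (φ f)
  rw [h]
  exact (hb.lo Q).2 (φ f)

theorem Bel.comap_pl (hb : Bel π b r) {φ : K ≃ₐ[ℂ] K} {φ' : K' ≃ₐ[ℂ] K'}
    (h : ∀ f, φ' (π f) = π (φ f)) (L : Place ℂ K → ℚ) (Q : Place ℂ K') :
    pl b r L (Pool.Agent.N110.comap φ' Q) = pl b r (fun P => L (Pool.Agent.N110.comap φ P)) Q := by
  obtain ⟨h1, h2⟩ := hb.comap h Q
  show (r _ : ℚ) * L (b _) = (r Q : ℚ) * L (Pool.Agent.N110.comap φ (b Q))
  rw [h1, h2]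

theorem IsQuot.fix (hq : IsQuot π y y' G) {g : K' ≃ₐ[ℂ] K'} (hg : g ∈ G) (f : K) :
    g (π f) = π ((1 : K ≃ₐ[ℂ] K) f) := by
  rw [AlgEquiv.one_apply]
  exact (hq.fixed (π f)).2 ⟨f, rfl⟩ g hg

/-- a place below determines a translate -/
theorem Bel.trans (hb : Bel π b r) (hq : IsQuot π y y' G) (hT : S_TRANS) {Q Q' : Place ℂ K'}
    (h : b Q = b Q') : ∃ g ∈ G, Q' = Pool.Agent.N110.comap g Q := by
  have := hq.finite
  refine hT K K' π G hq.fixed (b Q) Q Q' (r Q) (r Q') (hb.lo Q) ?_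
  rw [h]
  exact hb.lo Q'

/-- the sum of the translates of a divisor -/
noncomputable def av (G : Subgroup (K' ≃ₐ[ℂ] K')) [Fintype G] (L : Place ℂ K' → ℚ) :
    Place ℂ K' → ℚ := fun Q => ∑ g : G, L (Pool.Agent.N110.comap (g : K' ≃ₐ[ℂ] K') Q)

theorem comap_fin0 {φ : K' ≃ₐ[ℂ] K'} (hφ : PseudoAut φ y') {L : Place ℂ K' → ℚ}
    (hL : Fin0 y' L) : Fin0 y' (fun Q => L (Pool.Agent.N110.comap φ Q)) := by
  have hinj : Function.Injective (Pool.Agent.N110.comap φ : Place ℂ K' → Place ℂ K') :=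
    fun P Q h => by rw [← comap_inv_comap φ P, h, comap_inv_comap]
  refine (Set.Finite.preimage hinj.injOn hL).subset ?_
  rintro Q ⟨hQ, h0⟩
  exact ⟨(psaut_iff.1 hφ Q).2 hQ, h0⟩

theorem av_fin [Fintype G] (hG : ∀ g ∈ G, PseudoAut g y') {L : Place ℂ K' → ℚ}
    (hL : Fin0 y' L) : Fin0 y' (av G L) :=
  Fin0.sum Finset.univ (D := fun (g : G) Q => L (Pool.Agent.N110.comap (g : K' ≃ₐ[ℂ] K') Q))
    fun g _ => comap_fin0 (hG g g.2) hL

theorem av_inv [Fintype G] (L : Place ℂ K' → ℚ) {g₀ : K' ≃ₐ[ℂ] K'} (hg₀ : g₀ ∈ G)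
    (Q : Place ℂ K') : av G L (Pool.Agent.N110.comap g₀ Q) = av G L Q := by
  unfold av
  refine Fintype.sum_equiv (Equiv.mulLeft (⟨g₀, hg₀⟩ : G)) _ _ fun g => ?_
  show L (Pool.Agent.N110.comap g (Pool.Agent.N110.comap g₀ Q)) =
    L (Pool.Agent.N110.comap (g₀ * g) Q)
  rw [comap_mul]

/-- **The sum of the translates is a pull back.** -/
theorem Bel.exists_dn (hb : Bel π b r) (hq : IsQuot π y y' G) (hT : S_TRANS) [Fintype G]
    (hG : ∀ g ∈ G, PseudoAut g y') {L : Place ℂ K' → ℚ} (hL : Fin0 y' L) :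
    ∃ D : Place ℂ K → ℚ, Fin0 y D ∧ (∀ Q, pl b r D Q = av G L Q) ∧
      ((∀ Q, IsPrimeDivisor y' Q → 0 ≤ L Q) → ∀ P, IsPrimeDivisor y P → 0 ≤ D P) := by
  classical
  choose s hs using hb.surj
  have hr : ∀ Q, (r Q : ℚ) ≠ 0 := fun Q => by
    have := hb.pos Q
    positivity
  refine ⟨fun P => av G L (s P) / r (s P), ?_, fun Q => ?_, fun h P hP => ?_⟩
  · refine ((av_fin hG hL).image b).subset ?_
    rintro P ⟨hP, h0⟩
    refine ⟨s P, ⟨?_, fun h1 => h0 ?_⟩, hs P⟩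
    · rw [hb.prime hq.map, hs]
      exact hP
    · show av G L (s P) / r (s P) = 0
      rw [h1, zero_div]
  · obtain ⟨g, hg, h1⟩ := hb.trans hq hT (Q := Q) (Q' := s (b Q)) (hs (b Q)).symm
    show (r Q : ℚ) * (av G L (s (b Q)) / r (s (b Q))) = av G L Q
    have h2 : r (s (b Q)) = r Q := by
      rw [h1]
      exact (hb.comap (hq.fix hg) Q).2
    rw [h2, h1, av_inv L hg, mul_div_cancel₀ _ (hr Q)]
  · show 0 ≤ av G L (s P) / r (s P)
    refine div_nonneg ?_ (Nat.cast_nonneg _)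
    refine Finset.sum_nonneg fun g _ => h _ ?_
    rw [psaut_iff.1 (hG g g.2), hb.prime hq.map, hs]
    exact hP

/-- the action on the class of a divisor -/
theorem rep_cls {c' : Place ℂ K' → Fin ρ' → ℤ} {𝒮 : Subgroup (K' ≃ₐ[ℂ] K')}
    {M : (K' ≃ₐ[ℂ] K') → Matrix (Fin ρ') (Fin ρ') ℤ} (hM : Rep y' c' 𝒮 M) {φ : K' ≃ₐ[ℂ] K'}
    (hφ : φ ∈ 𝒮) {L : Place ℂ K' → ℚ} (hL : Fin0 y' L) :
    TR (M φ) (toR (cls y' (cQ c') L)) =
      toR (cls y' (cQ c') fun Q => L (Pool.Agent.N110.comap φ Q)) := by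
  classical
  have hT : ∀ P ∈ hL.toFinset, IsPrimeDivisor y' P := fun P hP => (hL.mem_toFinset.1 hP).1
  have hinj : Function.Injective (Pool.Agent.N110.comap φ⁻¹ : Place ℂ K' → Place ℂ K') :=
    fun P Q h => by rw [← comap_comap_inv φ P, h, comap_comap_inv]
  rw [cls_finset (T := hL.toFinset) hT (fun P hP hPT => by
    by_contra h0
    exact hPT (hL.mem_toFinset.2 ⟨hP, h0⟩)),
    cls_finset (T := hL.toFinset.image (Pool.Agent.N110.comap φ⁻¹)) (fun P hP => by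
      obtain ⟨Q, hQ, rfl⟩ := Finset.mem_image.1 hP
      exact (psaut_iff.1 (hM.ps _ (𝒮.inv_mem hφ)) Q).2 (hT Q hQ)) (fun P hP hPT => by
      by_contra h0
      refine hPT (Finset.mem_image.2 ⟨Pool.Agent.N110.comap φ P, ?_, comap_inv_comap φ P⟩)
      rw [hL.mem_toFinset]
      exact ⟨(psaut_iff.1 (hM.ps _ hφ) P).2 hP, h0⟩), toR_sum, toR_sum, map_sum,
    Finset.sum_image fun P _ Q _ h => hinj h]
  refine Finset.sum_congr rfl fun P hP => ?_
  rw [toR_smul, toR_smul, map_smul, comap_comap_inv]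
  congr 1
  have h1 := hM.TR_rcl hφ (hT P hP)
  have e1 : rcl c' P = toR (cQ c' P) := by
    funext i
    show ((c' P i : ℤ) : ℝ) = (((c' P i : ℤ) : ℚ) : ℝ)
    push_cast
    rfl
  have e2 : rcl c' (Pool.Agent.N110.comap φ⁻¹ P) = toR (cQ c' (Pool.Agent.N110.comap φ⁻¹ P)) := by
    funext i
    show ((c' _ i : ℤ) : ℝ) = (((c' _ i : ℤ) : ℚ) : ℝ)
    push_cast
    rfl
  rw [e1, e2] at h1
  exact h1

/-- an automorphism which normalises the group descends -/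
theorem exists_desc (hq : ∀ f : K', (∀ g ∈ G, g f = f) ↔ ∃ f₀ : K, π f₀ = f)
    {z : K' ≃ₐ[ℂ] K'} (hz : ∀ g ∈ G, z⁻¹ * g * z ∈ G) (hz' : ∀ g ∈ G, z * g * z⁻¹ ∈ G) :
    ∃ φ : K ≃ₐ[ℂ] K, ∀ f, z (π f) = π (φ f) := by
  classical
  have key : ∀ w : K' ≃ₐ[ℂ] K', (∀ g ∈ G, w⁻¹ * g * w ∈ G) → ∀ f : K, ∃ f₀ : K,
      π f₀ = w (π f) := by
    intro w hw f
    rw [← hq]
    intro g hg
    have h1 : (w⁻¹ * g * w) (π f) = π f := (hq (π f)).2 ⟨f, rfl⟩ _ (hw g hg)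
    have h2 : g (w (π f)) = w ((w⁻¹ * g * w) (π f)) := by
      simp only [AlgEquiv.mul_apply]
      exact (AlgEquiv.apply_symm_apply w _).symm
    rw [h2, h1]
  choose a ha using key z hz
  choose a' ha' using key z⁻¹ (fun g hg => by simpa using hz' g hg)
  have hinj : Function.Injective π := π.toRingHom.injective
  refine ⟨AlgEquiv.ofAlgHom
    { toFun := a
      map_one' := hinj (by rw [ha, map_one, map_one])
      map_mul' := fun u v => hinj (by rw [ha, map_mul, map_mul, map_mul, ha, ha])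
      map_zero' := hinj (by rw [ha, map_zero, map_zero])
      map_add' := fun u v => hinj (by rw [ha, map_add, map_add, map_add, ha, ha])
      commutes' := fun u => hinj (by rw [ha, π.commutes, z.commutes]) }
    { toFun := a'
      map_one' := hinj (by rw [ha', map_one, map_one])
      map_mul' := fun u v => hinj (by rw [ha', map_mul, map_mul, map_mul, ha', ha'])
      map_zero' := hinj (by rw [ha', map_zero, map_zero])
      map_add' := fun u v => hinj (by rw [ha', map_add, map_add, map_add, ha', ha'])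
      commutes' := fun u => hinj (by rw [ha', π.commutes, (z⁻¹).commutes]) }
    (by
      apply AlgHom.ext
      intro f
      apply hinj
      show π (a (a' f)) = π f
      rw [ha, ha']
      exact AlgEquiv.apply_symm_apply z _)
    (by
      apply AlgHom.ext
      intro f
      apply hinj
      show π (a' (a f)) = π f
      rw [ha', ha]
      exact AlgEquiv.symm_apply_apply z _), fun f => (ha f).symm⟩

/-- the descent of a pseudo-automorphism -/
theorem Bel.ps_dn (hb : Bel π b r) (hπ : FiniteMap π y y') {φ : K ≃ₐ[ℂ] K}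
    {φ' : K' ≃ₐ[ℂ] K'} (h : ∀ f, φ' (π f) = π (φ f)) (hφ' : PseudoAut φ' y') : PseudoAut φ y := by
  rw [psaut_iff]
  intro P
  obtain ⟨Q, rfl⟩ := hb.surj P
  rw [← (hb.comap h Q).1, ← hb.prime hπ, ← hb.prime hπ]
  exact psaut_iff.1 hφ' Q

end

end Pool.Agent.H85.CQ
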