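import Pool.Agent.H85.CQ.Geo2
import Pool.Agent.N340.CC.VINT

/-!
Project CQ (helper85): the cones of the quotient.
-/

set_option autoImplicit false
set_option linter.unusedSectionVars false

open FF Pool.Agent.W602.GT Pool.Agent.Y172 Pool.Agent.R887
open Pool.Agent.N110 Pool.Agent.N110.PA Pool.Agent.N110.NV Pool.Agent.N492.PA Pool.Agent.N110.CC

namespace Pool.Agent.H85.CQ

section

variable {K K' : Type} [Field K] [Algebra ℂ K] [Field K'] [Algebra ℂ K'] {N N' n ρ ρ' : ℕ}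

/-- the data of a quotient -/
structure Cx (y : Fin (N + 1) → K) (y' : Fin (N' + 1) → K') (π : K →ₐ[ℂ] K')
    (b : Place ℂ K' → Place ℂ K) (r : Place ℂ K' → ℕ) (G : Subgroup (K' ≃ₐ[ℂ] K'))
    (c : Place ℂ K → Fin ρ → ℤ) (c' : Place ℂ K' → Fin ρ' → ℤ) (𝒮 : Subgroup (K' ≃ₐ[ℂ] K'))
    (M : (K' ≃ₐ[ℂ] K') → Matrix (Fin ρ') (Fin ρ') ℤ) (ι : (Fin ρ → ℝ) →ₗ[ℝ] (Fin ρ' → ℝ))
    (lam : (Fin ρ' → ℝ) →ₗ[ℝ] (Fin ρ → ℝ)) : Prop where
  ny : NormalModel y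
  ny' : NormalModel y'
  pb : PicardBasis y c
  pb' : PicardBasis y' c'
  bel : Bel π b r
  q : IsQuot π y y' G
  tr : S_TRANS
  le : G ≤ 𝒮
  rep : Rep y' c' 𝒮 M
  li : ∀ x, lam (ι x) = x
  cls : ∀ L, Fin0 y L → ι (toR (cls y (cQ c) L)) = toR (cls y' (cQ c') (pl b r L))
  int : ∀ x : Fin ρ → ℝ, (∀ i, ∃ m : ℤ, x i = m) → ∀ i, ∃ m : ℤ, ι x i = m

variable {y : Fin (N + 1) → K} {y' : Fin (N' + 1) → K'} {π : K →ₐ[ℂ] K'}
  {b : Place ℂ K' → Place ℂ K} {r : Place ℂ K' → ℕ} {G : Subgroup (K' ≃ₐ[ℂ] K')}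
  {c : Place ℂ K → Fin ρ → ℤ} {c' : Place ℂ K' → Fin ρ' → ℤ} {𝒮 : Subgroup (K' ≃ₐ[ℂ] K')}
  {M : (K' ≃ₐ[ℂ] K') → Matrix (Fin ρ') (Fin ρ') ℤ} {ι : (Fin ρ → ℝ) →ₗ[ℝ] (Fin ρ' → ℝ)}
  {lam : (Fin ρ' → ℝ) →ₗ[ℝ] (Fin ρ → ℝ)}

theorem rcl_eq {c : Place ℂ K → Fin ρ → ℤ} {P : Place ℂ K} : rcl c P = toR (cQ c P) := by
  funext i
  show ((c P i : ℤ) : ℝ) = (((c P i : ℤ) : ℚ) : ℝ)
  push_cast
  rfl

open scoped Classical in
theorem rcl_single {c : Place ℂ K → Fin ρ → ℤ} {P : Place ℂ K} (hP : IsPrimeDivisor y P) :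
    rcl c P = toR (Pool.Agent.N110.cls y (cQ c) (fun Q => if Q = P then 1 else 0)) := by
  rw [cls_single hP, one_smul, rcl_eq]

/-- effective divisors have classes in the effective cone -/
theorem eff_cone {L : Place ℂ K → ℚ} (hL : Fin0 y L)
    (h0 : ∀ P, IsPrimeDivisor y P → 0 ≤ L P) : toR (Pool.Agent.N110.cls y (cQ c) L) ∈ effCone y c := by
  classical
  have hT : ∀ P ∈ hL.toFinset, IsPrimeDivisor y P := fun P hP => (hL.mem_toFinset.1 hP).1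
  rw [cls_finset (T := hL.toFinset) hT (fun P hP hPT => by
    by_contra h0
    exact hPT (hL.mem_toFinset.2 ⟨hP, h0⟩)), toR_sum]
  refine Finset.sum_induction _ (fun x => x ∈ effCone y c) (fun _ _ h1 h2 => coneOf_add h1 h2)
    (coneOf_zero _) fun P hP => ?_
  rw [toR_smul, ← rcl_eq]
  have h1 : rcl c P ∈ effCone y c := coneOf_self ⟨P, hT P hP, rfl⟩
  exact coneOf_smul h1 (by exact_mod_cast h0 P (hT P hP))

namespace Cx

/-- the sum over the group -/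
noncomputable def S (G : Subgroup (K' ≃ₐ[ℂ] K')) [Fintype G]
    (M : (K' ≃ₐ[ℂ] K') → Matrix (Fin ρ') (Fin ρ') ℤ) : (Fin ρ' → ℝ) →ₗ[ℝ] (Fin ρ' → ℝ) :=
  ∑ g : G, TR (M g)

theorem S_apply [Fintype G] (x : Fin ρ' → ℝ) : S G M x = ∑ g : G, TR (M g) x := by
  rw [S, LinearMap.sum_apply]

theorem psG (h : Cx y y' π b r G c c' 𝒮 M ι lam) : ∀ g ∈ G, PseudoAut g y' :=
  fun g hg => h.rep.ps g (h.le hg)

theorem S_cls (h : Cx y y' π b r G c c' 𝒮 M ι lam) [Fintype G] {L : Place ℂ K' → ℚ}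
    (hL : Fin0 y' L) : S G M (toR (Pool.Agent.N110.cls y' (cQ c') L)) = toR (Pool.Agent.N110.cls y' (cQ c') (av G L)) := by
  rw [S_apply]
  unfold av
  rw [cls_sum Finset.univ (D := fun (g : G) Q => L (comap (g : K' ≃ₐ[ℂ] K') Q))
    (fun g _ => comap_fin0 (h.psG g g.2) hL), toR_sum]
  exact Finset.sum_congr rfl fun g _ => rep_cls h.rep (h.le g.2) hL

/-- the sum of the translates of a class is a pull back -/
theorem S_dn (h : Cx y y' π b r G c c' 𝒮 M ι lam) [Fintype G] {L : Place ℂ K' → ℚ}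
    (hL : Fin0 y' L) : ∃ D, Fin0 y D ∧ (∀ Q, pl b r D Q = av G L Q) ∧
      ι (toR (Pool.Agent.N110.cls y (cQ c) D)) = S G M (toR (Pool.Agent.N110.cls y' (cQ c') L)) ∧
      ((∀ Q, IsPrimeDivisor y' Q → 0 ≤ L Q) → ∀ P, IsPrimeDivisor y P → 0 ≤ D P) := by
  obtain ⟨D, hD, h1, h2⟩ := h.bel.exists_dn h.q h.tr h.psG hL
  refine ⟨D, hD, h1, ?_, h2⟩
  rw [h.cls D hD, h.S_cls hL]
  congr 1
  exact cls_congr fun Q _ => h1 Q

theorem S_range (h : Cx y y' π b r G c c' 𝒮 M ι lam) [Fintype G] (x : Fin ρ' → ℝ) :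
    ∃ z, ι z = S G M x := by
  classical
  have h1 := span_rcl h.pb' x
  induction h1 using Submodule.span_induction with
  | mem z hz =>
    obtain ⟨P, hP, rfl⟩ := hz
    obtain ⟨D, -, -, h3, -⟩ := h.S_dn (fin_single P 1)
    rw [rcl_single hP]
    exact ⟨_, h3⟩
  | zero => exact ⟨0, by rw [map_zero, map_zero]⟩
  | add a a' _ _ ha ha' =>
    obtain ⟨z, hz⟩ := ha
    obtain ⟨z', hz'⟩ := ha'
    exact ⟨z + z', by rw [map_add, map_add, hz, hz']⟩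
  | smul t a _ ha =>
    obtain ⟨z, hz⟩ := ha
    exact ⟨t • z, by rw [map_smul, map_smul, hz]⟩

theorem S_int (h : Cx y y' π b r G c c' 𝒮 M ι lam) [Fintype G] {x : Fin ρ' → ℝ}
    (hx : ∀ i, ∃ m : ℤ, x i = m) : ∃ d : ℕ, 0 < d ∧ ∃ z : Fin ρ → ℤ,
      ι (fun i => (z i : ℝ)) = (d : ℝ) • S G M x := by
  classical
  choose m hm using hx
  have hx' : x = fun i => (m i : ℝ) := funext hm
  rw [hx']
  have h1 := h.pb'.generate m
  clear hx' hm
  induction h1 using AddSubgroup.closure_induction with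
  | mem z hz =>
    obtain ⟨P, hP, rfl⟩ := hz
    obtain ⟨D, -, -, h3, -⟩ := h.S_dn (fin_single P 1)
    obtain ⟨d, z, hd, hz⟩ := Pool.Agent.N340.CC.common (Pool.Agent.N110.cls y (cQ c) D)
    refine ⟨d, hd, z, ?_⟩
    have e1 : (fun i => ((c' P i : ℤ) : ℝ)) = rcl c' P := rfl
    rw [e1, rcl_single hP, ← h3, ← map_smul]
    congr 1
    funext i
    have h4 := congrFun hz i
    rw [Pi.smul_apply, smul_eq_mul] at h4
    have h5 := congrArg (fun q : ℚ => (q : ℝ)) h4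
    push_cast at h5
    rw [Pi.smul_apply, smul_eq_mul]
    exact h5
  | zero => exact ⟨1, one_pos, 0, by
      have e1 : (fun i : Fin ρ => (((0 : Fin ρ → ℤ) i : ℤ) : ℝ)) = 0 := by funext i; simp
      have e2 : (fun i : Fin ρ' => (((0 : Fin ρ' → ℤ) i : ℤ) : ℝ)) = 0 := by funext i; simp
      rw [e1, e2, map_zero, map_zero, smul_zero]⟩
  | add a a' _ _ ha ha' =>
    obtain ⟨d, hd, z, hz⟩ := ha
    obtain ⟨d', hd', z', hz'⟩ := ha'
    refine ⟨d * d', Nat.mul_pos hd hd', fun i => d' * z i + d * z' i, ?_⟩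
    have e1 : (fun i : Fin ρ => (((d' * z i + d * z' i : ℤ)) : ℝ)) =
        (d' : ℝ) • (fun i => (z i : ℝ)) + (d : ℝ) • fun i => (z' i : ℝ) := by
      funext i; simp
    have e2 : (fun i : Fin ρ' => (((a + a') i : ℤ) : ℝ)) =
        (fun i => (a i : ℝ)) + fun i => (a' i : ℝ) := by funext i; simp
    rw [e1, e2, map_add, map_add, map_smul, map_smul, hz, hz', smul_add, smul_smul, smul_smul]
    push_cast
    rw [mul_comm (d' : ℝ)]
  | neg a _ ha =>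
    obtain ⟨d, hd, z, hz⟩ := ha
    refine ⟨d, hd, -z, ?_⟩
    have e1 : (fun i : Fin ρ => (((-z) i : ℤ) : ℝ)) = -fun i => (z i : ℝ) := by funext i; simp
    have e2 : (fun i : Fin ρ' => (((-a) i : ℤ) : ℝ)) = -fun i => (a i : ℝ) := by funext i; simp
    rw [e1, e2, map_neg, map_neg, hz, smul_neg]

/-- the pull back commutes with the actions -/
theorem equiv (h : Cx y y' π b r G c c' 𝒮 M ι lam) {φ : K ≃ₐ[ℂ] K} {φ' : K' ≃ₐ[ℂ] K'}
    (hφ' : φ' ∈ 𝒮) (hφ : ∀ f, φ' (π f) = π (φ f)) {T : (Fin ρ → ℝ) →ₗ[ℝ] (Fin ρ → ℝ)}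
    (hT : ∀ L, Fin0 y L → T (toR (Pool.Agent.N110.cls y (cQ c) L)) =
      toR (Pool.Agent.N110.cls y (cQ c) fun P => L (comap φ P))) (x : Fin ρ → ℝ) :
    ι (T x) = TR (M φ') (ι x) := by
  classical
  have h1 := span_rcl h.pb x
  induction h1 using Submodule.span_induction with
  | mem z hz =>
    obtain ⟨P, hP, rfl⟩ := hz
    have hf := fin_single (y := y) P 1
    have hps : PseudoAut φ y := h.bel.ps_dn h.q.map hφ (h.rep.ps _ hφ')
    rw [rcl_single hP, hT _ hf, h.cls _ (comap_fin0 hps hf), h.cls _ hf,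
      rep_cls h.rep hφ' (h.bel.pl_fin h.q.map hf)]
    congr 1
    refine cls_congr fun Q _ => ?_
    exact (h.bel.comap_pl hφ (fun Q => if Q = P then 1 else 0) Q).symm
  | zero => simp
  | add a a' _ _ ha ha' => simp only [map_add, ha, ha']
  | smul t a _ ha => simp only [map_smul, ha]

theorem fixed (h : Cx y y' π b r G c c' 𝒮 M ι lam) {g : K' ≃ₐ[ℂ] K'} (hg : g ∈ G)
    (x : Fin ρ → ℝ) : TR (M g) (ι x) = ι x := by
  have h1 := h.equiv (φ := 1) (T := LinearMap.id) (h.le hg) (h.q.fix hg) (fun L _ => by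
    rw [LinearMap.id_apply]
    exact congrArg toR (cls_congr fun P _ => by rw [comap_one])) x
  exact h1.symm

theorem S_fixed (_h : Cx y y' π b r G c c' 𝒮 M ι lam) [Fintype G] {x : Fin ρ' → ℝ}
    (hx : ∀ g ∈ G, TR (M g) x = x) : S G M x = (Fintype.card G : ℝ) • x := by
  have h1 : ∀ g : G, TR (M g) x = x := fun g => hx g g.2
  rw [S_apply]
  simp only [h1]
  rw [Finset.sum_const, Finset.card_univ, Nat.cast_smul_eq_nsmul]

theorem card_pos' [Fintype G] : (0 : ℝ) < Fintype.card G := by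
  exact_mod_cast Fintype.card_pos

theorem eff_up (h : Cx y y' π b r G c c' 𝒮 M ι lam) {x : Fin ρ → ℝ} (hx : x ∈ effCone y c) :
    ι x ∈ effCone y' c' := by
  classical
  refine coneOf_ind (p := fun x => ι x ∈ effCone y' c') (by rw [map_zero]; exact coneOf_zero _)
    (fun x z hx hz => by rw [map_add]; exact coneOf_add hx hz)
    (fun t x ht hx => by rw [map_smul]; exact coneOf_smul hx ht) ?_ hx
  rintro _ ⟨P, hP, rfl⟩
  show ι (rcl c P) ∈ effCone y' c'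
  have hf := fin_single (y := y) P 1
  rw [rcl_single hP, h.cls _ hf]
  refine eff_cone (h.bel.pl_fin h.q.map hf) fun Q _ => ?_
  show 0 ≤ (r Q : ℚ) * (if b Q = P then 1 else 0)
  split_ifs <;> simp

theorem S_eff (h : Cx y y' π b r G c c' 𝒮 M ι lam) [Fintype G] {x : Fin ρ' → ℝ}
    (hx : x ∈ effCone y' c') : ∃ z ∈ effCone y c, ι z = S G M x := by
  classical
  refine coneOf_ind (p := fun x => ∃ z ∈ effCone y c, ι z = S G M x)
    ⟨0, coneOf_zero _, by rw [map_zero, map_zero]⟩ ?_ ?_ ?_ hx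
  · rintro a a' ⟨z, hz, h1⟩ ⟨z', hz', h2⟩
    exact ⟨z + z', coneOf_add hz hz', by rw [map_add, map_add, h1, h2]⟩
  · rintro t a ht ⟨z, hz, h1⟩
    exact ⟨t • z, coneOf_smul hz ht, by rw [map_smul, map_smul, h1]⟩
  · rintro _ ⟨P, hP, rfl⟩
    obtain ⟨D, hD, -, h3, h4⟩ := h.S_dn (fin_single P 1)
    rw [rcl_single hP]
    refine ⟨_, eff_cone hD (h4 fun Q _ => ?_), h3⟩
    split_ifs <;> simp

theorem eff_iff (h : Cx y y' π b r G c c' 𝒮 M ι lam) [Fintype G] {x : Fin ρ → ℝ} :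
    ι x ∈ effCone y' c' ↔ x ∈ effCone y c := by
  refine ⟨fun hx => ?_, h.eff_up⟩
  obtain ⟨z, hz, h1⟩ := h.S_eff hx
  rw [h.S_fixed fun g hg => h.fixed hg x, ← map_smul] at h1
  have h2 : z = (Fintype.card G : ℝ) • x := by rw [← h.li z, h1, h.li]
  have h3 := coneOf_smul hz (inv_nonneg.2 (card_pos' (G := G)).le)
  rwa [h2, smul_smul, inv_mul_cancel₀ (card_pos' (G := G)).ne', one_smul] at h3

end Cx

/-- a multiple of a rational divisor is integral -/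
theorem int_div {L : Place ℂ K → ℚ} (hL : Fin0 y L) : ∃ m : ℕ, 1 ≤ m ∧ ∃ D : Place ℂ K → ℤ,
    (∀ P, IsPrimeDivisor y P → (D P : ℚ) = m * L P) ∧
    {P | IsPrimeDivisor y P ∧ D P ≠ 0}.Finite := by
  classical
  obtain ⟨m, hm⟩ : ∃ m : ℕ, m = ∏ P ∈ hL.toFinset, (L P).den := ⟨_, rfl⟩
  have hm0 : 0 < m := by
    rw [hm]
    exact Finset.prod_pos fun P _ => (L P).den_pos
  refine ⟨m, hm0, fun P => ⌊(m : ℚ) * L P⌋, fun P hP => ?_, ?_⟩
  · by_cases h0 : L P = 0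
    · simp [h0]
    · obtain ⟨k, hk⟩ : (L P).den ∣ m := hm ▸ Finset.dvd_prod_of_mem _ (hL.mem_toFinset.2 ⟨hP, h0⟩)
      have h1 : (m : ℚ) * L P = ((k * (L P).num : ℤ) : ℚ) := by
        rw [hk]
        push_cast
        have h2 : ((L P).den : ℚ) * L P = (L P).num := Rat.den_mul_eq_num (L P)
        linear_combination (k : ℚ) * h2
      show ((⌊(m : ℚ) * L P⌋ : ℤ) : ℚ) = _
      rw [h1, Int.floor_intCast]
  · refine hL.subset ?_
    rintro P ⟨hP, h0⟩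
    refine ⟨hP, fun h1 => h0 ?_⟩
    show ⌊(m : ℚ) * L P⌋ = 0
    rw [h1, mul_zero, Int.floor_zero]

namespace Cx

/-- the pull back of an integral divisor -/
def plZ (b : Place ℂ K' → Place ℂ K) (r : Place ℂ K' → ℕ) (D : Place ℂ K → ℤ) :
    Place ℂ K' → ℤ := fun Q => (r Q : ℤ) * D (b Q)

theorem plZ_fin (h : Cx y y' π b r G c c' 𝒮 M ι lam) {D : Place ℂ K → ℤ}
    (hD : {P | IsPrimeDivisor y P ∧ D P ≠ 0}.Finite) :
    {P | IsPrimeDivisor y' P ∧ plZ b r D P ≠ 0}.Finite := by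
  refine (h.bel.fin _ hD).subset ?_
  rintro Q ⟨hQ, h0⟩
  exact ⟨(h.bel.prime h.q.map Q).1 hQ, right_ne_zero_of_mul h0⟩

theorem fin0_cast {D : Place ℂ K → ℤ} (hD : {P | IsPrimeDivisor y P ∧ D P ≠ 0}.Finite) :
    Fin0 y (fun P => (D P : ℚ)) := by
  refine hD.subset ?_
  rintro P ⟨hP, h0⟩
  have h1 : (D P : ℚ) ≠ 0 := h0
  exact ⟨hP, by exact_mod_cast h1⟩

theorem divClass_up (h : Cx y y' π b r G c c' 𝒮 M ι lam) {D : Place ℂ K → ℤ}
    (hD : {P | IsPrimeDivisor y P ∧ D P ≠ 0}.Finite) :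
    ι (divClass y c D) = divClass y' c' (plZ b r D) := by
  rw [Pool.Agent.N681.CC.divClass_eq c hD, Pool.Agent.N681.CC.divClass_eq c' (h.plZ_fin hD),
    h.cls _ (fin0_cast hD)]
  congr 1
  refine cls_congr fun Q _ => ?_
  show (r Q : ℚ) * (D (b Q) : ℚ) = (((r Q : ℤ) * D (b Q) : ℤ) : ℚ)
  push_cast
  rfl

theorem divClass_dn (h : Cx y y' π b r G c c' 𝒮 M ι lam) [Fintype G] {D' : Place ℂ K' → ℤ}
    (hD' : {P | IsPrimeDivisor y' P ∧ D' P ≠ 0}.Finite) : ∃ m : ℕ, 1 ≤ m ∧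
      ∃ D : Place ℂ K → ℤ, {P | IsPrimeDivisor y P ∧ D P ≠ 0}.Finite ∧
      (∀ Q P e, IsPrimeDivisor y' Q → LiesOver π Q P e →
        (e : ℤ) * D P = m * ∑ g : G, D' (comap (g : K' ≃ₐ[ℂ] K') Q)) ∧
      ι (divClass y c D) = (m : ℝ) • S G M (divClass y' c' D') := by
  obtain ⟨D₀, hD₀, h1, h2, -⟩ := h.S_dn (fin0_cast hD')
  obtain ⟨m, hm, D, h3, h4⟩ := int_div hD₀
  refine ⟨m, hm, D, h4, fun Q P e hQ hl => ?_, ?_⟩
  · obtain ⟨e1, e2⟩ := h.bel.eq hl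
    have hP : IsPrimeDivisor y P := by
      rw [← e1]
      exact (h.bel.prime h.q.map Q).1 hQ
    have h5 := h3 P hP
    have h6 : (r Q : ℚ) * D₀ (b Q) = ∑ g : G, (D' (comap (g : K' ≃ₐ[ℂ] K') Q) : ℚ) := h1 Q
    rw [e1, e2] at h6
    have h7 : ((e : ℤ) * D P : ℚ) = m * ∑ g : G, (D' (comap (g : K' ≃ₐ[ℂ] K') Q) : ℚ) := by
      rw [← h6, h5]
      push_cast
      ring
    exact_mod_cast h7
  · rw [Pool.Agent.N681.CC.divClass_eq c h4, Pool.Agent.N681.CC.divClass_eq c' hD', ← h2,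
      ← map_smul]
    congr 1
    have h5 : Pool.Agent.N110.cls y (cQ c) (fun P => (D P : ℚ)) = Pool.Agent.N110.cls y (cQ c) (fun P => (m : ℚ) * D₀ P) :=
      cls_congr fun P hP => h3 P hP
    rw [h5, cls_smul, toR_smul]
    push_cast
    rfl

/-- **The cones of a quotient.** -/
theorem cone_iff (h : Cx y y' π b r G c c' 𝒮 M ι lam) [Fintype G]
    {𝒟 : (Place ℂ K → ℤ) → Prop} {𝒟' : (Place ℂ K' → ℤ) → Prop}
    (hfin : ∀ D, 𝒟 D → {P | IsPrimeDivisor y P ∧ D P ≠ 0}.Finite)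
    (hfin' : ∀ D, 𝒟' D → {P | IsPrimeDivisor y' P ∧ D P ≠ 0}.Finite)
    (hup : ∀ D, 𝒟 D → 𝒟' (plZ b r D))
    (hdn : ∀ D' D (m : ℕ), 1 ≤ m → 𝒟' D' → {P | IsPrimeDivisor y P ∧ D P ≠ 0}.Finite →
      (∀ Q P e, IsPrimeDivisor y' Q → LiesOver π Q P e →
        (e : ℤ) * D P = m * ∑ g : G, D' (comap (g : K' ≃ₐ[ℂ] K') Q)) → 𝒟 D) {x : Fin ρ → ℝ} :
    ι x ∈ closure (coneOf {z | ∃ D, 𝒟' D ∧ z = divClass y' c' D}) ↔
      x ∈ closure (coneOf {z | ∃ D, 𝒟 D ∧ z = divClass y c D}) := by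
  constructor
  · intro hx
    have h1 : ∀ w ∈ coneOf {z | ∃ D, 𝒟' D ∧ z = divClass y' c' D},
        (lam ∘ₗ S G M) w ∈ coneOf {z | ∃ D, 𝒟 D ∧ z = divClass y c D} := by
      intro w hw
      refine coneOf_ind (p := fun w => (lam ∘ₗ S G M) w ∈
        coneOf {z | ∃ D, 𝒟 D ∧ z = divClass y c D}) (by rw [map_zero]; exact coneOf_zero _)
        (fun x z hx hz => by rw [map_add]; exact coneOf_add hx hz)
        (fun t x ht hx => by rw [map_smul]; exact coneOf_smul hx ht) ?_ hw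
      rintro _ ⟨D', hD', rfl⟩
      obtain ⟨m, hm, D, h2, h3, h4⟩ := h.divClass_dn (hfin' D' hD')
      have hm' : (0 : ℝ) < m := by exact_mod_cast hm
      have h5 : (lam ∘ₗ S G M) (divClass y' c' D') = (m : ℝ)⁻¹ • divClass y c D := by
        rw [← h.li (divClass y c D), h4, map_smul, smul_smul, inv_mul_cancel₀ hm'.ne', one_smul]
        rfl
      show (lam ∘ₗ S G M) (divClass y' c' D') ∈ coneOf {z | ∃ D, 𝒟 D ∧ z = divClass y c D}
      rw [h5]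
      have h6 : divClass y c D ∈ coneOf {z | ∃ D, 𝒟 D ∧ z = divClass y c D} :=
        coneOf_self ⟨D, hdn D' D m hm hD' h2 h3, rfl⟩
      exact coneOf_smul h6 (inv_nonneg.2 hm'.le)
    have h2 := map_mem_closure (LinearMap.continuous_of_finiteDimensional (lam ∘ₗ S G M)) hx h1
    have h3 : (lam ∘ₗ S G M) (ι x) = (Fintype.card G : ℝ) • x := by
      rw [LinearMap.comp_apply, h.S_fixed fun g hg => h.fixed hg x, map_smul, h.li]
    rw [h3] at h2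
    have h4 := closure_coneOf_smul h2 (inv_nonneg.2 (card_pos' (G := G)).le)
    rwa [smul_smul, inv_mul_cancel₀ (card_pos' (G := G)).ne', one_smul] at h4
  · intro hx
    refine map_mem_closure (LinearMap.continuous_of_finiteDimensional ι) hx fun w hw => ?_
    refine coneOf_ind (p := fun w => ι w ∈
      coneOf {z | ∃ D, 𝒟' D ∧ z = divClass y' c' D}) (by rw [map_zero]; exact coneOf_zero _)
      (fun x z hx hz => by rw [map_add]; exact coneOf_add hx hz)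
      (fun t x ht hx => by rw [map_smul]; exact coneOf_smul hx ht) ?_ hw
    rintro _ ⟨D, hD, rfl⟩
    show ι (divClass y c D) ∈ coneOf {z | ∃ D, 𝒟' D ∧ z = divClass y' c' D}
    rw [h.divClass_up (hfin D hD)]
    exact coneOf_self ⟨_, hup D hD, rfl⟩

end Cx

end

end Pool.Agent.H85.CQ
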