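import Pool.Agent.H85.CQ.Defs
import Pool.Agent.N110.CC.Res

/-!
Definitions: groups of automorphisms of a variety and of its quotient by a finite group.
-/

set_option autoImplicit false

open FF Pool.Agent.W602.GT Pool.Agent.Y172 Pool.Agent.R887 Pool.Agent.N110 Pool.Agent.N110.CC

namespace Pool.Agent.H85.CQ

section

variable {K K' : Type} [Field K] [Algebra ℂ K] [Field K'] [Algebra ℂ K'] {N N' ρ ρ' : ℕ}

/-- The group `PsAut(X, Δ)` of the pseudo-automorphisms of `X` which preserve `Δ`. -/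
def pairPs (y : Fin (N + 1) → K) (Δ : Place ℂ K → ℝ) : Subgroup (K ≃ₐ[ℂ] K) :=
  presGroup y (psGroup y) (fun _ h => h) Δ

/-- The group `Aut(X, Δ)` of the automorphisms of `X` which preserve `Δ`. -/
def pairAut (y : Fin (N + 1) → K) (Δ : Place ℂ K → ℝ) : Subgroup (K ≃ₐ[ℂ] K) :=
  autGroup y ⊓ pairPs y Δ

/-- The group `𝒮` of pseudo-automorphisms of `X` has a rational polyhedral fundamental domain on the
cone of the effective classes in the closed movable cone. -/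
def MovDom (y : Fin (N + 1) → K) (c : Place ℂ K → Fin ρ → ℤ) (𝒮 : Subgroup (K ≃ₐ[ℂ] K)) : Prop :=
  HasFundDomain {T | ∃ φ ∈ 𝒮, IsPullBack y c φ T} (movCone y c ∩ effCone y c)

/-- The group `𝒮` of automorphisms of `X` has a rational polyhedral fundamental domain on the cone of
the effective classes in the nef cone, `n` being the dimension of `X`. -/
def NefDom (y : Fin (N + 1) → K) (n : ℕ) (c : Place ℂ K → Fin ρ → ℤ)
    (𝒮 : Subgroup (K ≃ₐ[ℂ] K)) : Prop :=
  HasFundDomain {T | ∃ φ ∈ 𝒮, IsPullBack y c φ T} (nefCone y n c ∩ effCone y c)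

/-- The elements of `𝒮'` which commute with all elements of `G`, and therefore induce automorphisms
of the field of the `G`-invariant functions, induce elements of `𝒮`. -/
def Descends (π : K →ₐ[ℂ] K') (G 𝒮' : Subgroup (K' ≃ₐ[ℂ] K')) (𝒮 : Subgroup (K ≃ₐ[ℂ] K)) :
    Prop :=
  ∀ φ' ∈ 𝒮', (∀ g ∈ G, φ' * g = g * φ') → ∀ φ : K ≃ₐ[ℂ] K, (∀ f, φ' (π f) = π (φ f)) → φ ∈ 𝒮

/-- Up to conjugation by the elements of `𝒮'` which act trivially on `N¹(X')`, the embeddings of `G`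
which are conjugate in `𝒮'` to the inclusion and have a given action on `N¹(X')` are finite in
number. This holds if only finitely many elements of `𝒮'` act trivially on `N¹(X')`. -/
def FinConj (y' : Fin (N' + 1) → K') (c' : Place ℂ K' → Fin ρ' → ℤ)
    (𝒮' G : Subgroup (K' ≃ₐ[ℂ] K')) : Prop :=
  ∀ a : G → ((Fin ρ' → ℝ) ≃ₗ[ℝ] (Fin ρ' → ℝ)), ∃ R : Set (G → (K' ≃ₐ[ℂ] K')), R.Finite ∧
    ∀ f ∈ 𝒮', (∀ g : G, IsPullBack y' c' (f⁻¹ * g * f) (a g)) →
      ∃ r ∈ R, ∃ k ∈ 𝒮', IsPullBack y' c' k 1 ∧ ∀ g : G, f⁻¹ * g * f = k⁻¹ * r g * k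


/-- The kernel of the action of `𝒮'` on `N¹(X')` contains a normal abelian subgroup `𝒦` of `𝒮'`, of
finite index in the kernel, which is divisible by `m` and has only finitely many elements with
`k ^ m = 1`. For instance the kernel is finite (`𝒦 = 1`), or `𝒦` consists of the complex points of an
abelian variety. -/
structure AlmostAb (y' : Fin (N' + 1) → K') (c' : Place ℂ K' → Fin ρ' → ℤ)
    (𝒮' 𝒦 : Subgroup (K' ≃ₐ[ℂ] K')) (m : ℕ) : Prop where
  le : 𝒦 ≤ 𝒮'
  triv : ∀ k ∈ 𝒦, IsPullBack y' c' k 1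
  normal : ∀ f ∈ 𝒮', ∀ k ∈ 𝒦, f * k * f⁻¹ ∈ 𝒦
  comm : ∀ a ∈ 𝒦, ∀ b ∈ 𝒦, a * b = b * a
  div : ∀ a ∈ 𝒦, ∃ u ∈ 𝒦, u ^ m = a
  tors : {k | k ∈ 𝒦 ∧ k ^ m = 1}.Finite
  index : ∃ F : Set (K' ≃ₐ[ℂ] K'), F.Finite ∧ ∀ k ∈ 𝒮', IsPullBack y' c' k 1 →
    ∃ f ∈ F, k * f⁻¹ ∈ 𝒦

/-- The condition on the elements of `𝒮'` which act trivially on `N¹(X')`: `FinConj`, or, which
implies it, `AlmostAb` for the order of `G`. -/
def SmallKernel (y' : Fin (N' + 1) → K') (c' : Place ℂ K' → Fin ρ' → ℤ)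
    (𝒮' G : Subgroup (K' ≃ₐ[ℂ] K')) : Prop :=
  FinConj y' c' 𝒮' G ∨ ∃ 𝒦, AlmostAb y' c' 𝒮' 𝒦 (Nat.card G)

/-- `K_X' + Δ'` is the pull back of `K_X + Δ` by the finite map `X' → X`: if the prime divisor `Q` of
`X'` lies over the prime divisor `P` of `X`, with ramification index `e`, then
`1 - Δ' Q = e (1 - Δ P)`. -/
def LogPull (π : K →ₐ[ℂ] K') (y' : Fin (N' + 1) → K') (Δ' : Place ℂ K' → ℝ)
    (Δ : Place ℂ K → ℝ) : Prop :=
  ∀ Q P e, IsPrimeDivisor y' Q → LiesOver π Q P e → 1 - Δ' Q = e * (1 - Δ P)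

/-- The group of the birational self-maps of `X` which are induced by elements of `𝒮'` commuting with
`G`. -/
def induced (π : K →ₐ[ℂ] K') (G 𝒮' : Subgroup (K' ≃ₐ[ℂ] K')) : Subgroup (K ≃ₐ[ℂ] K) where
  carrier := {φ | ∃ φ' ∈ 𝒮', (∀ g ∈ G, φ' * g = g * φ') ∧ ∀ f, φ' (π f) = π (φ f)}
  mul_mem' := by
    rintro a b ⟨a', ha', ha1, ha2⟩ ⟨b', hb', hb1, hb2⟩
    refine ⟨a' * b', 𝒮'.mul_mem ha' hb', fun g hg => ?_, fun f => ?_⟩
    · rw [mul_assoc, hb1 g hg, ← mul_assoc, ha1 g hg, mul_assoc]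
    · rw [AlgEquiv.mul_apply, hb2, ha2]
      rfl
  one_mem' := ⟨1, 𝒮'.one_mem, fun g _ => by rw [one_mul, mul_one], fun f => rfl⟩
  inv_mem' := by
    rintro a ⟨a', ha', ha1, ha2⟩
    refine ⟨a'⁻¹, 𝒮'.inv_mem ha', fun g hg => ?_, fun f => ?_⟩
    · rw [inv_mul_eq_iff_eq_mul, ← mul_assoc, ha1 g hg, mul_assoc, mul_inv_cancel, mul_one]
    · apply a'.injective
      rw [ha2]
      have h1 : a' (a'⁻¹ (π f)) = π f := AlgEquiv.apply_symm_apply a' _
      have h2 : a (a⁻¹ f) = f := AlgEquiv.apply_symm_apply a _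
      rw [h1, h2]

/-- Up to elements which act trivially on `N¹(X)`, the subgroup `ℋ` has finite index in the group `𝒜`
of pseudo-automorphisms of `X`: there is a finite subset `E` of `𝒜` such that every element of `𝒜` has
the same action on `N¹(X)` as a product `e h`, with `e` in `E` and `h` in `ℋ`. -/
def FinIndex (y : Fin (N + 1) → K) (c : Place ℂ K → Fin ρ → ℤ) (ℋ 𝒜 : Subgroup (K ≃ₐ[ℂ] K)) :
    Prop :=
  ∃ E : Set (K ≃ₐ[ℂ] K), E.Finite ∧ (∀ e ∈ E, e ∈ 𝒜) ∧ ∀ ψ ∈ 𝒜, ∃ e ∈ E, ∃ h ∈ ℋ,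
    ∃ T, IsPullBack y c ψ T ∧ IsPullBack y c (e * h) T

/-- The conclusion for pseudo-automorphisms: the elements of `𝒮'` which commute with `G` induce
pseudo-automorphisms of `X`; every group of pseudo-automorphisms of `X` which contains the induced
ones has a rational polyhedral fundamental domain on the cone of the effective classes in the closed
movable cone of `X`; and the induced ones have finite index in the group of all pseudo-automorphisms,
up to elements which act trivially on `N¹(X)`. -/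
structure GoodMov (π : K →ₐ[ℂ] K') (G : Subgroup (K' ≃ₐ[ℂ] K')) (y : Fin (N + 1) → K)
    (c : Place ℂ K → Fin ρ → ℤ) (𝒮' : Subgroup (K' ≃ₐ[ℂ] K')) : Prop where
  le : induced π G 𝒮' ≤ psGroup y
  dom : ∀ 𝒮, induced π G 𝒮' ≤ 𝒮 → 𝒮 ≤ psGroup y → MovDom y c 𝒮
  index : FinIndex y c (induced π G 𝒮') (psGroup y)

/-- The conclusion for automorphisms: the elements of `𝒮'` which commute with `G` induce
automorphisms of `X`; every group of automorphisms of `X` which contains the induced ones has a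
rational polyhedral fundamental domain on the cone of the effective classes in the nef cone of `X`;
and the induced ones have finite index in the group of all automorphisms, up to elements which act
trivially on `N¹(X)`. -/
structure GoodNef (π : K →ₐ[ℂ] K') (G : Subgroup (K' ≃ₐ[ℂ] K')) (y : Fin (N + 1) → K) (n : ℕ)
    (c : Place ℂ K → Fin ρ → ℤ) (𝒮' : Subgroup (K' ≃ₐ[ℂ] K')) : Prop where
  le : induced π G 𝒮' ≤ autGroup y
  dom : ∀ 𝒮, induced π G 𝒮' ≤ 𝒮 → 𝒮 ≤ autGroup y → NefDom y n c 𝒮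
  index : FinIndex y c (induced π G 𝒮') (autGroup y)

end

end Pool.Agent.H85.CQ
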