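import Pool.Agent.H85.CQ.Geo3
import Pool.Agent.H85.CQ.QDefs
import Pool.Agent.H85.CQ.Abs
import Pool.Agent.N110.CC.HRes

/-!
Project CQ (helper85): the assembly.
-/

set_option autoImplicit false
set_option linter.unusedSectionVars false

open FF Pool.Agent.W602.GT Pool.Agent.Y172 Pool.Agent.R887
open Pool.Agent.Y167 (cone)
open Pool.Agent.N110 Pool.Agent.N110.PA Pool.Agent.N110.NV Pool.Agent.N492.PA Pool.Agent.N110.CC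
open Pool.Agent.N165.KM (IntL Sandwich HasFD)

namespace Pool.Agent.H85.CQ

section

variable {K K' : Type} [Field K] [Algebra ℂ K] [Field K'] [Algebra ℂ K'] {N N' n ρ ρ' : ℕ}
  {y : Fin (N + 1) → K} {y' : Fin (N' + 1) → K'} {π : K →ₐ[ℂ] K'}
  {G : Subgroup (K' ≃ₐ[ℂ] K')} {c : Place ℂ K → Fin ρ → ℤ} {c' : Place ℂ K' → Fin ρ' → ℤ}

theorem TE_inv {𝒮 : Subgroup (K ≃ₐ[ℂ] K)} {M : (K ≃ₐ[ℂ] K) → Matrix (Fin ρ) (Fin ρ) ℤ}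
    (hM : Rep y c 𝒮 M) (φ : 𝒮) : hM.TE φ⁻¹ = (hM.TE φ)⁻¹ := by
  apply LinearEquiv.ext
  intro x
  rfl

theorem TE_one {𝒮 : Subgroup (K ≃ₐ[ℂ] K)} {M : (K ≃ₐ[ℂ] K) → Matrix (Fin ρ) (Fin ρ) ℤ}
    (hM : Rep y c 𝒮 M) : hM.TE 1 = 1 := by
  have h := hM.TE_mul 1 1
  rw [mul_one] at h
  exact mul_eq_left.1 h.symm

/-- fundamental domains for groups of pseudo-automorphisms -/
theorem hasFD_iff {𝒮 : Subgroup (K ≃ₐ[ℂ] K)} {M : (K ≃ₐ[ℂ] K) → Matrix (Fin ρ) (Fin ρ) ℤ}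
    (hc : PicardBasis y c) (hM : Rep y c 𝒮 M) {A : Set (Fin ρ → ℝ)} :
    HasFundDomain {T | ∃ φ ∈ 𝒮, IsPullBack y c φ T} A ↔ HasFD (fun f : 𝒮 => hM.TE f⁻¹) A := by
  have hset : ∀ T, (∃ ψ ∈ 𝒮, IsPullBack y c ψ T) ↔ ∃ f : 𝒮, T = hM.TE f⁻¹ := by
    intro T
    constructor
    · rintro ⟨ψ, hψ, hT⟩
      refine ⟨(⟨ψ, hψ⟩ : 𝒮)⁻¹, ?_⟩
      rw [inv_inv]
      exact pull_ext hc hT (hM.isPull ⟨ψ, hψ⟩)
    · rintro ⟨f, rfl⟩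
      exact ⟨_, (f⁻¹).2, hM.isPull f⁻¹⟩
  constructor
  · rintro ⟨S, hS, hU, hdis⟩
    refine ⟨S, hS, ?_, fun f hf => hdis _ ((hset _).2 ⟨f, rfl⟩) hf⟩
    rw [hU]
    ext x
    simp only [Set.mem_iUnion, Set.mem_ofPred_eq]
    constructor
    · rintro ⟨T, hT, hx⟩
      obtain ⟨f, rfl⟩ := (hset T).1 hT
      exact ⟨f, hx⟩
    · rintro ⟨f, hf⟩
      exact ⟨_, (hset _).2 ⟨f, rfl⟩, hf⟩
  · rintro ⟨S, hS, hU, hdis⟩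
    refine ⟨S, hS, ?_, fun T hT hT1 => ?_⟩
    · rw [hU]
      ext x
      simp only [Set.mem_iUnion, Set.mem_ofPred_eq]
      constructor
      · rintro ⟨f, hf⟩
        exact ⟨_, (hset _).2 ⟨f, rfl⟩, hf⟩
      · rintro ⟨T, hT, hx⟩
        obtain ⟨f, rfl⟩ := (hset T).1 hT
        exact ⟨f, hx⟩
    · obtain ⟨f, rfl⟩ := (hset T).1 hT
      exact hdis f hT1

theorem finConj_of_finite (hy' : NormalModel y') (hc' : PicardBasis y' c')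
    {𝒮' : Subgroup (K' ≃ₐ[ℂ] K')} (hps' : ∀ φ ∈ 𝒮', PseudoAut φ y') (hG : G ≤ 𝒮') [Finite G]
    (hk : {k | k ∈ 𝒮' ∧ IsPullBack y' c' k 1}.Finite) : FinConj y' c' 𝒮' G := by
  classical
  obtain ⟨M, hM⟩ := exists_rep hy' hc' hps'
  have hTE : ∀ (φ : 𝒮') T, IsPullBack y' c' φ T → hM.TE φ = T := fun φ T hT =>
    pull_ext hc' (hM.isPull φ) hT
  intro a
  refine ⟨{r | ∀ g, r g ∈ {φ | φ ∈ 𝒮' ∧ IsPullBack y' c' φ (a g)}},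
    Set.Finite.pi' fun g => ?_, fun f hf hfa => ⟨fun g => f⁻¹ * g * f, fun g => ⟨?_, hfa g⟩, 1,
      𝒮'.one_mem, ?_, fun g => by group⟩⟩
  · by_cases hex : ∃ φ₀, φ₀ ∈ 𝒮' ∧ IsPullBack y' c' φ₀ (a g)
    · obtain ⟨φ₀, h1, h2⟩ := hex
      refine Set.Finite.of_finite_image (f := fun φ => φ₀⁻¹ * φ) (hk.subset ?_)
        (fun φ _ ψ _ h => mul_left_cancel h)
      rintro _ ⟨φ, ⟨h3, h4⟩, rfl⟩
      refine ⟨𝒮'.mul_mem (𝒮'.inv_mem h1) h3, ?_⟩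
      have h5 := hM.isPull ((⟨φ₀, h1⟩ : 𝒮')⁻¹ * ⟨φ, h3⟩)
      rw [hM.TE_mul, TE_inv, hTE ⟨φ₀, h1⟩ _ h2, hTE ⟨φ, h3⟩ _ h4, inv_mul_cancel] at h5
      exact h5
    · refine Set.finite_empty.subset ?_
      rintro φ hφ
      exact hex ⟨φ, hφ⟩
  · exact 𝒮'.mul_mem (𝒮'.mul_mem (𝒮'.inv_mem hf) (hG g.2)) hf
  · have h5 := hM.isPull 1
    rw [TE_one] at h5
    exact h5

/-- **Descent of the cone conjectures.** -/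
theorem main (hT : S_TRANS) (hy : NormalModel y) (hy' : NormalModel y')
    (hn : Algebra.trdeg ℂ K = n) (hn' : Algebra.trdeg ℂ K' = n) (hn0 : 0 < n)
    (hc : PicardBasis y c) (hc' : PicardBasis y' c') (hq : IsQuot π y y' G)
    {𝒮' : Subgroup (K' ≃ₐ[ℂ] K')} (hps' : ∀ φ ∈ 𝒮', PseudoAut φ y') (hG : G ≤ 𝒮')
    (hfc : FinConj y' c' 𝒮' G)
    {𝒟 : (Place ℂ K → ℤ) → Prop} {𝒟' : (Place ℂ K' → ℤ) → Prop}
    (hfin : ∀ D, 𝒟 D → {P | IsPrimeDivisor y P ∧ D P ≠ 0}.Finite)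
    (hfin' : ∀ D, 𝒟' D → {P | IsPrimeDivisor y' P ∧ D P ≠ 0}.Finite)
    (hup : ∀ b r, Bel π b r → ∀ D, 𝒟 D → 𝒟' (Cx.plZ b r D))
    (hdn : ∀ [Fintype G], ∀ D' D (m : ℕ), 1 ≤ m → 𝒟' D' →
      {P | IsPrimeDivisor y P ∧ D P ≠ 0}.Finite →
      (∀ Q P e, IsPrimeDivisor y' Q → LiesOver π Q P e →
        (e : ℤ) * D P = m * ∑ g : G, D' (comap (g : K' ≃ₐ[ℂ] K') Q)) → 𝒟 D)
    (hsub' : closure (coneOf {z | ∃ D, 𝒟' D ∧ z = divClass y' c' D}) ⊆ CE y' c')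
    (hint' : (interior (closure (coneOf {z | ∃ D, 𝒟' D ∧ z = divClass y' c' D}))).Nonempty)
    (hpres' : ∀ φ ∈ 𝒮', ∀ D, 𝒟' D → 𝒟' (fun Q => D (comap φ Q)))
    (hfd : HasFundDomain {T | ∃ φ ∈ 𝒮', IsPullBack y' c' φ T}
      (closure (coneOf {z | ∃ D, 𝒟' D ∧ z = divClass y' c' D}) ∩ effCone y' c'))
    {𝒮 : Subgroup (K ≃ₐ[ℂ] K)} (hps : ∀ φ ∈ 𝒮, PseudoAut φ y)
    (hpres : ∀ φ ∈ 𝒮, ∀ D, 𝒟 D → 𝒟 (fun P => D (comap φ P)))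
    (hdesc : ∀ φ' ∈ 𝒮', (∀ g ∈ G, φ' * g = g * φ') → ∀ φ : K ≃ₐ[ℂ] K,
      (∀ f, φ' (π f) = π (φ f)) → φ ∈ 𝒮) :
    Sandwich (closure (coneOf {z | ∃ D, 𝒟 D ∧ z = divClass y c D}))
      (closure (coneOf {z | ∃ D, 𝒟 D ∧ z = divClass y c D}) ∩ effCone y c) ∧
    HasFundDomain {T | ∃ φ ∈ 𝒮, IsPullBack y c φ T}
      (closure (coneOf {z | ∃ D, 𝒟 D ∧ z = divClass y c D}) ∩ effCone y c) := by
  classical
  have := hq.finite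
  have hGf := Fintype.ofFinite G
  obtain ⟨b, r, hb⟩ := exists_bel hy' hn hn' π
  obtain ⟨ι, lam, h1, h2, h3⟩ := hb.exists_iota hy hy' hn hn' hn0 hq.map hc hc'
  obtain ⟨M', hM'⟩ := exists_rep hy' hc' hps'
  obtain ⟨M, hM⟩ := exists_rep hy hc hps
  have h : Cx y y' π b r G c c' 𝒮' M' ι lam := ⟨hy, hy', hc, hc', hb, hq, hT, hG, hM', h1, h2, h3⟩
  obtain ⟨hE1, hE2⟩ := Pool.Agent.N40.CC.leafEFF K' N' ρ' y' hy' c' hc'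
  have hpc := pc_eff hc'.numClasses
  have hι : Function.Injective ι := fun a a' haa => by rw [← h.li a, haa, h.li]
  -- preserved cones
  have hpe' : ∀ φ ∈ 𝒮', ∀ x ∈ effCone y' c', TR (M' φ) x ∈ effCone y' c' := by
    intro φ hφ x hx
    refine coneOf_map (TR (M' φ)) ?_ hx
    rintro _ ⟨P, hP, rfl⟩
    exact ⟨comap φ⁻¹ P, (psaut_iff.1 (hps' _ (𝒮'.inv_mem hφ)) P).2 hP, hM'.TR_rcl hφ hP⟩
  have hpm' : ∀ φ ∈ 𝒮', ∀ x ∈ closure (coneOf {z | ∃ D, 𝒟' D ∧ z = divClass y' c' D}),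
      TR (M' φ) x ∈ closure (coneOf {z | ∃ D, 𝒟' D ∧ z = divClass y' c' D}) := by
    intro φ hφ x hx
    refine closure_coneOf_map (TR (M' φ)) ?_ hx
    rintro _ ⟨D, hD, rfl⟩
    refine ⟨_, hpres' φ hφ D hD, ?_⟩
    exact (Pool.Agent.N608.CC.leafMOV K' N' ρ' y' hy' c' φ (hps' φ hφ) _
      (hM'.isPull ⟨φ, hφ⟩) D (hfin' D hD)).1.symm
  have hpe : ∀ φ ∈ 𝒮, ∀ x ∈ effCone y c, TR (M φ) x ∈ effCone y c := by
    intro φ hφ x hx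
    refine coneOf_map (TR (M φ)) ?_ hx
    rintro _ ⟨P, hP, rfl⟩
    exact ⟨comap φ⁻¹ P, (psaut_iff.1 (hps _ (𝒮.inv_mem hφ)) P).2 hP, hM.TR_rcl hφ hP⟩
  have hpm : ∀ φ ∈ 𝒮, ∀ x ∈ closure (coneOf {z | ∃ D, 𝒟 D ∧ z = divClass y c D}),
      TR (M φ) x ∈ closure (coneOf {z | ∃ D, 𝒟 D ∧ z = divClass y c D}) := by
    intro φ hφ x hx
    refine closure_coneOf_map (TR (M φ)) ?_ hx
    rintro _ ⟨D, hD, rfl⟩
    refine ⟨_, hpres φ hφ D hD, ?_⟩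
    exact (Pool.Agent.N608.CC.leafMOV K N ρ y hy c φ (hps φ hφ) _
      (hM.isPull ⟨φ, hφ⟩) D (hfin D hD)).1.symm
  -- the cones
  have hcone : ∀ x, ι x ∈ closure (coneOf {z | ∃ D, 𝒟' D ∧ z = divClass y' c' D}) ∩
      effCone y' c' ↔ x ∈ closure (coneOf {z | ∃ D, 𝒟 D ∧ z = divClass y c D}) ∩ effCone y c :=
    fun x => and_congr (h.cone_iff hfin hfin' (hup b r hb) hdn) h.eff_iff
  have hpre : ι ⁻¹' (closure (coneOf {z | ∃ D, 𝒟' D ∧ z = divClass y' c' D}) ∩ effCone y' c') =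
      closure (coneOf {z | ∃ D, 𝒟 D ∧ z = divClass y c D}) ∩ effCone y c :=
    Set.ext fun x => hcone x
  have hpre1 : ι ⁻¹' closure (coneOf {z | ∃ D, 𝒟' D ∧ z = divClass y' c' D}) =
      closure (coneOf {z | ∃ D, 𝒟 D ∧ z = divClass y c D}) :=
    Set.ext fun x => h.cone_iff hfin hfin' (hup b r hb) hdn
  have hSand : Sandwich (closure (coneOf {z | ∃ D, 𝒟' D ∧ z = divClass y' c' D}))
      (closure (coneOf {z | ∃ D, 𝒟' D ∧ z = divClass y' c' D}) ∩ effCone y' c') :=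
    { closed := isClosed_closure
      add := fun x hx z hz => closure_coneOf_add hx hz
      smul := fun t ht x hx => closure_coneOf_smul hx ht
      pointed := fun x hx hx' => hpc.pointed x (hsub' hx) (hsub' hx')
      int := hint'
      Nsub := Set.inter_subset_left
      Nint := fun x hx => ⟨interior_subset hx, hE2 (interior_mono hsub' hx)⟩
      Nadd := fun x hx z hz => ⟨closure_coneOf_add hx.1 hz.1, coneOf_add hx.2 hz.2⟩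
      Nsmul := fun t ht x hx => ⟨closure_coneOf_smul hx.1 ht, coneOf_smul hx.2 ht⟩ }
  rw [hasFD_iff hc hM, ← hpre, ← hpre1]
  rw [hasFD_iff hc' hM'] at hfd
  have hfinG : Finite (G.subgroupOf 𝒮') :=
    Finite.of_injective (fun g : G.subgroupOf 𝒮' => (⟨g.1.1, g.2⟩ : G)) (fun g g' hgg =>
      Subtype.ext (Subtype.ext (congrArg (fun g : G => g.1) hgg)))
  refine descent (pull := fun f : 𝒮' => hM'.TE f⁻¹) (q := fun f : 𝒮 => hM.TE f⁻¹) hSand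
    (fun f g => ?_) (fun f x hx => TR_int _ hx) (fun f x hx => ⟨?_, ?_⟩) hfd (G.subgroupOf 𝒮')
    (fun a => ?_) hι (fun x g hg => ?_) (fun x hx hxf => ?_) (fun x hxf => ?_) (fun f g => ?_)
    (fun f x hx => TR_int _ hx) (fun f x hx => ?_) (fun z hz => ?_)
  · show hM'.TE (f * g)⁻¹ = hM'.TE g⁻¹ * hM'.TE f⁻¹
    rw [mul_inv_rev, hM'.TE_mul]
  · exact hpm' _ (f⁻¹).2 x hx.1
  · exact hpe' _ (f⁻¹).2 x hx.2
  · -- finiteness of the conjugates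
    obtain ⟨R, hR, hRf⟩ := hfc fun g => (a ⟨⟨g, hG g.2⟩, g.2⟩)⁻¹
    refine ⟨(fun (r : G → (K' ≃ₐ[ℂ] K')) (g : G.subgroupOf 𝒮') =>
      if hr : r ⟨g.1.1, g.2⟩ ∈ 𝒮' then (⟨_, hr⟩ : 𝒮') else 1) '' R, hR.image _,
      fun f hf => ?_⟩
    obtain ⟨r, hr, k, hk, hk1, hrk⟩ := hRf f f.2 (fun g => by
      have e1 := hf ⟨⟨g, hG g.2⟩, g.2⟩
      have e2 := hM'.isPull (f⁻¹ * ⟨g, hG g.2⟩ * f)
      have e3 : hM'.TE (f⁻¹ * ⟨g, hG g.2⟩ * f) = (a ⟨⟨g, hG g.2⟩, g.2⟩)⁻¹ := by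
        rw [← e1, ← TE_inv, inv_inv]
      rw [e3] at e2
      exact e2)
    refine ⟨_, ⟨r, hr, rfl⟩, ⟨k, hk⟩, ?_, fun g => ?_⟩
    · show hM'.TE (⟨k, hk⟩ : 𝒮')⁻¹ = 1
      rw [TE_inv, pull_ext hc' (hM'.isPull ⟨k, hk⟩) hk1, inv_one]
    · have e1 := hrk ⟨g.1.1, g.2⟩
      have e2 : r ⟨g.1.1, g.2⟩ ∈ 𝒮' := by
        have e3 : r ⟨g.1.1, g.2⟩ = k * ((f : K' ≃ₐ[ℂ] K')⁻¹ * g.1.1 * f) * k⁻¹ := by
          rw [e1]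
          group
        rw [e3]
        exact 𝒮'.mul_mem (𝒮'.mul_mem hk (𝒮'.mul_mem (𝒮'.mul_mem (𝒮'.inv_mem f.2) g.1.2) f.2))
          (𝒮'.inv_mem hk)
      have e4 : (if hr : r ⟨g.1.1, g.2⟩ ∈ 𝒮' then (⟨r ⟨g.1.1, g.2⟩, hr⟩ : 𝒮') else 1) =
          ⟨r ⟨g.1.1, g.2⟩, e2⟩ := dif_pos e2
      apply Subtype.ext
      show (f : K' ≃ₐ[ℂ] K')⁻¹ * g.1.1 * f = k⁻¹ *
        ((if hr : r ⟨g.1.1, g.2⟩ ∈ 𝒮' then (⟨r ⟨g.1.1, g.2⟩, hr⟩ : 𝒮') else 1 : 𝒮') :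
          K' ≃ₐ[ℂ] K') * k
      rw [e4]
      exact e1
  · exact h.fixed (G.inv_mem hg) x
  · -- integral fixed vectors
    obtain ⟨d, hd, z, hz⟩ := h.S_int hx
    refine ⟨d * Fintype.card G, Nat.mul_pos hd Fintype.card_pos, fun i => (z i : ℝ),
      fun i => ⟨z i, rfl⟩, ?_⟩
    rw [hz, h.S_fixed fun g hg => ?_, smul_smul]
    · push_cast
      rfl
    · have e1 := hxf (⟨g, hG hg⟩ : 𝒮')⁻¹ ((G.subgroupOf 𝒮').inv_mem hg)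
      have e2 : hM'.TE ((⟨g, hG hg⟩ : 𝒮')⁻¹)⁻¹ x = x := e1
      rw [inv_inv] at e2
      exact e2
  · obtain ⟨z, hz⟩ := h.S_range x
    rw [h.S_fixed fun g hg => ?_] at hz
    · refine ⟨(Fintype.card G : ℝ)⁻¹ • z, ?_⟩
      rw [map_smul, hz, smul_smul, inv_mul_cancel₀ (Cx.card_pos' (G := G)).ne', one_smul]
    · have e1 := hxf (⟨g, hG hg⟩ : 𝒮')⁻¹ ((G.subgroupOf 𝒮').inv_mem hg)
      have e2 : hM'.TE ((⟨g, hG hg⟩ : 𝒮')⁻¹)⁻¹ x = x := e1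
      rw [inv_inv] at e2
      exact e2
  · show hM.TE (f * g)⁻¹ = hM.TE g⁻¹ * hM.TE f⁻¹
    rw [mul_inv_rev, hM.TE_mul]
  · obtain ⟨e1, e2⟩ := (hcone x).1 hx
    exact (hcone _).2 ⟨hpm _ (f⁻¹).2 x e1, hpe _ (f⁻¹).2 x e2⟩
  · -- descent of the centraliser
    have hcomm : ∀ g ∈ G, (z : K' ≃ₐ[ℂ] K') * g = g * z := fun g hg =>
      congrArg Subtype.val (hz ⟨g, hG hg⟩ hg)
    have hcomm' : ∀ g ∈ G, ((z : K' ≃ₐ[ℂ] K')⁻¹) * g = g * (z : K' ≃ₐ[ℂ] K')⁻¹ := fun g hg => by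
      rw [inv_mul_eq_iff_eq_mul, ← mul_assoc, hcomm g hg, mul_assoc, mul_inv_cancel, mul_one]
    obtain ⟨φ, hφ⟩ := exists_desc hq.fixed (z := (z : K' ≃ₐ[ℂ] K')⁻¹) (fun g hg => by
      rw [inv_inv, hcomm g hg, mul_assoc, mul_inv_cancel, mul_one]
      exact hg) (fun g hg => by
      rw [hcomm' g hg, mul_assoc, mul_inv_cancel, mul_one]
      exact hg)
    have hφ𝒮 : φ ∈ 𝒮 := hdesc _ (𝒮'.inv_mem z.2) hcomm' φ hφ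
    refine ⟨(⟨φ, hφ𝒮⟩ : 𝒮)⁻¹, fun x => ?_⟩
    show ι (hM.TE ((⟨φ, hφ𝒮⟩ : 𝒮)⁻¹)⁻¹ x) = hM'.TE z⁻¹ (ι x)
    rw [inv_inv]
    exact h.equiv (T := TR (M φ)) (𝒮'.inv_mem z.2) hφ (fun L hL => rep_cls hM hφ𝒮 hL) x

end

end Pool.Agent.H85.CQ
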