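import Pool.Agent.H85.CQ.Stm
import Pool.Agent.Y172.Loc3
import Pool.Agent.Y167.Cone

/-!
Project CQ (helper85), leaf INTMOV: the movable cone has a nonempty interior (helper56).

For every prime divisor `P` there is `k` such that `k H` and `k H + P` are movable; so the classes of
the movable divisors span `ℝ ^ ρ`.
-/

set_option autoImplicit false

open FF Pool.Agent.W602.GT Pool.Agent.Y172 Pool.Agent.R887 Pool.Agent.N110 Pool.Agent.N110.CC
open Pool.Agent.Y167 (cone zero_mem_cone mem_cone_self cone_add cone_smul)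

namespace Pool.Agent.H85.CQ

namespace IM

section

variable {K : Type} [Field K] [Algebra ℂ K] {N : ℕ} {y : Fin (N + 1) → K}

/-- two different prime divisors in a chart are separated by a function of the chart -/
theorem sep {l : Fin (N + 1)} {P Q : Place ℂ K} (hP : IsPrimeDivisor y P) (hPc : Centred y l P)
    (hQc : Centred y l Q) (hne : P ≠ Q) :
    ∃ a ∈ chart y l, a ≠ 0 ∧ P.ord a = 0 ∧ 1 ≤ Q.ord a := by
  by_contra hcon
  push Not at hcon
  apply hne
  apply Place.eq_of_le
  intro f hf h0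
  obtain ⟨a, ha, b, hb, hb0, hbo, hab⟩ := (mem_localRing hPc).1 (hP f (Or.inr h0))
  have h1 := hcon b hb hb0 hbo
  have h2 := (Q.reg_iff hb0).1 (hQc.reg b hb)
  have ha0 : a ≠ 0 := by rw [← hab]; exact mul_ne_zero hf hb0
  have h3 := (Q.reg_iff ha0).1 (hQc.reg a ha)
  rw [← hab, Q.ord_mul hf hb0] at h3
  omega

/-- a function of the chart with high orders at finitely many places, which does not vanish along
the prime divisor `P` -/
theorem exists_high' {l : Fin (N + 1)} {P : Place ℂ K} (hP : IsPrimeDivisor y P)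
    (hPc : Centred y l P) {S : Set (Place ℂ K)} (hS : S.Finite) (hSc : ∀ Q ∈ S, Centred y l Q)
    (hne : ∀ Q ∈ S, P ≠ Q) (c : Place ℂ K → ℕ) :
    ∃ s ∈ chart y l, s ≠ 0 ∧ P.ord s = 0 ∧ ∀ Q ∈ S, (c Q : ℤ) ≤ Q.ord s := by
  induction S, hS using Set.Finite.induction_on with
  | empty =>
    exact ⟨1, (chart y l).one_mem, one_ne_zero, P.ord_one, fun Q hQ => absurd hQ (Set.notMem_empty Q)⟩
  | insert _ _ ih =>
    rename_i Q0 S _ _
    obtain ⟨s, hs, hs0, hsP, h⟩ := ih (fun Q hQ => hSc Q (Set.mem_insert_of_mem _ hQ))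
      fun Q hQ => hne Q (Set.mem_insert_of_mem _ hQ)
    have hQc := hSc Q0 (Set.mem_insert _ _)
    obtain ⟨a, ha, ha0, haP, hao⟩ := sep hP hPc hQc (hne Q0 (Set.mem_insert _ _))
    refine ⟨a ^ c Q0 * s, (chart y l).mul_mem ((chart y l).pow_mem ha _) hs,
      mul_ne_zero (pow_ne_zero _ ha0) hs0, ?_, ?_⟩
    · rw [P.ord_mul (pow_ne_zero _ ha0) hs0, P.ord_pow, haP, hsP]
      ring
    · intro Q hQ
      rw [Q.ord_mul (pow_ne_zero _ ha0) hs0, Q.ord_pow]
      rcases Set.mem_insert_iff.1 hQ with rfl | hQ'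
      · have h1 := (Q.reg_iff hs0).1 (hQc.reg s hs)
        nlinarith [Int.natCast_nonneg (c Q)]
      · have h1 := (Q.reg_iff ha0).1 ((hSc Q hQ).reg a ha)
        have h2 := h Q hQ'
        nlinarith [Int.natCast_nonneg (c Q0)]

/-- a function whose only pole in the chart is a simple pole along `P` -/
theorem exists_pole (hy : NormalModel y) {l : Fin (N + 1)} {P : Place ℂ K}
    (hP : IsPrimeDivisor y P) (hPc : Centred y l P) :
    ∃ u : K, u ≠ 0 ∧ P.ord u = -1 ∧
      ∀ Q, IsPrimeDivisor y Q → Centred y l Q → Q ≠ P → 0 ≤ Q.ord u := by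
  obtain ⟨t, ht0, ht⟩ := P.surj
  have hfin : {Q : Place ℂ K | IsPrimeDivisor y Q ∧ Q.ord t ≠ 0 ∧ Centred y l Q ∧ P ≠ Q}.Finite :=
    (finite_ord hy ht0).subset fun Q hQ => ⟨hQ.1, hQ.2.1⟩
  obtain ⟨s, hs, hs0, hsP, hso⟩ := exists_high' hP hPc hfin (fun Q hQ => hQ.2.2.1)
    (fun Q hQ => hQ.2.2.2) (fun Q => (Q.ord t).toNat)
  refine ⟨s / t, div_ne_zero hs0 ht0, ?_, ?_⟩
  · rw [P.ord_div hs0 ht0, hsP, ht]
    norm_num
  · intro Q hQ hQc hQP
    rw [Q.ord_div hs0 ht0]
    have h1 := (Q.reg_iff hs0).1 (hQc.reg s hs)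
    by_cases h0 : Q.ord t = 0
    · rw [h0]; omega
    · have h2 := hso Q ⟨hQ, h0, hQc, hQP.symm⟩
      have h3 := Int.self_le_toNat (Q.ord t)
      omega

/-- the divisor of the hyperplane section `y i = 0` -/
noncomputable def hd (hy : NormalModel y) (i : Fin (N + 1)) (P : Place ℂ K) : ℤ :=
  P.ord (y i / y (Classical.choose (exists_centred hy P)))

theorem hd_eq (hy : NormalModel y) {i : Fin (N + 1)} (hi : y i ≠ 0) {P : Place ℂ K}
    {l : Fin (N + 1)} (hl : Centred y l P) : hd hy i P = P.ord (y i / y l) := by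
  have h1 := Classical.choose_spec (exists_centred hy P)
  have h2 := hl.unit h1
  unfold hd
  rw [P.ord_div h1.1 hl.1] at h2
  rw [P.ord_div hi h1.1, P.ord_div hi hl.1]
  omega

theorem hd_fin (hy : NormalModel y) {i : Fin (N + 1)} (hi : y i ≠ 0) :
    {P : Place ℂ K | IsPrimeDivisor y P ∧ hd hy i P ≠ 0}.Finite := by
  have h1 : ∀ l, {P : Place ℂ K | IsPrimeDivisor y P ∧ y l ≠ 0 ∧ P.ord (y i / y l) ≠ 0}.Finite := by
    intro l
    by_cases hl : y l = 0
    · refine Set.finite_empty.subset ?_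
      rintro P ⟨-, h, -⟩
      exact absurd hl h
    · exact (finite_ord hy (div_ne_zero hi hl)).subset fun P hP => ⟨hP.1, hP.2.2⟩
  refine (Set.finite_iUnion h1).subset ?_
  rintro P ⟨hP, ho⟩
  obtain ⟨l, hl⟩ := exists_centred hy P
  rw [hd_eq hy hi hl] at ho
  exact Set.mem_iUnion.2 ⟨l, hP, hl.1, ho⟩

/-- the section `(y l / y i) ^ k` of `k H` -/
theorem sec_nonneg (hy : NormalModel y) {i l : Fin (N + 1)} (hi : y i ≠ 0) (hl : y l ≠ 0) (k : ℕ)
    (Q : Place ℂ K) : 0 ≤ Q.ord ((y l / y i) ^ k) + k * hd hy i Q := by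
  obtain ⟨l', hl'⟩ := exists_centred hy Q
  have h1 := (Q.reg_iff (div_ne_zero hl hl'.1)).1 (hl'.2 l)
  rw [Q.ord_div hl hl'.1] at h1
  rw [Q.ord_pow, hd_eq hy hi hl', Q.ord_div hl hi, Q.ord_div hi hl'.1]
  nlinarith [Int.natCast_nonneg k]

theorem sec_zero (hy : NormalModel y) {i l : Fin (N + 1)} (hi : y i ≠ 0) (k : ℕ)
    {Q : Place ℂ K} (hl : Centred y l Q) : Q.ord ((y l / y i) ^ k) + k * hd hy i Q = 0 := by
  rw [Q.ord_pow, hd_eq hy hi hl, Q.ord_div hl.1 hi, Q.ord_div hi hl.1]
  ring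

/-- `k H` is movable -/
theorem movable_hd (hy : NormalModel y) {i : Fin (N + 1)} (hi : y i ≠ 0) (k : ℕ) :
    IsMovable y (fun P => k * hd hy i P) := by
  refine ⟨(hd_fin hy hi).subset fun P hP => ⟨hP.1, fun h => hP.2 ?_⟩, fun P hP => ?_⟩
  · show (k : ℤ) * hd hy i P = 0
    rw [h, mul_zero]
  · obtain ⟨l, hl⟩ := exists_centred hy P
    exact ⟨(y l / y i) ^ k, pow_ne_zero _ (div_ne_zero hl.1 hi),
      fun Q _ => sec_nonneg hy hi hl.1 k Q, sec_zero hy hi k hl⟩

open scoped Classical in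
/-- `k H + P` is movable for a large `k` -/
theorem movable_add (hy : NormalModel y) {i : Fin (N + 1)} (hi : y i ≠ 0) {P0 : Place ℂ K}
    (hP0 : IsPrimeDivisor y P0) :
    ∃ k : ℕ, IsMovable y (fun P => k * hd hy i P + if P = P0 then 1 else 0) := by
  obtain ⟨l, hl⟩ := exists_centred hy P0
  obtain ⟨u, hu0, huP, hu⟩ := exists_pole hy hP0 hl
  -- the poles of `u` outside the chart
  have hfin := finite_ord hy hu0
  obtain ⟨k, hk⟩ : ∃ k : ℕ, ∀ Q, IsPrimeDivisor y Q → -Q.ord u ≤ k := by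
    refine ⟨∑ Q ∈ hfin.toFinset, (-Q.ord u).toNat, fun Q hQ => ?_⟩
    by_cases h0 : Q.ord u = 0
    · rw [h0, neg_zero]
      exact Int.natCast_nonneg _
    · have h1 : (-Q.ord u).toNat ≤ ∑ Q ∈ hfin.toFinset, (-Q.ord u).toNat :=
        Finset.single_le_sum (f := fun Q : Place ℂ K => (-Q.ord u).toNat) (fun _ _ => Nat.zero_le _)
          ((Set.Finite.mem_toFinset _).2 ⟨hQ, h0⟩)
      have h2 := Int.self_le_toNat (-Q.ord u)
      exact h2.trans (by exact_mod_cast h1)
  refine ⟨k, ?_, fun P hP => ?_⟩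
  · refine ((hd_fin hy hi).union (Set.finite_singleton P0)).subset ?_
    rintro P ⟨hP, h1⟩
    by_cases h2 : P = P0
    · exact Or.inr h2
    · refine Or.inl ⟨hP, fun h3 => h1 ?_⟩
      show (k : ℤ) * hd hy i P + (if P = P0 then 1 else 0) = 0
      rw [h3, if_neg h2]
      ring
  · by_cases h2 : P = P0
    · subst h2
      refine ⟨u * (y l / y i) ^ k, mul_ne_zero hu0 (pow_ne_zero _ (div_ne_zero hl.1 hi)), ?_, ?_⟩
      · intro Q hQ
        show 0 ≤ Q.ord (u * (y l / y i) ^ k) + (k * hd hy i Q + if Q = P then 1 else 0)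
        rw [Q.ord_mul hu0 (pow_ne_zero _ (div_ne_zero hl.1 hi))]
        by_cases hQl : Centred y l Q
        · have h3 := sec_zero hy hi k hQl
          by_cases h4 : Q = P
          · rw [if_pos h4, h4, huP]
            rw [h4] at h3
            linarith
          · rw [if_neg h4]
            have h5 := hu Q hQ hQl h4
            linarith
        · obtain ⟨l', hl'⟩ := exists_centred hy Q
          have h3 : 1 ≤ Q.ord (y l / y l') := by
            have h4 := (Q.reg_iff (div_ne_zero hl.1 hl'.1)).1 (hl'.2 l)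
            by_contra h5
            have h6 : Q.ord (y l / y l') = 0 := by omega
            apply hQl
            refine ⟨hl.1, fun j => ?_⟩
            by_cases hj : y j = 0
            · rw [hj, zero_div]; exact Q.reg_zero
            · rw [Q.reg_iff (div_ne_zero hj hl.1), Q.ord_div hj hl.1]
              have h7 := (Q.reg_iff (div_ne_zero hj hl'.1)).1 (hl'.2 j)
              rw [Q.ord_div hj hl'.1] at h7
              rw [Q.ord_div hl.1 hl'.1] at h6
              omega
          have h4 : Q.ord ((y l / y i) ^ k) + k * hd hy i Q = k * Q.ord (y l / y l') := by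
            rw [Q.ord_pow, hd_eq hy hi hl', Q.ord_div hl.1 hi, Q.ord_div hi hl'.1,
              Q.ord_div hl.1 hl'.1]
            ring
          have h5 := hk Q hQ
          have h6 : (k : ℤ) ≤ k * Q.ord (y l / y l') := by
            nlinarith [Int.natCast_nonneg k]
          have h7 : (0 : ℤ) ≤ if Q = P then 1 else 0 := by split_ifs <;> norm_num
          linarith
      · show P.ord (u * (y l / y i) ^ k) + (k * hd hy i P + if P = P then 1 else 0) = 0
        rw [P.ord_mul hu0 (pow_ne_zero _ (div_ne_zero hl.1 hi)), if_pos rfl, huP]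
        have h3 := sec_zero hy hi k hl
        linarith
    · obtain ⟨l1, hl1⟩ := exists_centred hy P
      refine ⟨(y l1 / y i) ^ k, pow_ne_zero _ (div_ne_zero hl1.1 hi), fun Q _ => ?_, ?_⟩
      · have h3 := sec_nonneg hy hi hl1.1 k Q
        have h7 : (0 : ℤ) ≤ if Q = P0 then 1 else 0 := by split_ifs <;> norm_num
        show 0 ≤ Q.ord ((y l1 / y i) ^ k) + (k * hd hy i Q + if Q = P0 then 1 else 0)
        linarith
      · show P.ord ((y l1 / y i) ^ k) + (k * hd hy i P + if P = P0 then 1 else 0) = 0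
        rw [if_neg h2, add_zero]
        exact sec_zero hy hi k hl1

variable {ρ : ℕ} {c : Place ℂ K → Fin ρ → ℤ}

open scoped Classical in
theorem divClass_single {D : Place ℂ K → ℤ}
    (hD : {P | IsPrimeDivisor y P ∧ D P ≠ 0}.Finite) {P0 : Place ℂ K} (hP0 : IsPrimeDivisor y P0) :
    divClass y c (fun P => D P + if P = P0 then 1 else 0) = divClass y c D + rcl c P0 := by
  unfold divClass
  have h1 : ∀ P : Place ℂ K, (((D P + if P = P0 then 1 else 0 : ℤ)) : ℝ) • rcl c P =
      (D P : ℝ) • rcl c P + if P = P0 then rcl c P else 0 := by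
    intro P
    split_ifs with h
    · rw [Int.cast_add, add_smul, Int.cast_one, one_smul]
    · rw [add_zero, add_zero]
  simp only [h1]
  rw [finsum_mem_add_distrib']
  · congr 1
    rw [finsum_mem_def, finsum_eq_single _ P0]
    · rw [Set.indicator_of_mem (show P0 ∈ {P | IsPrimeDivisor y P} from hP0), if_pos rfl]
    · intro P hP
      rw [Set.indicator_apply, if_neg hP]
      split_ifs <;> rfl
  · refine hD.subset ?_
    rintro P ⟨hP, h2⟩
    refine ⟨hP, fun h3 => h2 ?_⟩
    show (D P : ℝ) • rcl c P = 0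
    rw [h3, Int.cast_zero, zero_smul]
  · refine (Set.finite_singleton P0).subset ?_
    rintro P ⟨_, h2⟩
    by_contra h3
    exact h2 (if_neg h3)

end

end IM

open IM in
theorem leafINTMOV : S_INTMOV := by
  classical
  intro K _ _ N n ρ y hy _ _ c hc
  obtain ⟨i, hi⟩ := hy.ne
  obtain ⟨A, hA⟩ : ∃ A : Set (Fin ρ → ℝ), A = {z | ∃ D, IsMovable y D ∧ z = divClass y c D} :=
    ⟨_, rfl⟩
  have h0 : (0 : Fin ρ → ℝ) ∈ coneOf A := ⟨∅, by simp, zero_mem_cone _⟩
  have hself : ∀ x ∈ A, x ∈ coneOf A := fun x hx =>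
    ⟨{x}, by simpa using hx, mem_cone_self (Finset.mem_singleton_self x)⟩
  have hmono : ∀ {S S' : Finset (Fin ρ → ℝ)}, S ⊆ S' → cone S ⊆ cone S' := by
    rintro S S' hS x ⟨t, ht, rfl⟩
    refine ⟨fun a => if a ∈ S then t a else 0, fun a => ?_, ?_⟩
    · show 0 ≤ if a ∈ S then t a else 0
      split_ifs
      · exact ht a
      · exact le_rfl
    · rw [← Finset.sum_subset hS]
      · exact Finset.sum_congr rfl fun a ha => by simp [ha]
      · intro a _ ha
        simp [ha]
  have hadd : ∀ x ∈ coneOf A, ∀ z ∈ coneOf A, x + z ∈ coneOf A := by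
    rintro x ⟨S, hS, hx⟩ z ⟨S', hS', hz⟩
    refine ⟨S ∪ S', ?_, cone_add (hmono Finset.subset_union_left hx)
      (hmono Finset.subset_union_right hz)⟩
    rw [Finset.coe_union]
    exact Set.union_subset hS hS'
  have hsmul : ∀ x ∈ coneOf A, ∀ t : ℝ, 0 ≤ t → t • x ∈ coneOf A := by
    rintro x ⟨S, hS, hx⟩ t ht
    exact ⟨S, hS, cone_smul hx ht⟩
  have hconv : Convex ℝ (coneOf A) := by
    intro x hx z hz a b ha hb _
    exact hadd _ (hsmul x hx a ha) _ (hsmul z hz b hb)
  -- the span of the classes of the movable divisors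
  have hP : ∀ P, IsPrimeDivisor y P → rcl c P ∈ Submodule.span ℝ A := by
    intro P hP
    obtain ⟨k, hk⟩ := movable_add hy hi hP
    have h1 := movable_hd hy hi k
    have h2 := divClass_single (c := c) h1.1 hP
    have h3 : rcl c P = divClass y c (fun Q => k * hd hy i Q + if Q = P then 1 else 0) -
        divClass y c (fun Q => k * hd hy i Q) := by
      rw [h2, add_sub_cancel_left]
    rw [h3]
    refine Submodule.sub_mem _ (Submodule.subset_span ?_) (Submodule.subset_span ?_)
    · rw [hA]; exact ⟨_, hk, rfl⟩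
    · rw [hA]; exact ⟨_, h1, rfl⟩
  have hint : ∀ z : Fin ρ → ℤ, (fun j => (z j : ℝ)) ∈ Submodule.span ℝ A := by
    intro z
    have hz := hc.generate z
    induction hz using AddSubgroup.closure_induction with
    | mem x hx =>
      obtain ⟨P, hP1, rfl⟩ := hx
      exact hP P hP1
    | zero =>
      have : (fun i => (((0 : Fin ρ → ℤ) i : ℤ) : ℝ)) = 0 := by
        funext i; simp
      rw [this]
      exact Submodule.zero_mem _
    | add x z _ _ h1 h2 =>
      have : (fun i => (((x + z : Fin ρ → ℤ) i : ℤ) : ℝ)) =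
          (fun i => (x i : ℝ)) + fun i => (z i : ℝ) := by
        funext i; simp
      rw [this]
      exact Submodule.add_mem _ h1 h2
    | neg x _ h1 =>
      have : (fun i => (((-x : Fin ρ → ℤ) i : ℤ) : ℝ)) = - fun i => (x i : ℝ) := by
        funext i; simp
      rw [this]
      exact Submodule.neg_mem _ h1
  have hspan : Submodule.span ℝ A = ⊤ := by
    rw [eq_top_iff]
    intro x _
    have e : x = ∑ j, x j • (Pi.single j (1 : ℝ) : Fin ρ → ℝ) := by
      funext k
      simp [Finset.sum_apply, Pi.single_apply]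
    rw [e]
    refine Submodule.sum_mem _ fun j _ => Submodule.smul_mem _ _ ?_
    have h1 := hint (Pi.single j 1)
    have e2 : (fun i => (((Pi.single j 1 : Fin ρ → ℤ) i : ℤ) : ℝ)) = Pi.single j (1 : ℝ) := by
      funext k
      by_cases hk : k = j
      · subst hk; simp
      · simp [hk]
    rwa [e2] at h1
  have haff : affineSpan ℝ (coneOf A) = ⊤ := by
    rw [AffineSubspace.affineSpan_eq_top_iff_vectorSpan_eq_top_of_nonempty ℝ _ _ ⟨0, h0⟩, eq_top_iff,
      ← hspan, Submodule.span_le]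
    intro a ha
    have h1 := vsub_mem_vectorSpan ℝ (hself a ha) h0
    rwa [vsub_eq_sub, sub_zero] at h1
  have hin := hconv.interior_nonempty_iff_affineSpan_eq_top.2 haff
  refine hin.mono ?_
  unfold movCone
  rw [← hA]
  exact interior_mono subset_closure

end Pool.Agent.H85.CQ
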