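import Pool.Agent.H85.CQ.Stm2
import Pool.Agent.H85.CQ.INTMOV

/-!
Project CQ (helper85), leaf INTNEF: the nef cone of a `ℚ`-factorial variety has a nonempty interior
(helper13).

For every prime divisor `P` there are `m ≥ 1` and `k` such that `k H` and `k H + m P` are base point
free (Serre); so the classes of the base point free divisors span `ℝ ^ ρ`.
-/

set_option autoImplicit false

open FF Pool.Agent.W602.GT Pool.Agent.Y172 Pool.Agent.R887 Pool.Agent.N110 Pool.Agent.N110.CC
open Pool.Agent.Y167 (cone zero_mem_cone mem_cone_self cone_add cone_smul)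

namespace Pool.Agent.H85.CQ

namespace IN

open IM

section

variable {K : Type} [Field K] [Algebra ℂ K] {N : ℕ} {y : Fin (N + 1) → K}

/-- a function of the chart which vanishes along the prime divisor `Q` and not at the centre of `R`,
if the centre of `R` is not on `Q` -/
theorem sepT {l : Fin (N + 1)} {R Q : Place ℂ K} (hRc : Centred y l R)
    (hQc : Centred y l Q) (hne : ¬ Through y Q R) :
    ∃ a ∈ chart y l, a ≠ 0 ∧ R.ord a = 0 ∧ 1 ≤ Q.ord a := by
  unfold Through at hne
  push Not at hne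
  obtain ⟨f, hf, hfQ⟩ := hne
  obtain ⟨a, ha, b, hb, hb0, hbo, hab⟩ := (mem_localRing hRc).1 hf
  refine ⟨b, hb, hb0, hbo, ?_⟩
  by_contra hcon
  apply hfQ
  have h2 := (Q.reg_iff hb0).1 (hQc.reg b hb)
  by_cases hf0 : f = 0
  · exact Or.inl hf0
  have ha0 : a ≠ 0 := by rw [← hab]; exact mul_ne_zero hf0 hb0
  have h3 := (Q.reg_iff ha0).1 (hQc.reg a ha)
  rw [← hab, Q.ord_mul hf0 hb0] at h3
  right
  omega

/-- a function of the chart with high orders along finitely many prime divisors, which does not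
vanish at the centre of `R` -/
theorem exists_highT {l : Fin (N + 1)} {R : Place ℂ K}
    (hRc : Centred y l R) {S : Set (Place ℂ K)} (hS : S.Finite) (hSc : ∀ Q ∈ S, Centred y l Q)
    (hne : ∀ Q ∈ S, ¬ Through y Q R) (c : Place ℂ K → ℕ) :
    ∃ s ∈ chart y l, s ≠ 0 ∧ R.ord s = 0 ∧ ∀ Q ∈ S, (c Q : ℤ) ≤ Q.ord s := by
  induction S, hS using Set.Finite.induction_on with
  | empty =>
    exact ⟨1, (chart y l).one_mem, one_ne_zero, R.ord_one, fun Q hQ => absurd hQ (Set.notMem_empty Q)⟩
  | insert _ _ ih =>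
    rename_i Q0 S _ _
    obtain ⟨s, hs, hs0, hsP, h⟩ := ih (fun Q hQ => hSc Q (Set.mem_insert_of_mem _ hQ))
      fun Q hQ => hne Q (Set.mem_insert_of_mem _ hQ)
    have hQc := hSc Q0 (Set.mem_insert _ _)
    obtain ⟨a, ha, ha0, haP, hao⟩ := sepT hRc hQc (hne Q0 (Set.mem_insert _ _))
    refine ⟨a ^ c Q0 * s, (chart y l).mul_mem ((chart y l).pow_mem ha _) hs,
      mul_ne_zero (pow_ne_zero _ ha0) hs0, ?_, ?_⟩
    · rw [R.ord_mul (pow_ne_zero _ ha0) hs0, R.ord_pow, haP, hsP]
      ring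
    · intro Q hQ
      rw [Q.ord_mul (pow_ne_zero _ ha0) hs0, Q.ord_pow]
      rcases Set.mem_insert_iff.1 hQ with rfl | hQ'
      · have h1 := (Q.reg_iff hs0).1 (hQc.reg s hs)
        nlinarith [Int.natCast_nonneg (c Q)]
      · have h1 := (Q.reg_iff ha0).1 ((hSc Q hQ).reg a ha)
        have h2 := h Q hQ'
        nlinarith [Int.natCast_nonneg (c Q0)]

/-- a unit at the centre of `R` is a unit along the prime divisors through it -/
theorem ord_through {l : Fin (N + 1)} {R P : Place ℂ K} (hRc : Centred y l R)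
    (hP : Through y P R) {b : K} (hb : b ∈ chart y l) (hb0 : b ≠ 0) (hbo : R.ord b = 0) :
    P.ord b = 0 := by
  have h1 : b⁻¹ ∈ localRing y R := (mem_localRing hRc).2
    ⟨1, (chart y l).one_mem, b, hb, hb0, hbo, inv_mul_cancel₀ hb0⟩
  have h2 := (P.reg_iff (inv_ne_zero hb0)).1 (hP _ h1)
  have h3 := (P.reg_iff hb0).1 (hP _ (chart_localRing hRc hb))
  rw [P.ord_inv] at h2
  omega

/-- `h` is a section of `D` on the chart -/
def Sec (y : Fin (N + 1) → K) (l : Fin (N + 1)) (D : Place ℂ K → ℤ) (h : K) : Prop :=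
  h ≠ 0 ∧ ∀ Q, IsPrimeDivisor y Q → Centred y l Q → 0 ≤ Q.ord h + D Q

/-- the local generators of the divisor on the open set `s ≠ 0` of the chart -/
theorem local_gen (hy : NormalModel y) {D : Place ℂ K → ℤ}
    (hD : {P | IsPrimeDivisor y P ∧ D P ≠ 0}.Finite)
    (hC : ∀ R : Place ℂ K, ∃ f : K, f ≠ 0 ∧ ∀ Q, IsPrimeDivisor y Q → Through y Q R → Q.ord f = D Q)
    {l : Fin (N + 1)} {R : Place ℂ K} (hRc : Centred y l R) :
    ∃ s ∈ chart y l, s ≠ 0 ∧ R.ord s = 0 ∧ ∃ h, Sec y l D h ∧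
      ∀ P, IsPrimeDivisor y P → Centred y l P → P.ord s = 0 → P.ord h + D P = 0 := by
  obtain ⟨f, hf0, hf⟩ := hC R
  have hfin : {Q : Place ℂ K | IsPrimeDivisor y Q ∧ Centred y l Q ∧ ¬ Through y Q R ∧
      Q.ord f ≠ D Q}.Finite := by
    refine ((finite_ord hy hf0).union hD).subset ?_
    rintro Q ⟨hQ, -, -, hQ2⟩
    by_cases h1 : Q.ord f = 0
    · right
      refine ⟨hQ, fun h2 => hQ2 ?_⟩
      rw [h1, h2]
    · exact Or.inl ⟨hQ, h1⟩
  obtain ⟨s, hs, hs0, hsR, hso⟩ := exists_highT hRc hfin (fun Q hQ => hQ.2.1)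
    (fun Q hQ => hQ.2.2.1) (fun Q => (Q.ord f - D Q).toNat + 1)
  refine ⟨s, hs, hs0, hsR, s / f, ⟨div_ne_zero hs0 hf0, fun Q hQ hQc => ?_⟩,
    fun P hP hPc hPs => ?_⟩
  · rw [Q.ord_div hs0 hf0]
    have h1 := (Q.reg_iff hs0).1 (hQc.reg s hs)
    by_cases h2 : Q.ord f = D Q
    · rw [h2]; linarith
    · have h3 : ¬ Through y Q R := fun h => h2 (hf Q hQ h)
      have h4 := hso Q ⟨hQ, hQc, h3, h2⟩
      have h5 := Int.self_le_toNat (Q.ord f - D Q)
      push_cast at h4
      linarith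
  · rw [P.ord_div hs0 hf0, hPs]
    by_cases h2 : P.ord f = D P
    · rw [h2]; ring
    · exfalso
      have h3 : ¬ Through y P R := fun h => h2 (hf P hP h)
      have h4 := hso P ⟨hP, hPc, h3, h2⟩
      rw [hPs] at h4
      push_cast at h4
      have h5 := Int.natCast_nonneg (P.ord f - D P).toNat
      linarith

/-- finitely many sections on the chart generate the divisor there -/
theorem chart_gen (hy : NormalModel y) {D : Place ℂ K → ℤ}
    (hD : {P | IsPrimeDivisor y P ∧ D P ≠ 0}.Finite)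
    (hC : ∀ R : Place ℂ K, ∃ f : K, f ≠ 0 ∧ ∀ Q, IsPrimeDivisor y Q → Through y Q R → Q.ord f = D Q)
    (l : Fin (N + 1)) :
    ∃ T : Set K, T.Finite ∧ (∀ h ∈ T, Sec y l D h) ∧
      ∀ R : Place ℂ K, Centred y l R → ∃ h ∈ T, ∀ P, IsPrimeDivisor y P → Through y P R →
        P.ord h + D P = 0 := by
  classical
  let S : Set (chart y l) := {s | (s : K) ≠ 0 ∧ ∃ h, Sec y l D h ∧
      ∀ P, IsPrimeDivisor y P → Centred y l P → P.ord (s : K) = 0 → P.ord h + D P = 0}
  have hfg : (Submodule.span (chart y l) S).FG := IsNoetherian.noetherian _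
  obtain ⟨s', hs', hsp⟩ := (Submodule.fg_span_iff_fg_span_finset_subset S).1 hfg
  choose! H hH1 hH2 using fun s (hs : s ∈ S) => hs.2
  refine ⟨H '' (s' : Set (chart y l)), (s'.finite_toSet).image H, ?_, fun R hR => ?_⟩
  · rintro _ ⟨s, hs, rfl⟩
    exact hH1 s (hs' hs)
  · obtain ⟨s, hs, hs0, hsR, hh⟩ := local_gen hy hD hC hR
    have h1 : (⟨s, hs⟩ : chart y l) ∈ Submodule.span (chart y l) S :=
      Submodule.subset_span ⟨hs0, hh⟩
    have h2 : ∃ t ∈ s', t ∉ centre (chart y l) R hR.reg := by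
      by_contra hcon
      push Not at hcon
      have h3 : Submodule.span (chart y l) (s' : Set (chart y l)) ≤
          centre (chart y l) R hR.reg := Submodule.span_le.2 hcon
      rw [hsp] at h1
      have h4 := mem_centre.1 (h3 h1)
      rcases h4 with h4 | h4
      · exact hs0 (congrArg Subtype.val h4)
      · change 0 < R.ord s at h4
        omega
    obtain ⟨t, ht, htc⟩ := h2
    rw [notMem_centre] at htc
    refine ⟨H t, ⟨t, ht, rfl⟩, fun P hP hPR => ?_⟩
    have h5 : (t : K) ≠ 0 := fun h => htc.1 (Subtype.ext h)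
    exact hH2 t (hs' ht) P hP (hPR.centred hR) (ord_through hR hPR t.2 h5 htc.2)

/-- a uniform bound for the poles -/
theorem exists_bound (hy : NormalModel y) {T : Set K} (hT : T.Finite) (hT0 : ∀ h ∈ T, h ≠ 0) :
    ∃ k : ℕ, ∀ h ∈ T, ∀ Q, IsPrimeDivisor y Q → -Q.ord h ≤ k := by
  induction T, hT using Set.Finite.induction_on with
  | empty => exact ⟨0, fun h hh => absurd hh (Set.notMem_empty h)⟩
  | insert _ _ ih =>
    rename_i u T _ _
    obtain ⟨k, hk⟩ := ih fun h hh => hT0 h (Set.mem_insert_of_mem _ hh)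
    have hu0 : u ≠ 0 := hT0 u (Set.mem_insert _ _)
    have hfin := finite_ord hy hu0
    obtain ⟨k', hk'⟩ : ∃ k : ℕ, ∀ Q, IsPrimeDivisor y Q → -Q.ord u ≤ k := by
      refine ⟨∑ Q ∈ hfin.toFinset, (-Q.ord u).toNat, fun Q hQ => ?_⟩
      by_cases h0 : Q.ord u = 0
      · rw [h0, neg_zero]
        exact Int.natCast_nonneg _
      · have h1 : (-Q.ord u).toNat ≤ ∑ Q ∈ hfin.toFinset, (-Q.ord u).toNat :=
          Finset.single_le_sum (f := fun Q : Place ℂ K => (-Q.ord u).toNat)
            (fun _ _ => Nat.zero_le _) ((Set.Finite.mem_toFinset _).2 ⟨hQ, h0⟩)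
        have h2 := Int.self_le_toNat (-Q.ord u)
        exact h2.trans (by exact_mod_cast h1)
    refine ⟨k + k', fun h hh Q hQ => ?_⟩
    rcases Set.mem_insert_iff.1 hh with rfl | hh'
    · have := hk' Q hQ
      push_cast
      have := Int.natCast_nonneg k
      linarith
    · have := hk h hh' Q hQ
      push_cast
      have := Int.natCast_nonneg k'
      linarith

/-- `k H` is base point free -/
theorem free_hd (hy : NormalModel y) (n : ℕ) {i : Fin (N + 1)} (hi : y i ≠ 0) (k : ℕ) :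
    IsFree y n (fun P => k * hd hy i P) := by
  refine ⟨(hd_fin hy hi).subset fun P hP => ⟨hP.1, fun h => hP.2 ?_⟩, fun R _ => ?_⟩
  · show (k : ℤ) * hd hy i P = 0
    rw [h, mul_zero]
  · obtain ⟨l, hl⟩ := exists_centred hy R
    exact ⟨(y l / y i) ^ k, pow_ne_zero _ (div_ne_zero hl.1 hi),
      fun Q _ => sec_nonneg hy hi hl.1 k Q, fun P _ hP => sec_zero hy hi k (hP.centred hl)⟩

/-- **Serre.** `k H + D` is base point free for a large `k` if `D ≥ 0` is a Cartier divisor. -/
theorem free_add (hy : NormalModel y) (n : ℕ) {i : Fin (N + 1)} (hi : y i ≠ 0)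
    {D : Place ℂ K → ℤ} (hD0 : ∀ P, 0 ≤ D P) (hD : {P | IsPrimeDivisor y P ∧ D P ≠ 0}.Finite)
    (hC : ∀ R : Place ℂ K, ∃ f : K, f ≠ 0 ∧
      ∀ Q, IsPrimeDivisor y Q → Through y Q R → Q.ord f = D Q) :
    ∃ k : ℕ, IsFree y n (fun P => k * hd hy i P + D P) := by
  choose T hTf hTs hTR using chart_gen hy hD hC
  obtain ⟨k, hk⟩ := exists_bound hy (T := ⋃ l, T l) (Set.finite_iUnion hTf) (by
    intro h hh
    obtain ⟨l, hl⟩ := Set.mem_iUnion.1 hh
    exact (hTs l h hl).1)
  refine ⟨k, ?_, fun R _ => ?_⟩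
  · refine ((hd_fin hy hi).union hD).subset ?_
    rintro P ⟨hP, h1⟩
    by_cases h2 : D P = 0
    · refine Or.inl ⟨hP, fun h3 => h1 ?_⟩
      show (k : ℤ) * hd hy i P + D P = 0
      rw [h3, h2]
      ring
    · exact Or.inr ⟨hP, h2⟩
  · obtain ⟨l, hl⟩ := exists_centred hy R
    obtain ⟨h, hhT, hhR⟩ := hTR l R hl
    have hh := hTs l h hhT
    have hkh := hk h (Set.mem_iUnion.2 ⟨l, hhT⟩)
    have hu0 : (y l / y i) ^ k ≠ 0 := pow_ne_zero _ (div_ne_zero hl.1 hi)
    refine ⟨h * (y l / y i) ^ k, mul_ne_zero hh.1 hu0, fun Q hQ => ?_, fun P hP hPR => ?_⟩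
    · show 0 ≤ Q.ord (h * (y l / y i) ^ k) + (k * hd hy i Q + D Q)
      rw [Q.ord_mul hh.1 hu0]
      by_cases hQl : Centred y l Q
      · have h3 := sec_zero hy hi k hQl
        have h5 := hh.2 Q hQ hQl
        linarith
      · obtain ⟨l', hl'⟩ := exists_centred hy Q
        have h3 : 1 ≤ Q.ord (y l / y l') := by
          have h4 := (Q.reg_iff (div_ne_zero hl.1 hl'.1)).1 (hl'.2 l)
          by_contra h5
          have h6 : Q.ord (y l / y l') = 0 := by omega
          apply hQl
          refine ⟨hl.1, fun j => ?_⟩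
          by_cases hj : y j = 0
          · rw [hj, zero_div]; exact Q.reg_zero
          · rw [Q.reg_iff (div_ne_zero hj hl.1), Q.ord_div hj hl.1]
            have h7 := (Q.reg_iff (div_ne_zero hj hl'.1)).1 (hl'.2 j)
            rw [Q.ord_div hj hl'.1] at h7
            rw [Q.ord_div hl.1 hl'.1] at h6
            omega
        have h4 : Q.ord ((y l / y i) ^ k) + k * hd hy i Q = k * Q.ord (y l / y l') := by
          rw [Q.ord_pow, hd_eq hy hi hl', Q.ord_div hl.1 hi, Q.ord_div hi hl'.1,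
            Q.ord_div hl.1 hl'.1]
          ring
        have h5 := hkh Q hQ
        have h6 : (k : ℤ) ≤ k * Q.ord (y l / y l') := by
          nlinarith [Int.natCast_nonneg k]
        have h7 := hD0 Q
        linarith
    · show P.ord (h * (y l / y i) ^ k) + (k * hd hy i P + D P) = 0
      rw [P.ord_mul hh.1 hu0]
      have h3 := sec_zero hy hi k (hPR.centred hl)
      have h4 := hhR P hP hPR
      linarith

variable {ρ : ℕ} {c : Place ℂ K → Fin ρ → ℤ}

open scoped Classical in
theorem divClass_mul {D : Place ℂ K → ℤ}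
    (hD : {P | IsPrimeDivisor y P ∧ D P ≠ 0}.Finite) {P0 : Place ℂ K} (hP0 : IsPrimeDivisor y P0)
    (m : ℕ) :
    divClass y c (fun P => D P + if P = P0 then (m : ℤ) else 0) =
      divClass y c D + (m : ℝ) • rcl c P0 := by
  unfold divClass
  have h1 : ∀ P : Place ℂ K, (((D P + if P = P0 then (m : ℤ) else 0 : ℤ)) : ℝ) • rcl c P =
      (D P : ℝ) • rcl c P + if P = P0 then (m : ℝ) • rcl c P else 0 := by
    intro P
    split_ifs with h
    · rw [Int.cast_add, add_smul, Int.cast_natCast]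
    · rw [add_zero, add_zero]
  simp only [h1]
  rw [finsum_mem_add_distrib']
  · congr 1
    rw [finsum_mem_def, finsum_eq_single _ P0]
    · rw [Set.indicator_of_mem (show P0 ∈ {P | IsPrimeDivisor y P} from hP0), if_pos rfl]
    · intro P hP
      rw [Set.indicator_apply, if_neg hP]
      split_ifs <;> rfl
  · refine hD.subset ?_
    rintro P ⟨hP, h2⟩
    refine ⟨hP, fun h3 => h2 ?_⟩
    show (D P : ℝ) • rcl c P = 0
    rw [h3, Int.cast_zero, zero_smul]
  · refine (Set.finite_singleton P0).subset ?_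
    rintro P ⟨_, h2⟩
    by_contra h3
    exact h2 (if_neg h3)

end

end IN

open IM IN in
theorem leafINTNEF : S_INTNEF := by
  classical
  intro K _ _ N n ρ y hy _ _ hQF c hc
  obtain ⟨i, hi⟩ := hy.ne
  obtain ⟨A, hA⟩ : ∃ A : Set (Fin ρ → ℝ), A = {z | ∃ D, IsFree y n D ∧ z = divClass y c D} :=
    ⟨_, rfl⟩
  have h0 : (0 : Fin ρ → ℝ) ∈ coneOf A := ⟨∅, by simp, zero_mem_cone _⟩
  have hself : ∀ x ∈ A, x ∈ coneOf A := fun x hx =>
    ⟨{x}, by simpa using hx, mem_cone_self (Finset.mem_singleton_self x)⟩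
  have hmono : ∀ {S S' : Finset (Fin ρ → ℝ)}, S ⊆ S' → cone S ⊆ cone S' := by
    rintro S S' hS x ⟨t, ht, rfl⟩
    refine ⟨fun a => if a ∈ S then t a else 0, fun a => ?_, ?_⟩
    · show 0 ≤ if a ∈ S then t a else 0
      split_ifs
      · exact ht a
      · exact le_rfl
    · rw [← Finset.sum_subset hS]
      · exact Finset.sum_congr rfl fun a ha => by simp [ha]
      · intro a _ ha
        simp [ha]
  have hadd : ∀ x ∈ coneOf A, ∀ z ∈ coneOf A, x + z ∈ coneOf A := by
    rintro x ⟨S, hS, hx⟩ z ⟨S', hS', hz⟩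
    refine ⟨S ∪ S', ?_, cone_add (hmono Finset.subset_union_left hx)
      (hmono Finset.subset_union_right hz)⟩
    rw [Finset.coe_union]
    exact Set.union_subset hS hS'
  have hsmul : ∀ x ∈ coneOf A, ∀ t : ℝ, 0 ≤ t → t • x ∈ coneOf A := by
    rintro x ⟨S, hS, hx⟩ t ht
    exact ⟨S, hS, cone_smul hx ht⟩
  have hconv : Convex ℝ (coneOf A) := by
    intro x hx z hz a b ha hb _
    exact hadd _ (hsmul x hx a ha) _ (hsmul z hz b hb)
  -- the span of the classes of the base point free divisors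
  have hP : ∀ P, IsPrimeDivisor y P → rcl c P ∈ Submodule.span ℝ A := by
    intro P hP
    obtain ⟨m, hm, hmC⟩ := hQF P hP
    have hDfin : {Q : Place ℂ K | IsPrimeDivisor y Q ∧ (if Q = P then (m : ℤ) else 0) ≠ 0}.Finite := by
      refine (Set.finite_singleton P).subset ?_
      rintro Q ⟨_, h2⟩
      by_contra h3
      exact h2 (if_neg h3)
    obtain ⟨k, hk⟩ := free_add hy n hi (D := fun Q => if Q = P then (m : ℤ) else 0)
      (fun Q => by
        show (0 : ℤ) ≤ if Q = P then (m : ℤ) else 0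
        split_ifs
        · exact Int.natCast_nonneg m
        · exact le_rfl) hDfin (fun R => by
        obtain ⟨f, hf0, hf1, hf2⟩ := hmC R
        refine ⟨f, hf0, fun Q hQ hQR => ?_⟩
        by_cases h : Q = P
        · subst h
          show Q.ord f = if Q = Q then (m : ℤ) else 0
          rw [if_pos rfl]
          exact hf1 hQR
        · show Q.ord f = if Q = P then (m : ℤ) else 0
          rw [if_neg h]
          exact hf2 Q hQ hQR h)
    have h1 := free_hd hy n hi k
    have h2 := divClass_mul (c := c) h1.1 hP m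
    have hm0 : (m : ℝ) ≠ 0 := by
      have : (0 : ℝ) < m := by exact_mod_cast hm
      exact this.ne'
    have h3 : rcl c P = (m : ℝ)⁻¹ • (divClass y c (fun Q => k * hd hy i Q +
        if Q = P then (m : ℤ) else 0) - divClass y c (fun Q => k * hd hy i Q)) := by
      rw [h2, add_sub_cancel_left, smul_smul, inv_mul_cancel₀ hm0, one_smul]
    rw [h3]
    refine Submodule.smul_mem _ _ (Submodule.sub_mem _ (Submodule.subset_span ?_)
      (Submodule.subset_span ?_))
    · rw [hA]; exact ⟨_, hk, rfl⟩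
    · rw [hA]; exact ⟨_, h1, rfl⟩
  have hint : ∀ z : Fin ρ → ℤ, (fun j => (z j : ℝ)) ∈ Submodule.span ℝ A := by
    intro z
    have hz := hc.generate z
    induction hz using AddSubgroup.closure_induction with
    | mem x hx =>
      obtain ⟨P, hP1, rfl⟩ := hx
      exact hP P hP1
    | zero =>
      have : (fun i => (((0 : Fin ρ → ℤ) i : ℤ) : ℝ)) = 0 := by
        funext i; simp
      rw [this]
      exact Submodule.zero_mem _
    | add x z _ _ h1 h2 =>
      have : (fun i => (((x + z : Fin ρ → ℤ) i : ℤ) : ℝ)) =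
          (fun i => (x i : ℝ)) + fun i => (z i : ℝ) := by
        funext i; simp
      rw [this]
      exact Submodule.add_mem _ h1 h2
    | neg x _ h1 =>
      have : (fun i => (((-x : Fin ρ → ℤ) i : ℤ) : ℝ)) = - fun i => (x i : ℝ) := by
        funext i; simp
      rw [this]
      exact Submodule.neg_mem _ h1
  have hspan : Submodule.span ℝ A = ⊤ := by
    rw [eq_top_iff]
    intro x _
    have e : x = ∑ j, x j • (Pi.single j (1 : ℝ) : Fin ρ → ℝ) := by
      funext k
      simp [Finset.sum_apply, Pi.single_apply]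
    rw [e]
    refine Submodule.sum_mem _ fun j _ => Submodule.smul_mem _ _ ?_
    have h1 := hint (Pi.single j 1)
    have e2 : (fun i => (((Pi.single j 1 : Fin ρ → ℤ) i : ℤ) : ℝ)) = Pi.single j (1 : ℝ) := by
      funext k
      by_cases hk : k = j
      · subst hk; simp
      · simp [hk]
    rwa [e2] at h1
  have haff : affineSpan ℝ (coneOf A) = ⊤ := by
    rw [AffineSubspace.affineSpan_eq_top_iff_vectorSpan_eq_top_of_nonempty ℝ _ _ ⟨0, h0⟩, eq_top_iff,
      ← hspan, Submodule.span_le]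
    intro a ha
    have h1 := vsub_mem_vectorSpan ℝ (hself a ha) h0
    rwa [vsub_eq_sub, sub_zero] at h1
  have hin := hconv.interior_nonempty_iff_affineSpan_eq_top.2 haff
  refine hin.mono ?_
  unfold nefCone
  rw [← hA]
  exact interior_mono subset_closure

end Pool.Agent.H85.CQ
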