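import Pool.Agent.H85.CQ.Main

/-!
Project CQ (helper85): automorphisms of the quotient lift up to finite index.
-/

set_option autoImplicit false
set_option linter.unusedSectionVars false

open FF Pool.Agent.W602.GT Pool.Agent.Y172 Pool.Agent.R887
open Pool.Agent.N110 Pool.Agent.N110.PA Pool.Agent.N110.NV Pool.Agent.N492.PA Pool.Agent.N110.CC

namespace Pool.Agent.H85.CQ

section

open Pool.Agent.Y167 Pool.Agent.Y167.CData Pool.Agent.N165.KM Topology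

variable {ρ : ℕ}

/-- a group with a rational polyhedral domain has finite index in every larger group -/
theorem fin_index {C Nf : Set (Fin ρ → ℝ)} (h : Sandwich C Nf)
    {𝒢₀ 𝒢 : Subgroup ((Fin ρ → ℝ) ≃ₗ[ℝ] (Fin ρ → ℝ))} (hle : 𝒢₀ ≤ 𝒢)
    (hL : ∀ g ∈ 𝒢, ∀ x ∈ IntL ρ, g x ∈ IntL ρ) (hN : ∀ g ∈ 𝒢, ∀ x ∈ Nf, g x ∈ Nf)
    (F : Finset (Fin ρ → ℝ)) (hF : ∀ a ∈ F, a ∈ IntL ρ ∧ a ∈ Nf)
    (hcov : ∀ x ∈ Nf, ∃ g ∈ 𝒢₀, g x ∈ cone F) :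
    ∃ E : Set ((Fin ρ → ℝ) ≃ₗ[ℝ] (Fin ρ → ℝ)), E.Finite ∧ (∀ e ∈ E, e ∈ 𝒢) ∧
      ∀ g ∈ 𝒢, ∃ e ∈ E, ∃ g₀ ∈ 𝒢₀, g = e * g₀ := by
  classical
  obtain ⟨ξ₀, y₀, Y, D, hy₀⟩ := exists_cdata h
  obtain ⟨T, hT𝒢, hT⟩ := D.exists_dickson 𝒢 hL hN D.xi_int one_pos
    (fun x _ => by rw [one_mul]) F hF
  -- finitely many elements with a small value
  have hH : {g : (Fin ρ → ℝ) ≃ₗ[ℝ] (Fin ρ → ℝ) | g ∈ 𝒢 ∧ ξ₀ (g y₀) ≤ ξ₀ y₀}.Finite := by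
    have hB0 : 0 ≤ ξ₀ y₀ := D.xi_nonneg D.y_N
    choose! K hK using D.y_int
    refine (D.finite_small 𝒢 hL hN (∑ y ∈ Y, K y * ξ₀ y₀)).subset ?_
    rintro g ⟨hg, hgy⟩
    refine ⟨hg, fun y hyY => ?_⟩
    have h1 := D.xi_nonneg (hN g hg _ (hK y).2)
    rw [map_sub, map_sub, map_smul, map_smul, smul_eq_mul, sub_nonneg] at h1
    have h2 : ξ₀ (g y) ≤ K y * ξ₀ y₀ := h1.trans (mul_le_mul_of_nonneg_left hgy (hK y).1.le)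
    exact h2.trans (Finset.single_le_sum (f := fun y => K y * ξ₀ y₀)
      (fun z _ => mul_nonneg (hK z).1.le hB0) hyY)
  refine ⟨(fun p : ((Fin ρ → ℝ) ≃ₗ[ℝ] (Fin ρ → ℝ)) × ((Fin ρ → ℝ) ≃ₗ[ℝ] (Fin ρ → ℝ)) =>
    p.2⁻¹ * p.1) '' ((T : Set _) ×ˢ {g | g ∈ 𝒢 ∧ ξ₀ (g y₀) ≤ ξ₀ y₀}),
    ((Finset.finite_toSet T).prod hH).image _, ?_, fun g hg => ?_⟩
  · rintro _ ⟨⟨t, u⟩, ⟨ht, hu⟩, rfl⟩
    exact 𝒢.mul_mem (𝒢.inv_mem hu.1) (hT𝒢 t ht)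
  · -- apply the argument to the inverse
    have hg' : g⁻¹ ∈ 𝒢 := 𝒢.inv_mem hg
    obtain ⟨g₀, hg₀, hz⟩ := hcov (g⁻¹ y₀) (hN _ hg' _ D.y_N)
    have hg₀' := hle hg₀
    obtain ⟨t, ht, hle'⟩ := hT (g * g₀⁻¹) (𝒢.mul_mem hg (𝒢.inv_mem hg₀'))
    have h1 : ξ₀ (t (g₀ (g⁻¹ y₀))) ≤ ξ₀ ((g * g₀⁻¹) (g₀ (g⁻¹ y₀))) :=
      le_of_cone (t := (t : (Fin ρ → ℝ) →ₗ[ℝ] (Fin ρ → ℝ)))
        (g := ((g * g₀⁻¹ : (Fin ρ → ℝ) ≃ₗ[ℝ] (Fin ρ → ℝ)) : (Fin ρ → ℝ) →ₗ[ℝ] (Fin ρ → ℝ)))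
        (fun a ha => hle' a ha) hz
    have h2 : (g * g₀⁻¹) (g₀ (g⁻¹ y₀)) = y₀ := by
      have h3 : (g * g₀⁻¹) (g₀ (g⁻¹ y₀)) = (g * g₀⁻¹ * (g₀ * g⁻¹)) y₀ := rfl
      have h4 : g * g₀⁻¹ * (g₀ * g⁻¹) = 1 := by group
      rw [h3, h4]
      rfl
    rw [h2] at h1
    refine ⟨_, ⟨(t, t * g₀ * g⁻¹), ⟨ht, 𝒢.mul_mem (𝒢.mul_mem (hT𝒢 t ht) hg₀') hg', h1⟩, rfl⟩,
      g₀, hg₀, ?_⟩
    show g = (t * g₀ * g⁻¹)⁻¹ * t * g₀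
    group

end

section

variable {K K' : Type} [Field K] [Algebra ℂ K] [Field K'] [Algebra ℂ K'] {N N' n ρ ρ' : ℕ}
  {y : Fin (N + 1) → K} {y' : Fin (N' + 1) → K'} {π : K →ₐ[ℂ] K'}
  {G : Subgroup (K' ≃ₐ[ℂ] K')} {c : Place ℂ K → Fin ρ → ℤ} {c' : Place ℂ K' → Fin ρ' → ℤ}

theorem desc_induced {𝒮' : Subgroup (K' ≃ₐ[ℂ] K')} : Descends π G 𝒮' (induced π G 𝒮') :=
  fun φ' h1 h2 _ h3 => ⟨φ', h1, h2, h3⟩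

/-- fundamental domains give finite index -/
theorem virt (hy : NormalModel y) (hc : PicardBasis y c) {𝒮' : Subgroup (K' ≃ₐ[ℂ] K')}
    {𝒜 : Subgroup (K ≃ₐ[ℂ] K)} (hps : ∀ φ ∈ 𝒜, PseudoAut φ y) (hle : induced π G 𝒮' ≤ 𝒜)
    {C : Set (Fin ρ → ℝ)} (hS : Pool.Agent.N165.KM.Sandwich C (C ∩ effCone y c))
    (hpres : ∀ φ ∈ 𝒜, ∀ T, IsPullBack y c φ T → ∀ x ∈ C, T x ∈ C)
    (hfd : HasFundDomain {T | ∃ φ ∈ induced π G 𝒮', IsPullBack y c φ T} (C ∩ effCone y c)) :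
    FinIndex y c (induced π G 𝒮') 𝒜 := by
  classical
  obtain ⟨M, hM⟩ := exists_rep hy hc hps
  have hM₀ : Rep y c (induced π G 𝒮') M := ⟨fun φ hφ => hM.ps φ (hle hφ),
    fun φ hφ => hM.pull φ (hle hφ), hM.one, fun φ hφ ψ hψ => hM.mul φ (hle hφ) ψ (hle hψ)⟩
  rw [hasFD_iff hc hM₀] at hfd
  obtain ⟨F, hF, hcov⟩ := hfd.cover (fun f g => by
    show hM₀.TE (f * g)⁻¹ = hM₀.TE g⁻¹ * hM₀.TE f⁻¹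
    rw [mul_inv_rev, hM₀.TE_mul])
  -- the images
  obtain ⟨im, him⟩ : ∃ im : 𝒜 →* ((Fin ρ → ℝ) ≃ₗ[ℝ] (Fin ρ → ℝ)), ∀ φ, im φ = hM.TE φ :=
    ⟨{ toFun := hM.TE, map_one' := TE_one hM, map_mul' := hM.TE_mul }, fun _ => rfl⟩
  have hpe : ∀ φ ∈ 𝒜, ∀ x ∈ effCone y c, TR (M φ) x ∈ effCone y c := by
    intro φ hφ x hx
    refine coneOf_map (TR (M φ)) ?_ hx
    rintro _ ⟨P, hP, rfl⟩
    exact ⟨comap φ⁻¹ P, (psaut_iff.1 (hps _ (𝒜.inv_mem hφ)) P).2 hP, hM.TR_rcl hφ hP⟩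
  obtain ⟨E, hE, hE𝒢, hEc⟩ := fin_index hS
    (𝒢₀ := ((induced π G 𝒮').subgroupOf 𝒜).map im) (𝒢 := im.range)
    (by
      rintro _ ⟨φ, -, rfl⟩
      exact ⟨φ, rfl⟩)
    (by
      rintro _ ⟨φ, rfl⟩ x hx
      rw [him]
      exact TR_int _ hx)
    (by
      rintro _ ⟨φ, rfl⟩ x hx
      rw [him]
      exact ⟨hpres φ φ.2 _ (hM.isPull φ) x hx.1, hpe φ φ.2 x hx.2⟩)
    F hF (fun x hx => by
      obtain ⟨f, hf⟩ := hcov x hx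
      refine ⟨im ⟨(f : K ≃ₐ[ℂ] K)⁻¹, hle (f⁻¹).2⟩, ⟨_, (f⁻¹).2, rfl⟩, ?_⟩
      rw [him]
      exact hf)
  choose! s hs using fun (e : (Fin ρ → ℝ) ≃ₗ[ℝ] (Fin ρ → ℝ)) (he : e ∈ E) => hE𝒢 e he
  refine ⟨(fun e => ((s e : 𝒜) : K ≃ₐ[ℂ] K)) '' E, hE.image _, ?_, fun ψ hψ => ?_⟩
  · rintro _ ⟨e, -, rfl⟩
    exact (s e).2
  · obtain ⟨e, he, g₀, ⟨φ, hφ, rfl⟩, h1⟩ := hEc (im ⟨ψ, hψ⟩) ⟨_, rfl⟩
    refine ⟨_, ⟨e, he, rfl⟩, φ, hφ, hM.TE ⟨ψ, hψ⟩, hM.isPull ⟨ψ, hψ⟩, ?_⟩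
    rw [← hs e he, ← map_mul, him, him] at h1
    rw [h1]
    exact hM.isPull (s e * φ)

theorem induced_ps (hy' : NormalModel y') (hn : Algebra.trdeg ℂ K = n)
    (hn' : Algebra.trdeg ℂ K' = n) (hq : IsQuot π y y' G) {𝒮' : Subgroup (K' ≃ₐ[ℂ] K')}
    (hps' : ∀ φ ∈ 𝒮', PseudoAut φ y') : induced π G 𝒮' ≤ psGroup y := by
  rintro φ ⟨φ', h1, -, h3⟩
  obtain ⟨b, r, hb⟩ := exists_bel hy' hn hn' π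
  exact hb.ps_dn hq.map h3 (hps' φ' h1)

theorem induced_aut (hA : S_AUTDN) (hy : NormalModel y) (hy' : NormalModel y')
    (hn : Algebra.trdeg ℂ K = n) (hn' : Algebra.trdeg ℂ K' = n) (hn0 : 0 < n)
    (hq : IsQuot π y y' G) (hm : FiniteMor π y y') {𝒮' : Subgroup (K' ≃ₐ[ℂ] K')} (hG : G ≤ 𝒮')
    (hps' : ∀ φ ∈ 𝒮', IsAut φ y') : induced π G 𝒮' ≤ autGroup y := by
  rintro φ ⟨φ', h1, -, h3⟩
  exact hA K K' N N' n y y' π G hy hy' hn hn' hn0 hq hm (fun g hg => hps' g (hG hg)) φ φ' h3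
    (hps' φ' h1)

theorem induced_mono {𝒮₁ 𝒮₂ : Subgroup (K' ≃ₐ[ℂ] K')} (h : 𝒮₁ ≤ 𝒮₂) :
    induced π G 𝒮₁ ≤ induced π G 𝒮₂ := by
  rintro φ ⟨φ', h1, h2, h3⟩
  exact ⟨φ', h h1, h2, h3⟩

theorem GoodMov.up {𝒮₁ 𝒮₂ : Subgroup (K' ≃ₐ[ℂ] K')} (h : GoodMov π G y c 𝒮₁) (hle : 𝒮₁ ≤ 𝒮₂)
    (h2 : induced π G 𝒮₂ ≤ psGroup y) : GoodMov π G y c 𝒮₂ := by
  refine ⟨h2, fun 𝒮 a b => h.dom 𝒮 ((induced_mono hle).trans a) b, ?_⟩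
  obtain ⟨E, hE, hE1, hE2⟩ := h.index
  refine ⟨E, hE, hE1, fun ψ hψ => ?_⟩
  obtain ⟨e, he, f, hf, T, h3⟩ := hE2 ψ hψ
  exact ⟨e, he, f, induced_mono hle hf, T, h3⟩

theorem GoodNef.up {𝒮₁ 𝒮₂ : Subgroup (K' ≃ₐ[ℂ] K')} (h : GoodNef π G y n c 𝒮₁) (hle : 𝒮₁ ≤ 𝒮₂)
    (h2 : induced π G 𝒮₂ ≤ autGroup y) : GoodNef π G y n c 𝒮₂ := by
  refine ⟨h2, fun 𝒮 a b => h.dom 𝒮 ((induced_mono hle).trans a) b, ?_⟩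
  obtain ⟨E, hE, hE1, hE2⟩ := h.index
  refine ⟨E, hE, hE1, fun ψ hψ => ?_⟩
  obtain ⟨e, he, f, hf, T, h3⟩ := hE2 ψ hψ
  exact ⟨e, he, f, induced_mono hle hf, T, h3⟩

/-- the pseudo-automorphisms of the quotient -/
theorem good_mov (hT : S_TRANS) (hM : S_MOVDN) (hI : S_INTMOV) (hy : NormalModel y)
    (hy' : NormalModel y') (hn : Algebra.trdeg ℂ K = n) (hn' : Algebra.trdeg ℂ K' = n)
    (hn0 : 0 < n) (hc : PicardBasis y c) (hc' : PicardBasis y' c') (hq : IsQuot π y y' G)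
    {𝒮' : Subgroup (K' ≃ₐ[ℂ] K')} (hps' : ∀ φ ∈ 𝒮', PseudoAut φ y') (hG : G ≤ 𝒮')
    (hfc : FinConj y' c' 𝒮' G) (hfd : MovDom y' c' 𝒮') : GoodMov π G y c 𝒮' := by
  have hle : induced π G 𝒮' ≤ psGroup y := induced_ps hy' hn hn' hq hps'
  refine ⟨hle, fun 𝒮 h1 h2 => (main_mov hT hM hI hy hy' hn hn' hn0 hc hc' hq hps'
    (fun φ hφ => h2 hφ) hG (fun φ' a1 a2 φ a3 => h1 ⟨φ', a1, a2, a3⟩) hfc hfd).2, ?_⟩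
  obtain ⟨hS, h⟩ := main_mov hT hM hI hy hy' hn hn' hn0 hc hc' hq hps' (fun φ hφ => hle hφ) hG
    desc_induced hfc hfd
  refine virt hy hc (fun _ h => h) hle hS (fun φ hφ T hT x hx => ?_) h
  refine closure_coneOf_map T.toLinearMap ?_ hx
  rintro _ ⟨D, hD, rfl⟩
  have h4 := Pool.Agent.N608.CC.leafMOV K N ρ y hy c φ hφ T hT D hD.1
  exact ⟨_, h4.2 hD, h4.1.symm⟩

/-- the automorphisms of the quotient -/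
theorem good_nef (hT : S_TRANS) (hU : S_FREEUP) (hF : S_FREEDN) (hA : S_AUTDN)
    (hy : NormalModel y) (hy' : NormalModel y') (hn : Algebra.trdeg ℂ K = n)
    (hn' : Algebra.trdeg ℂ K' = n) (hn0 : 0 < n) (hc : PicardBasis y c)
    (hc' : PicardBasis y' c') (hq : IsQuot π y y' G) (hm : FiniteMor π y y')
    (hint : (interior (nefCone y' n c')).Nonempty)
    {𝒮' : Subgroup (K' ≃ₐ[ℂ] K')} (hps' : ∀ φ ∈ 𝒮', IsAut φ y') (hG : G ≤ 𝒮')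
    (hfc : FinConj y' c' 𝒮' G) (hfd : NefDom y' n c' 𝒮') : GoodNef π G y n c 𝒮' := by
  have hle : induced π G 𝒮' ≤ autGroup y := by
    rintro φ ⟨φ', h1, -, h3⟩
    exact hA K K' N N' n y y' π G hy hy' hn hn' hn0 hq hm (fun g hg => hps' g (hG hg)) φ φ' h3
      (hps' φ' h1)
  refine ⟨hle, fun 𝒮 h1 h2 => (main_nef hT hU hF hy hy' hn hn' hn0 hc hc' hq hm hint hps'
    (fun φ hφ => h2 hφ) hG (fun φ' a1 a2 φ a3 => h1 ⟨φ', a1, a2, a3⟩) hfc hfd).2, ?_⟩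
  obtain ⟨hS, h⟩ := main_nef hT hU hF hy hy' hn hn' hn0 hc hc' hq hm hint hps'
    (fun φ hφ => hle hφ) hG desc_induced hfc hfd
  refine virt hy hc (fun _ h => isAut_ps hy h) hle hS (fun φ hφ T hT x hx => ?_) h
  refine closure_coneOf_map T.toLinearMap ?_ hx
  rintro _ ⟨D, hD, rfl⟩
  have h4 := Pool.Agent.N608.CC.leafMOV K N ρ y hy c φ (isAut_ps hy hφ) T hT D hD.1
  exact ⟨_, (Pool.Agent.N265.CC.leafFREE K N n y hy φ hφ).2 D hD, h4.1.symm⟩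

end

end Pool.Agent.H85.CQ
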