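import Pool.Agent.H85.CQ.Geo4

/-!
Project CQ (helper85): the finiteness of the conjugates if the kernel is almost abelian.
-/

set_option autoImplicit false
set_option linter.unusedSectionVars false

open FF Pool.Agent.W602.GT Pool.Agent.Y172 Pool.Agent.R887
open Pool.Agent.N110 Pool.Agent.N110.PA Pool.Agent.N110.NV Pool.Agent.N492.PA Pool.Agent.N110.CC

namespace Pool.Agent.H85.CQ

section

variable {Γ H : Type} [Group Γ] [Group H] [Fintype H]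

/-- the first cohomology of a finite group with values in an abelian group which is divisible by the
order and has finite torsion, in terms of homomorphisms -/
theorem h1_fin (K₀ : Subgroup Γ) (hcomm : ∀ a ∈ K₀, ∀ b ∈ K₀, a * b = b * a)
    (hdiv : ∀ a ∈ K₀, ∃ u ∈ K₀, u ^ Fintype.card H = a)
    {s₀ s : H → Γ} (hs₀ : ∀ g h, s₀ (g * h) = s₀ g * s₀ h) (hs : ∀ g h, s (g * h) = s g * s h)
    (hnorm : ∀ g, ∀ a ∈ K₀, s₀ g * a * (s₀ g)⁻¹ ∈ K₀) (hcl : ∀ g, s g * (s₀ g)⁻¹ ∈ K₀) :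
    ∃ t : H → Γ, (∀ g, t g ∈ K₀ ∧ t g ^ Fintype.card H = 1) ∧ ∃ k ∈ K₀, ∀ g,
      s g = k⁻¹ * (t g * s₀ g) * k := by
  classical
  -- the abelian group
  let _ : CommGroup K₀ := { (inferInstance : Group K₀) with
    mul_comm := fun a b => Subtype.ext (hcomm a a.2 b b.2) }
  obtain ⟨c, hc⟩ : ∃ c : H → K₀, ∀ g, (c g : Γ) = s g * (s₀ g)⁻¹ :=
    ⟨fun g => ⟨_, hcl g⟩, fun _ => rfl⟩
  obtain ⟨act, hact⟩ : ∃ act : H → K₀ →* K₀, ∀ g (a : K₀), (act g a : Γ) =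
      s₀ g * a * (s₀ g)⁻¹ := ⟨fun g =>
    { toFun := fun a => ⟨_, hnorm g a a.2⟩
      map_one' := Subtype.ext (by simp)
      map_mul' := fun a b => Subtype.ext (by
        show s₀ g * ((a : Γ) * b) * (s₀ g)⁻¹ = s₀ g * a * (s₀ g)⁻¹ * (s₀ g * b * (s₀ g)⁻¹)
        group) }, fun _ _ => rfl⟩
  have hcoc : ∀ g h, c (g * h) = c g * act g (c h) := by
    intro g h
    apply Subtype.ext
    show (c (g * h) : Γ) = (c g : Γ) * (act g (c h) : Γ)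
    rw [hact, hc, hc, hc, hs, hs₀]
    group
  obtain ⟨w, hw⟩ : ∃ w : K₀, w = ∏ h, c h := ⟨_, rfl⟩
  have hsum : ∀ g, w = c g ^ Fintype.card H * act g w := by
    intro g
    calc w = ∏ h, c (g * h) := by
          rw [hw]
          exact (Fintype.prod_equiv (Equiv.mulLeft g) _ _ fun h => rfl).symm
      _ = ∏ h, (c g * act g (c h)) := Finset.prod_congr rfl fun h _ => hcoc g h
      _ = c g ^ Fintype.card H * act g w := by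
          rw [Finset.prod_mul_distrib, Finset.prod_const, Finset.card_univ, hw, map_prod]
  obtain ⟨u₀, hu₀, hu₁⟩ := hdiv w w.2
  obtain ⟨u, hu⟩ : ∃ u : K₀, u ^ Fintype.card H = w :=
    ⟨⟨u₀, hu₀⟩, Subtype.ext (by rw [Subgroup.coe_pow]; exact hu₁)⟩
  -- the corrected cocycle
  obtain ⟨t, ht⟩ : ∃ t : H → K₀, ∀ g, t g = c g * act g u * u⁻¹ := ⟨_, fun _ => rfl⟩
  have htm : ∀ g, t g ^ Fintype.card H = 1 := by
    intro g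
    rw [ht, mul_pow, mul_pow, ← map_pow, hu, inv_pow, hu, ← hsum, mul_inv_cancel]
  refine ⟨fun g => t g, fun g => ⟨(t g).2, ?_⟩, (u⁻¹ : K₀), (u⁻¹).2, fun g => ?_⟩
  · have h1 := congrArg (fun x : K₀ => (x : Γ)) (htm g)
    simpa using h1
  · have h1 : c g = u * t g * (act g u)⁻¹ := by
      rw [ht]
      rw [mul_comm u, mul_assoc (c g * act g u), inv_mul_cancel, mul_one, mul_assoc,
        mul_inv_cancel, mul_one]
    have h2 : (c g : Γ) = u * t g * (s₀ g * u * (s₀ g)⁻¹)⁻¹ := by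
      rw [← hact]
      have h3 := congrArg (fun x : K₀ => (x : Γ)) h1
      simpa using h3
    rw [hc] at h2
    have h3 : s g = u * t g * (s₀ g * u * (s₀ g)⁻¹)⁻¹ * s₀ g := by
      rw [← h2]
      group
    rw [h3]
    simp only [Subgroup.coe_inv]
    group

end

section

variable {K' : Type} [Field K'] [Algebra ℂ K'] {N' ρ' : ℕ} {y' : Fin (N' + 1) → K'}
  {G : Subgroup (K' ≃ₐ[ℂ] K')} {c' : Place ℂ K' → Fin ρ' → ℤ}

/-- **The finiteness of the conjugates.** -/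
theorem finConj_of_ab (hy' : NormalModel y') (hc' : PicardBasis y' c')
    {𝒮' 𝒦 : Subgroup (K' ≃ₐ[ℂ] K')} (hps' : ∀ φ ∈ 𝒮', PseudoAut φ y') (hG : G ≤ 𝒮') [Finite G]
    (hk : AlmostAb y' c' 𝒮' 𝒦 (Nat.card G)) : FinConj y' c' 𝒮' G := by
  classical
  have := Fintype.ofFinite G
  obtain ⟨M, hM⟩ := exists_rep hy' hc' hps'
  have hTE : ∀ (φ : 𝒮') T, IsPullBack y' c' φ T → hM.TE φ = T := fun φ T hT =>
    pull_ext hc' (hM.isPull φ) hT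
  obtain ⟨F, hF, hFk⟩ := hk.index
  intro a
  by_cases hex : ∃ f₁ ∈ 𝒮', ∀ g : G, IsPullBack y' c' (f₁⁻¹ * g * f₁) (a g)
  swap
  · exact ⟨∅, Set.finite_empty, fun f hf hfa => absurd ⟨f, hf, hfa⟩ hex⟩
  obtain ⟨f₁, hf₁, hf₁a⟩ := hex
  -- every lift is in finitely many cosets
  have hcos : ∀ f ∈ 𝒮', (∀ g : G, IsPullBack y' c' (f⁻¹ * g * f) (a g)) → ∃ e : G → F,
      ∀ g : G, (f⁻¹ * g * f) * ((e g : K' ≃ₐ[ℂ] K') * (f₁⁻¹ * g * f₁))⁻¹ ∈ 𝒦 := by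
    intro f hf hfa
    have h1 : ∀ g : G, ∃ e : F, (f⁻¹ * g * f) * ((e : K' ≃ₐ[ℂ] K') * (f₁⁻¹ * g * f₁))⁻¹ ∈ 𝒦 := by
      intro g
      have hA : f⁻¹ * g * f ∈ 𝒮' := 𝒮'.mul_mem (𝒮'.mul_mem (𝒮'.inv_mem hf) (hG g.2)) hf
      have hB : f₁⁻¹ * g * f₁ ∈ 𝒮' := 𝒮'.mul_mem (𝒮'.mul_mem (𝒮'.inv_mem hf₁) (hG g.2)) hf₁
      have h2 := hM.isPull (⟨_, hA⟩ * (⟨_, hB⟩ : 𝒮')⁻¹)
      rw [hM.TE_mul, TE_inv, hTE ⟨_, hA⟩ _ (hfa g), hTE ⟨_, hB⟩ _ (hf₁a g), mul_inv_cancel] at h2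
      obtain ⟨e, he, h3⟩ := hFk _ (𝒮'.mul_mem hA (𝒮'.inv_mem hB)) h2
      refine ⟨⟨e, he⟩, ?_⟩
      rw [mul_inv_rev, ← mul_assoc]
      exact h3
    choose e he using h1
    exact ⟨e, he⟩
  have hFf : Finite F := hF
  -- the representatives
  choose! f₀ hf₀ using fun (e : G → F) (he : ∃ f ∈ 𝒮', (∀ g : G, IsPullBack y' c' (f⁻¹ * g * f)
    (a g)) ∧ ∀ g : G, (f⁻¹ * g * f) * ((e g : K' ≃ₐ[ℂ] K') * (f₁⁻¹ * g * f₁))⁻¹ ∈ 𝒦) => he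
  refine ⟨⋃ e : G → F, {r : G → (K' ≃ₐ[ℂ] K') | ∀ g : G, r g ∈
    (fun k => k * ((f₀ e)⁻¹ * g * f₀ e)) '' {k | k ∈ 𝒦 ∧ k ^ Nat.card G = 1}}, Set.finite_iUnion fun e => Set.Finite.pi' fun g =>
      hk.tors.image _, fun f hf hfa => ?_⟩
  obtain ⟨e, he⟩ := hcos f hf hfa
  obtain ⟨h1, h2, h3⟩ := hf₀ e ⟨f, hf, hfa, he⟩
  obtain ⟨t, ht, k, hk1, hk2⟩ := h1_fin (H := G) 𝒦 hk.comm (by
    rw [Fintype.card_eq_nat_card]
    exact hk.div) (s₀ := fun g : G => (f₀ e)⁻¹ * g * f₀ e) (s := fun g : G => f⁻¹ * g * f)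
    (fun g h => by
      show (f₀ e)⁻¹ * ((g : K' ≃ₐ[ℂ] K') * h) * f₀ e =
        (f₀ e)⁻¹ * g * f₀ e * ((f₀ e)⁻¹ * h * f₀ e)
      group)
    (fun g h => by
      show f⁻¹ * ((g : K' ≃ₐ[ℂ] K') * h) * f = f⁻¹ * g * f * (f⁻¹ * h * f)
      group)
    (fun g b hb => hk.normal _ (𝒮'.mul_mem (𝒮'.mul_mem (𝒮'.inv_mem h1) (hG g.2)) h1) b hb)
    (fun g => by
      have e1 := 𝒦.mul_mem (he g) (𝒦.inv_mem (h3 g))
      have e2 : f⁻¹ * g * f * ((e g : K' ≃ₐ[ℂ] K') * (f₁⁻¹ * g * f₁))⁻¹ *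
          ((f₀ e)⁻¹ * g * f₀ e * ((e g : K' ≃ₐ[ℂ] K') * (f₁⁻¹ * g * f₁))⁻¹)⁻¹ =
          f⁻¹ * g * f * ((f₀ e)⁻¹ * g * f₀ e)⁻¹ := by group
      rw [e2] at e1
      exact e1)
  refine ⟨fun g => t g * ((f₀ e)⁻¹ * g * f₀ e), Set.mem_iUnion.2 ⟨e, fun g => ⟨t g, ⟨(ht g).1, ?_⟩,
    rfl⟩⟩, k, hk.le hk1, hk.triv k hk1, hk2⟩
  rw [← Fintype.card_eq_nat_card]
  exact (ht g).2

end

end Pool.Agent.H85.CQ
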