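import Pool.Agent.H85.CQ.FREEDN

/-!
# Project CQ, leaf MOVDN: the push forward of a movable divisor is movable

(helper15 for helper85; imitates FREEDN of helper96)
-/

set_option autoImplicit false
set_option linter.overlappingInstances false
set_option linter.unusedSectionVars false

open FF Module Pool.Agent.W602.GT Pool.Agent.Y172 Pool.Agent.R887 Pool.Agent.N110
open Pool.Agent.N110.CC

namespace Pool.Agent.H85.CQ

open H96

theorem movdn : S_MOVDN := by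
  intro K K' _ _ _ _ N N' n y y' π G _ hy hy' hn hn' _ hq _ D' D m hm1 hmov hDfin hrel
  classical
  refine ⟨hDfin, fun P₀ hP₀ => ?_⟩
  obtain ⟨Q₀, e₀, hQ₀, _⟩ := H96.exists_over (π := π) hy hy' hn hn' P₀
  have hprime : ∀ P, IsPrimeDivisor y P → ∀ Q e, LiesOver π Q P e → ∀ g : G,
      IsPrimeDivisor y' (comap (g : K' ≃ₐ[ℂ] K') Q) := fun P hP Q e hQ g =>
    (hq.map _ P e (comap_over hq.fixed hQ g.2)).2 hP
  choose f hf0 hfsec hfgen using fun g : G => hmov.2 (comap (g : K' ≃ₐ[ℂ] K') Q₀)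
    (hprime P₀ hP₀ Q₀ e₀ hQ₀ g)
  obtain ⟨μ, hμ0, hμ⟩ := generic f (fun g : G => comap (g : K' ≃ₐ[ℂ] K') Q₀) f hf0
    (fun j i => by
      refine Or.inr ?_
      rw [Place.ord_div _ (hf0 i) (hf0 j)]
      have h1 := hfsec i _ (hprime P₀ hP₀ Q₀ e₀ hQ₀ j)
      have h2 := hfgen j
      omega)
    (fun j => ⟨j, hf0 j, by rw [div_self (hf0 j)]; exact Place.ord_one _⟩)
  obtain ⟨F, hF⟩ : ∃ F, F = ∑ g : G, μ g • f g := ⟨_, rfl⟩
  have hF0 : F ≠ 0 := by rw [hF]; exact hμ0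
  have hsec : ∀ Q, IsPrimeDivisor y' Q → 0 ≤ Q.ord F + D' Q := by
    intro Q hQ
    have h1 : -(D' Q) ≤ Q.ord F := by
      rw [hF]
      refine ge_comb _ Q μ f _ (fun i _ => ?_) hμ0
      have := hfsec i Q hQ
      omega
    omega
  have hgen : ∀ g : G, (comap (g : K' ≃ₐ[ℂ] K') Q₀).ord F +
      D' (comap (g : K' ≃ₐ[ℂ] K') Q₀) = 0 := by
    intro g
    have h1 := hμ g
    rw [← hF, Place.ord_div _ hF0 (hf0 g)] at h1
    have h2 := hfgen g
    omega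
  obtain ⟨n₀, hn₀⟩ := norm_fixed hq.fixed F
  have hn0 : n₀ ≠ 0 := by
    rintro rfl
    rw [map_zero] at hn₀
    exact (Finset.prod_ne_zero_iff.2 fun g _ => by rwa [Ne, map_eq_zero]) hn₀.symm
  have hform : ∀ P, IsPrimeDivisor y P → ∀ Q e, LiesOver π Q P e →
      (e : ℤ) * (P.ord (n₀ ^ m) + D P) = m * ∑ g : G,
        ((comap (g : K' ≃ₐ[ℂ] K') Q).ord F + D' (comap (g : K' ≃ₐ[ℂ] K') Q)) := by
    intro P hP Q e hQ
    have h1 := hrel Q P e ((hq.map Q P e hQ).2 hP) hQ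
    have h2 := hQ.2 n₀
    rw [hn₀, ord_prod _ _ _ (fun g _ => by rwa [Ne, map_eq_zero])] at h2
    rw [P.ord_pow, mul_add, h1, Finset.sum_add_distrib, mul_add]
    congr 1
    have h3 : ∑ g : G, (comap (g : K' ≃ₐ[ℂ] K') Q).ord F = (e : ℤ) * P.ord n₀ := by
      rw [← h2]
      rfl
    rw [h3]
    ring
  refine ⟨n₀ ^ m, pow_ne_zero _ hn0, ?_, ?_⟩
  · intro P hP
    obtain ⟨Q, e, hQ, _⟩ := H96.exists_over (π := π) hy hy' hn hn' P
    have h1 := hform P hP Q e hQ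
    have h2 : 0 ≤ (m : ℤ) * ∑ g : G,
        ((comap (g : K' ≃ₐ[ℂ] K') Q).ord F + D' (comap (g : K' ≃ₐ[ℂ] K') Q)) :=
      mul_nonneg (Int.natCast_nonneg _) (Finset.sum_nonneg fun g _ =>
        hsec _ (hprime P hP Q e hQ g))
    rw [← h1] at h2
    have h3 : (0 : ℤ) < e := by have := hQ.1; omega
    exact nonneg_of_mul_nonneg_right h2 h3
  · have h1 := hform P₀ hP₀ Q₀ e₀ hQ₀
    rw [Finset.sum_eq_zero fun g _ => hgen g, mul_zero] at h1
    rcases mul_eq_zero.1 h1 with h3 | h3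
    · have := hQ₀.1
      omega
    · exact h3

theorem leafMOVDN (_ : S_TRANS) : S_MOVDN := movdn

end Pool.Agent.H85.CQ
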