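import Pool.Agent.H85.CQ.Stm

/-!
Project CQ (helper85): `ℚ`-factorial varieties.
-/

set_option autoImplicit false

open FF Pool.Agent.W602.GT Pool.Agent.Y172 Pool.Agent.R887 Pool.Agent.N110 Pool.Agent.N110.CC

namespace Pool.Agent.H85.CQ

section

variable {K : Type} [Field K] [Algebra ℂ K] {N : ℕ}

/-- The variety `X` with generic point `y` is `ℚ`-factorial: for every prime divisor `P` some
multiple `m P`, `m ≥ 1`, is a Cartier divisor. This means that at every point of `X`, the centre of a
place `R`, it is given by one function `f`: the order of `f` along the prime divisors through the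
point is `m` for `P` and zero for the others. -/
def QFactorial (y : Fin (N + 1) → K) : Prop :=
  ∀ P, IsPrimeDivisor y P → ∃ m : ℕ, 1 ≤ m ∧ ∀ R : Place ℂ K, ∃ f : K, f ≠ 0 ∧
    (Through y P R → P.ord f = m) ∧
    ∀ Q, IsPrimeDivisor y Q → Through y Q R → Q ≠ P → Q.ord f = 0

end

/-- (INTNEF) the nef cone of a `ℚ`-factorial variety has a nonempty interior -/
def S_INTNEF : Prop :=
  ∀ (K : Type) [Field K] [Algebra ℂ K] (N n ρ : ℕ) (y : Fin (N + 1) → K), NormalModel y →
    Algebra.trdeg ℂ K = n → 0 < n → QFactorial y → ∀ c : Place ℂ K → Fin ρ → ℤ,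
    PicardBasis y c → (interior (nefCone y n c)).Nonempty

end Pool.Agent.H85.CQ
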