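import Pool.Agent.H85.CQ.Fin
import Pool.Agent.H85.CQ.Stm2

/-!
Project CQ (helper85): the final statements.
-/

set_option autoImplicit false
set_option linter.unusedSectionVars false

open FF Pool.Agent.W602.GT Pool.Agent.Y172 Pool.Agent.R887
open Pool.Agent.N110 Pool.Agent.N110.PA Pool.Agent.N110.NV Pool.Agent.N492.PA Pool.Agent.N110.CC

namespace Pool.Agent.H85.CQ

section

variable {K K' : Type} [Field K] [Algebra ℂ K] [Field K'] [Algebra ℂ K'] {N N' n ρ ρ' : ℕ}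
  {y : Fin (N + 1) → K} {y' : Fin (N' + 1) → K'} {π : K →ₐ[ℂ] K'}
  {G : Subgroup (K' ≃ₐ[ℂ] K')} {c : Place ℂ K → Fin ρ → ℤ} {c' : Place ℂ K' → Fin ρ' → ℤ}

theorem mem_pairPs {Δ : Place ℂ K → ℝ} {ψ : K ≃ₐ[ℂ] K} :
    ψ ∈ pairPs y Δ ↔ PseudoAut ψ y ∧ Preserves ψ y Δ := Iff.rfl

theorem mem_pairAut (hy : NormalModel y) {Δ : Place ℂ K → ℝ} {ψ : K ≃ₐ[ℂ] K} :
    ψ ∈ pairAut y Δ ↔ IsAut ψ y ∧ Preserves ψ y Δ :=
  ⟨fun h => ⟨h.1, h.2.2⟩, fun h => ⟨h.1, isAut_ps hy h.1, h.2⟩⟩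

theorem fin_or (hy' : NormalModel y') (hc' : PicardBasis y' c') {𝒮' : Subgroup (K' ≃ₐ[ℂ] K')}
    (hps' : ∀ φ ∈ 𝒮', PseudoAut φ y') (hG : G ≤ 𝒮') (hq : IsQuot π y y' G)
    (h : SmallKernel y' c' 𝒮' G) : FinConj y' c' 𝒮' G := by
  have := hq.finite
  rcases h with h | ⟨𝒦, h⟩
  · exact h
  · exact finConj_of_ab hy' hc' hps' hG h

theorem desc_ps (hy' : NormalModel y') (hn : Algebra.trdeg ℂ K = n)
    (hn' : Algebra.trdeg ℂ K' = n) (hq : IsQuot π y y' G) {Δ' : Place ℂ K' → ℝ}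
    {Δ : Place ℂ K → ℝ} (hΔ : LogPull π y' Δ' Δ) :
    Descends π G (pairPs y' Δ') (pairPs y Δ) := by
  intro φ' hφ' _ φ hφ
  obtain ⟨b, r, hb⟩ := exists_bel hy' hn hn' π
  exact ⟨hb.ps_dn hq.map hφ hφ'.1, pres_dn hb hq.map hΔ hφ hφ'.1 hφ'.2⟩

theorem desc_aut (hA : S_AUTDN) (hy : NormalModel y) (hy' : NormalModel y')
    (hn : Algebra.trdeg ℂ K = n) (hn' : Algebra.trdeg ℂ K' = n) (hn0 : 0 < n)
    (hq : IsQuot π y y' G) (hm : FiniteMor π y y') {Δ' : Place ℂ K' → ℝ}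
    {Δ : Place ℂ K → ℝ} (hΔ : LogPull π y' Δ' Δ) (hG : ∀ g ∈ G, IsAut g y') :
    Descends π G (pairAut y' Δ') (pairAut y Δ) := by
  intro φ' hφ' _ φ hφ
  obtain ⟨b, r, hb⟩ := exists_bel hy' hn hn' π
  exact ⟨hA K K' N N' n y y' π G hy hy' hn hn' hn0 hq hm hG φ φ' hφ hφ'.1,
    hb.ps_dn hq.map hφ hφ'.2.1, pres_dn hb hq.map hΔ hφ hφ'.2.1 hφ'.2.2⟩

end

end Pool.Agent.H85.CQ
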