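import Pool.Agent.H85.CQ.Geo4

/-!
Project CQ (helper85): a finite group which normalises an abelian group of positive entropy.
-/

set_option autoImplicit false
set_option linter.unusedSectionVars false

open FF Pool.Agent.W602.GT Pool.Agent.Y172 Pool.Agent.R887
open Pool.Agent.N110 Pool.Agent.N110.PA Pool.Agent.N110.NV Pool.Agent.N492.PA Pool.Agent.N110.CC
open Filter Topology

namespace Pool.Agent.H85.CQ

section

variable {K : Type} [Field K] [Algebra ℂ K] {N n r ρ : ℕ} {y : Fin (N + 1) → K}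
  {c : Place ℂ K → Fin ρ → ℤ}

/-- elements of positive entropy act non-trivially -/
theorem triv_zero (hy : NormalModel y) (hn : Algebra.trdeg ℂ K = n) (hn0 : 0 < n) (hr : 0 < r)
    (hρ : 0 < ρ) (hc : PicardBasis y c) {φ : (Fin r → ℤ) → (K ≃ₐ[ℂ] K)}
    (hφ : ∀ u v, φ (u + v) = φ u * φ v) (hps : ∀ v, PseudoAut (φ v) y)
    (hent : ∀ v, v ≠ 0 → 1 < dynDegree (φ v) y n 1) {v : Fin r → ℤ}
    (h : IsPullBack y c (φ v) 1) : v = 0 := by
  classical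
  obtain ⟨M, hM⟩ := exists_rep hy hc (𝒮 := psGroup y) (fun _ h => h)
  have hφ0 : φ 0 = 1 := phi_zero hφ
  have hφn : ∀ v, φ (-v) = (φ v)⁻¹ := by
    intro v
    rw [eq_inv_iff_mul_eq_one, ← hφ, neg_add_cancel, hφ0]
  obtain ⟨a, δ, ha, hδ, hg⟩ := Pool.Agent.N27.CC.leafGROW K N n ρ r y hy hn hn0 hr hρ c hc φ hφ
    hps hent (fun v => M (φ v)) (by
      show M (φ 0) = 1
      rw [hφ0, hM.one]) (fun u v => by
      show M (φ (u + v)) = M (φ u) * M (φ v)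
      rw [hφ, hM.mul _ (hps u) _ (hps v)]) (fun v P hP => by
      show (M (φ v)).mulVec (c P) = c (comap (φ (-v)) P)
      rw [hM.pull _ (hps v) P hP, hφn])
  have h1 : M (φ v) = 1 := by
    refine mat_ext hc fun P hP => ?_
    rw [hM.pull _ (hps v) P hP, Matrix.one_mulVec]
    have h2 := h P (comap (φ v)⁻¹ P) hP (fun g => by
      rw [comap_ord]
      have h3 : (φ v)⁻¹ (φ v g) = g := AlgEquiv.symm_apply_apply (φ v) g
      rw [h3])
    funext i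
    have h4 := congrFun h2 i
    have h5 : (c P i : ℝ) = (c (comap (φ v)⁻¹ P) i : ℝ) := h4
    exact_mod_cast h5.symm
  have h2 : ∀ k : ℕ, M (φ (k • v)) = 1 := by
    intro k
    induction k with
    | zero => rw [zero_smul, hφ0, hM.one]
    | succ k ih => rw [succ_nsmul, hφ, hM.mul _ (hps _) _ (hps _), ih, h1, mul_one]
  obtain ⟨B, hB⟩ : ∃ B : ℝ, B = ∑ i : Fin ρ, ∑ j : Fin ρ, |((1 : Matrix (Fin ρ) (Fin ρ) ℤ) i j : ℝ)| :=
    ⟨_, rfl⟩
  have h3 : ∀ k : ℕ, a * (δ * (k * ∑ i, |(v i : ℝ)|)) ≤ B := by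
    intro k
    have h4 := hg (k • v)
    rw [h2 k, ← hB] at h4
    have h5 : ∑ i, |(((k • v) i : ℤ) : ℝ)| = k * ∑ i, |(v i : ℝ)| := by
      rw [Finset.mul_sum]
      refine Finset.sum_congr rfl fun i _ => ?_
      rw [Pi.smul_apply, nsmul_eq_mul]
      push_cast
      rw [abs_mul, Nat.abs_cast]
    rw [h5] at h4
    refine le_trans (mul_le_mul_of_nonneg_left ?_ ha.le) h4
    have := Real.add_one_le_exp (δ * (k * ∑ i, |(v i : ℝ)|))
    linarith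
  by_contra hv
  have h6 : 0 < ∑ i, |(v i : ℝ)| := by
    refine lt_of_le_of_ne (Finset.sum_nonneg fun _ _ => abs_nonneg _) fun h0 => hv ?_
    funext i
    have := (Finset.sum_eq_zero_iff_of_nonneg (fun j _ => abs_nonneg (v j : ℝ))).1 h0.symm i
      (Finset.mem_univ i)
    exact_mod_cast abs_eq_zero.1 this
  obtain ⟨k, hk⟩ := exists_nat_gt (B / (a * δ * ∑ i, |(v i : ℝ)|))
  have h7 : 0 < a * δ * ∑ i, |(v i : ℝ)| := by positivity
  rw [div_lt_iff₀ h7] at hk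
  have h8 := h3 k
  nlinarith

/-- the group generated by a finite group and an abelian group which it normalises -/
def normGroup {φ : (Fin r → ℤ) → (K ≃ₐ[ℂ] K)} (hφ : ∀ u v, φ (u + v) = φ u * φ v)
    {G : Subgroup (K ≃ₐ[ℂ] K)} (hN : ∀ g ∈ G, ∀ v, ∃ w, g * φ v = φ w * g) :
    Subgroup (K ≃ₐ[ℂ] K) where
  carrier := {ψ | ∃ v, ∃ g ∈ G, ψ = φ v * g}
  mul_mem' := by
    rintro _ _ ⟨u, g, hg, rfl⟩ ⟨v, h, hh, rfl⟩
    obtain ⟨w, hw⟩ := hN g hg v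
    refine ⟨u + w, g * h, G.mul_mem hg hh, ?_⟩
    rw [hφ, mul_assoc, ← mul_assoc g, hw]
    group
  one_mem' := ⟨0, 1, G.one_mem, by rw [phi_zero hφ, one_mul]⟩
  inv_mem' := by
    rintro _ ⟨u, g, hg, rfl⟩
    obtain ⟨w, hw⟩ := hN g⁻¹ (G.inv_mem hg) (-u)
    refine ⟨w, g⁻¹, G.inv_mem hg, ?_⟩
    have h1 : φ (-u) = (φ u)⁻¹ := by
      rw [eq_inv_iff_mul_eq_one, ← hφ, neg_add_cancel, phi_zero hφ]
    rw [← hw, h1, mul_inv_rev]

section

variable {φ : (Fin r → ℤ) → (K ≃ₐ[ℂ] K)} (hφ : ∀ u v, φ (u + v) = φ u * φ v)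
    {G : Subgroup (K ≃ₐ[ℂ] K)} (hN : ∀ g ∈ G, ∀ v, ∃ w, g * φ v = φ w * g)

theorem le_normGroup : G ≤ normGroup hφ hN := fun g hg => ⟨0, g, hg, by
  rw [phi_zero hφ, one_mul]⟩

theorem phi_normGroup (v : Fin r → ℤ) : φ v ∈ normGroup hφ hN := ⟨v, 1, G.one_mem, by
  rw [mul_one]⟩

theorem normGroup_le {𝒮 : Subgroup (K ≃ₐ[ℂ] K)} (hG : G ≤ 𝒮) (hφ' : ∀ v, φ v ∈ 𝒮) :
    normGroup hφ hN ≤ 𝒮 := by
  rintro _ ⟨v, g, hg, rfl⟩
  exact 𝒮.mul_mem (hφ' v) (hG hg)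

theorem norm_fin (hy : NormalModel y) (hn : Algebra.trdeg ℂ K = n) (hn0 : 0 < n) (hr : 0 < r)
    (hρ : 0 < ρ) (hc : PicardBasis y c) (hfin : Finite G)
    (hps : ∀ ψ ∈ normGroup hφ hN, PseudoAut ψ y)
    (hent : ∀ v, v ≠ 0 → 1 < dynDegree (φ v) y n 1) :
    FinConj y c (normGroup hφ hN) G := by
  classical
  refine finConj_of_finite hy hc hps (le_normGroup hφ hN) ?_
  obtain ⟨M, hM⟩ := exists_rep hy hc hps
  have hTE : ∀ (φ : normGroup hφ hN) T, IsPullBack y c φ T → hM.TE φ = T := fun φ T hT =>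
    pull_ext hc (hM.isPull φ) hT
  -- the component in `G`
  choose! w γ hγ hw using fun (k : K ≃ₐ[ℂ] K) (hk : k ∈ normGroup hφ hN) => hk
  refine Set.Finite.of_finite_image (f := fun k => γ k)
    ((Set.toFinite (G : Set (K ≃ₐ[ℂ] K))).subset ?_) ?_
  · rintro _ ⟨k, hk, rfl⟩
    exact hγ k hk.1
  · intro k hk l hl hkl
    have hkl' : γ k = γ l := hkl
    have h1 : k * l⁻¹ = φ (w k - w l) := by
      have h2 : φ (-(w l)) = (φ (w l))⁻¹ := by
        rw [eq_inv_iff_mul_eq_one, ← hφ, neg_add_cancel, phi_zero hφ]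
      have h3 := hw k hk.1
      have h4 := hw l hl.1
      calc k * l⁻¹ = φ (w k) * γ k * (φ (w l) * γ l)⁻¹ := by rw [← h3, ← h4]
        _ = φ (w k) * (φ (w l))⁻¹ := by rw [hkl']; group
        _ = φ (w k - w l) := by rw [sub_eq_add_neg, hφ, h2]
    have h2 : IsPullBack y c (φ (w k - w l)) 1 := by
      rw [← h1]
      have h3 := hM.isPull ((⟨k, hk.1⟩ : normGroup hφ hN) * ⟨l, hl.1⟩⁻¹)
      rw [hM.TE_mul, TE_inv, hTE ⟨k, hk.1⟩ _ hk.2, hTE ⟨l, hl.1⟩ _ hl.2] at h3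
      rw [inv_one, mul_one] at h3
      exact h3
    have h3 := triv_zero hy hn hn0 hr hρ hc hφ (fun v => hps _ (phi_normGroup hφ hN v)) hent h2
    rw [h3, phi_zero hφ] at h1
    exact mul_inv_eq_one.1 h1

end

end

end Pool.Agent.H85.CQ
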