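import Pool.Agent.H85.CQ.Defs

/-!
Project CQ (helper85): statements of the geometric parts.
-/

set_option autoImplicit false

open FF Pool.Agent.W602.GT Pool.Agent.Y172 Pool.Agent.R887 Pool.Agent.N110 Pool.Agent.N110.CC

namespace Pool.Agent.H85.CQ

/-- (TRANS) the group acts transitively on the places over `P` -/
def S_TRANS : Prop :=
  ∀ (K K' : Type) [Field K] [Algebra ℂ K] [Field K'] [Algebra ℂ K'] (π : K →ₐ[ℂ] K')
    (G : Subgroup (K' ≃ₐ[ℂ] K')) [Finite G],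
    (∀ f : K', (∀ g ∈ G, g f = f) ↔ ∃ f₀ : K, π f₀ = f) →
    ∀ (P : Place ℂ K) (Q Q' : Place ℂ K') (e e' : ℕ), LiesOver π Q P e → LiesOver π Q' P e' →
    ∃ g ∈ G, Q' = comap g Q

/-- (MOVDN) the push forward of a movable divisor to the quotient is movable -/
def S_MOVDN : Prop :=
  ∀ (K K' : Type) [Field K] [Algebra ℂ K] [Field K'] [Algebra ℂ K'] (N N' n : ℕ)
    (y : Fin (N + 1) → K) (y' : Fin (N' + 1) → K') (π : K →ₐ[ℂ] K')
    (G : Subgroup (K' ≃ₐ[ℂ] K')) [Fintype G], NormalModel y → NormalModel y' →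
    Algebra.trdeg ℂ K = n → Algebra.trdeg ℂ K' = n → 0 < n → IsQuot π y y' G →
    (∀ g ∈ G, PseudoAut g y') →
    ∀ (D' : Place ℂ K' → ℤ) (D : Place ℂ K → ℤ) (m : ℕ), 1 ≤ m → IsMovable y' D' →
    {P | IsPrimeDivisor y P ∧ D P ≠ 0}.Finite →
    (∀ Q P e, IsPrimeDivisor y' Q → LiesOver π Q P e →
      (e : ℤ) * D P = m * ∑ g : G, D' (comap (g : K' ≃ₐ[ℂ] K') Q)) →
    IsMovable y D

/-- (FREEUP) the pull back of a base point free divisor is base point free -/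
def S_FREEUP : Prop :=
  ∀ (K K' : Type) [Field K] [Algebra ℂ K] [Field K'] [Algebra ℂ K'] (N N' n : ℕ)
    (y : Fin (N + 1) → K) (y' : Fin (N' + 1) → K') (π : K →ₐ[ℂ] K'), NormalModel y →
    NormalModel y' → Algebra.trdeg ℂ K = n → Algebra.trdeg ℂ K' = n → 0 < n →
    FiniteMap π y y' → FiniteMor π y y' →
    ∀ (D : Place ℂ K → ℤ) (D' : Place ℂ K' → ℤ), IsFree y n D →
    {Q | IsPrimeDivisor y' Q ∧ D' Q ≠ 0}.Finite →
    (∀ Q P e, IsPrimeDivisor y' Q → LiesOver π Q P e → D' Q = e * D P) → IsFree y' n D'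

/-- (FREEDN) the push forward of a base point free divisor to the quotient is base point free -/
def S_FREEDN : Prop :=
  ∀ (K K' : Type) [Field K] [Algebra ℂ K] [Field K'] [Algebra ℂ K'] (N N' n : ℕ)
    (y : Fin (N + 1) → K) (y' : Fin (N' + 1) → K') (π : K →ₐ[ℂ] K')
    (G : Subgroup (K' ≃ₐ[ℂ] K')) [Fintype G], NormalModel y → NormalModel y' →
    Algebra.trdeg ℂ K = n → Algebra.trdeg ℂ K' = n → 0 < n → IsQuot π y y' G →
    FiniteMor π y y' → (∀ g ∈ G, IsAut g y') →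
    ∀ (D' : Place ℂ K' → ℤ) (D : Place ℂ K → ℤ) (m : ℕ), 1 ≤ m → IsFree y' n D' →
    {P | IsPrimeDivisor y P ∧ D P ≠ 0}.Finite →
    (∀ Q P e, IsPrimeDivisor y' Q → LiesOver π Q P e →
      (e : ℤ) * D P = m * ∑ g : G, D' (comap (g : K' ≃ₐ[ℂ] K') Q)) →
    IsFree y n D

/-- (AUTDN) an automorphism of `X'` which descends to the function field of `X` is an automorphism
of `X` -/
def S_AUTDN : Prop :=
  ∀ (K K' : Type) [Field K] [Algebra ℂ K] [Field K'] [Algebra ℂ K'] (N N' n : ℕ)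
    (y : Fin (N + 1) → K) (y' : Fin (N' + 1) → K') (π : K →ₐ[ℂ] K')
    (G : Subgroup (K' ≃ₐ[ℂ] K')), NormalModel y → NormalModel y' →
    Algebra.trdeg ℂ K = n → Algebra.trdeg ℂ K' = n → 0 < n → IsQuot π y y' G →
    FiniteMor π y y' → (∀ g ∈ G, IsAut g y') →
    ∀ (φ : K ≃ₐ[ℂ] K) (φ' : K' ≃ₐ[ℂ] K'), (∀ f, φ' (π f) = π (φ f)) → IsAut φ' y' → IsAut φ y

/-- (INTMOV) the movable cone has a nonempty interior -/
def S_INTMOV : Prop :=
  ∀ (K : Type) [Field K] [Algebra ℂ K] (N n ρ : ℕ) (y : Fin (N + 1) → K), NormalModel y →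
    Algebra.trdeg ℂ K = n → 0 < n → ∀ c : Place ℂ K → Fin ρ → ℤ, PicardBasis y c →
    (interior (movCone y c)).Nonempty

end Pool.Agent.H85.CQ
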