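import Pool.Agent.H85.CQ.Stm
import Pool.Agent.Helper386.D5V.Helper399_FF4b

/-!
Piece TRANS (helper11): a finite group acts transitively on the places over a place of the fixed
field.
-/

set_option autoImplicit false

open FF IsDedekindDomain Pool.Agent.W602.GT Pool.Agent.Y172 Pool.Agent.R887 Pool.Agent.N110
  Pool.Agent.N110.CC

namespace Pool.Agent.H85.CQ

/-- a field is finite over its fixed field under a finite group -/
theorem finite_quot {K K' : Type} [Field K] [Algebra ℂ K] [Field K'] [Algebra ℂ K']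
    (π : K →ₐ[ℂ] K') (G : Subgroup (K' ≃ₐ[ℂ] K')) [Finite G]
    (hfix : ∀ f : K', (∀ g ∈ G, g f = f) ↔ ∃ f₀ : K, π f₀ = f) : (π : K →+* K').Finite := by
  let F := FixedPoints.subfield G K'
  have h1 : (F.subtype : F →+* K').Finite := by
    have : FiniteDimensional F K' := inferInstance
    exact RingHom.finite_algebraMap.2 this
  have h2 : ∀ f : K, π f ∈ F := by
    intro f g
    exact (hfix (π f)).2 ⟨f, rfl⟩ g g.2
  have h3 : ((π : K →+* K').codRestrict F h2).Finite := by
    refine RingHom.Finite.of_surjective _ ?_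
    rintro ⟨x, hx⟩
    obtain ⟨f, hf⟩ := (hfix x).1 (fun g hg => hx ⟨g, hg⟩)
    exact ⟨f, Subtype.ext hf⟩
  exact h1.comp h3

theorem trans_aux {K K' : Type} [Field K] [Algebra ℂ K] [Field K'] [Algebra ℂ K'] [Algebra K K']
    [IsScalarTower ℂ K K'] [FiniteDimensional K K']
    (G : Subgroup (K' ≃ₐ[ℂ] K')) [Finite G]
    (hfix : ∀ f : K', (∀ g ∈ G, g f = f) ↔ ∃ f₀ : K, algebraMap K K' f₀ = f)
    (P : Place ℂ K) (Q Q' : Place ℂ K') (e e' : ℕ) (he : 1 ≤ e)
    (hQ : ∀ f, Q.ord (algebraMap K K' f) = e * P.ord f)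
    (hQ' : ∀ f, Q'.ord (algebraMap K K' f) = e' * P.ord f) :
    ∃ g ∈ G, Q' = comap g Q := by
  classical
  have : Fintype G := Fintype.ofFinite G
  let iA : Algebra P.O K' := ((algebraMap K K').comp P.O.subtype).toAlgebra
  have hst0 : IsScalarTower P.O K K' := IsScalarTower.of_algebraMap_eq fun _ => rfl
  have : IsDiscreteValuationRing P.O := P.isDVR
  have : CharZero K := charZero_of_injective_algebraMap (algebraMap ℂ K).injective
  let ik : Algebra ℂ P.O := ((algebraMap ℂ K).codRestrict P.O (fun c => P.reg_const c)).toAlgebra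
  have hst : IsScalarTower ℂ P.O K' := IsScalarTower.of_algebraMap_eq fun c => by
    rw [IsScalarTower.algebraMap_apply ℂ K K', IsScalarTower.algebraMap_apply P.O K K']
    rfl
  let B := integralClosure P.O K'
  have : IsDedekindDomain B := integralClosure.isDedekindDomain P.O K K'
  have : IsFractionRing B K' := integralClosure.isFractionRing_of_finite_extension K K'
  have hsc : IsScalarTower ℂ B K' := by
    refine IsScalarTower.of_algebraMap_eq fun c => ?_
    rw [IsScalarTower.algebraMap_apply ℂ P.O B, ← IsScalarTower.algebraMap_apply P.O B K',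
      ← IsScalarTower.algebraMap_apply ℂ P.O K']
  -- places over `P` are regular on `B`
  have hreg : ∀ (R : Place ℂ K') (r : ℕ), (∀ f, R.ord (algebraMap K K' f) = r * P.ord f) →
      ∀ b : B, R.Reg (algebraMap B K' b) := by
    intro R r hR b
    refine R.reg_of_isIntegral (A := P.O) (fun a => ?_) b.2
    rw [IsScalarTower.algebraMap_apply P.O K K']
    rcases a.2 with h | h
    · left
      rw [show algebraMap P.O K a = (a : K) from rfl, h, map_zero]
    · right
      rw [hR]
      exact mul_nonneg (Int.natCast_nonneg _) h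
  have hcom : ∀ (R : Place ℂ K') (r : ℕ), (∀ f, R.ord (algebraMap K K' f) = r * P.ord f) →
      ∀ g ∈ G, ∀ f, (comap g R).ord (algebraMap K K' f) = r * P.ord f := by
    intro R r hR g hg f
    change R.ord (g (algebraMap K K' f)) = _
    rw [(hfix _).2 ⟨f, rfl⟩ g hg, hR]
  by_contra hcon
  push Not at hcon
  obtain ⟨v', hv'⟩ := exists_placeOf_eq (B := B) Q' (hreg Q' e' hQ')
  have hv : ∀ g : G, ∃ v : HeightOneSpectrum B, placeOf v = comap (g : K' ≃ₐ[ℂ] K') Q :=
    fun g => exists_placeOf_eq (B := B) _ (hreg _ e (hcom Q e hQ g g.2))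
  choose v hv using hv
  have hne : ∀ g : G, ¬ (v'.asIdeal ≤ (v g).asIdeal) := by
    intro g hle
    have h1 : v'.asIdeal = (v g).asIdeal :=
      v'.isMaximal.eq_of_le (v g).isPrime.ne_top hle
    have h2 : v' = v g := HeightOneSpectrum.ext h1
    exact hcon g g.2 (by rw [← hv', h2, hv])
  have h3 : ¬ ((v'.asIdeal : Set B) ⊆ ⋃ g ∈ (Finset.univ : Finset G), ((v g).asIdeal : Set B)) := by
    intro h
    obtain ⟨g, -, hg⟩ := (Ideal.subset_union_prime (s := Finset.univ) (f := fun g : G => (v g).asIdeal)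
      (1 : G) (1 : G) (fun g _ _ _ => (v g).isPrime)).1 h
    exact hne g hg
  obtain ⟨b, hb, hbn⟩ := Set.not_subset.1 h3
  simp only [Finset.mem_univ, Set.iUnion_true, Set.mem_iUnion, not_exists] at hbn
  have hb0 : algebraMap B K' b ≠ 0 := by
    intro h
    have h4 : b = 0 := by simpa using h
    exact hbn 1 (by rw [h4]; exact (v 1).asIdeal.zero_mem)
  have hgb : ∀ g : K' ≃ₐ[ℂ] K', g (algebraMap B K' b) ≠ 0 := fun g => by rwa [Ne, map_eq_zero]
  -- order at the conjugates of `Q`
  have h5 : ∀ g : G, Q.ord ((g : K' ≃ₐ[ℂ] K') (algebraMap B K' b)) = 0 := by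
    intro g
    have h6 : (placeOf (k := ℂ) (L := K') (v g)).red (algebraMap B K' b) ≠ 0 := by
      rw [Ne, placeOf_red_eq_zero]
      exact hbn g
    rw [Ne, Place.red_eq_zero_iff _ (placeOf_reg (v g) b)] at h6
    push Not at h6
    have h7 := (Place.reg_iff _ hb0).1 (placeOf_reg (k := ℂ) (L := K') (v g) b)
    have h8 : (placeOf (k := ℂ) (L := K') (v g)).ord (algebraMap B K' b) = 0 := le_antisymm h6.2 h7
    rw [hv] at h8
    exact h8
  have h9 : 0 < Q'.ord (algebraMap B K' b) := by
    have h6 : (placeOf (k := ℂ) (L := K') v').red (algebraMap B K' b) = 0 := by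
      rw [placeOf_red_eq_zero]
      exact hb
    rw [Place.red_eq_zero_iff _ (placeOf_reg v' b), hv'] at h6
    exact h6.resolve_left hb0
  have h10 : ∀ g : G, 0 ≤ Q'.ord ((g : K' ≃ₐ[ℂ] K') (algebraMap B K' b)) := by
    intro g
    exact (Place.reg_iff _ hb0).1 (hreg _ e' (hcom Q' e' hQ' g g.2) b)
  -- the norm
  obtain ⟨N₀, hN₀⟩ := (hfix (∏ g : G, (g : K' ≃ₐ[ℂ] K') (algebraMap B K' b))).1 (by
    intro h hh
    rw [map_prod]
    refine Fintype.prod_equiv (Equiv.mulLeft (⟨h, hh⟩ : G)) _ _ fun g => ?_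
    rfl)
  have hprod : ∀ R : Place ℂ K', R.ord (∏ g : G, (g : K' ≃ₐ[ℂ] K') (algebraMap B K' b)) =
      ∑ g : G, R.ord ((g : K' ≃ₐ[ℂ] K') (algebraMap B K' b)) := by
    intro R
    have : ∀ s : Finset G, R.ord (∏ g ∈ s, (g : K' ≃ₐ[ℂ] K') (algebraMap B K' b)) =
        ∑ g ∈ s, R.ord ((g : K' ≃ₐ[ℂ] K') (algebraMap B K' b)) := by
      intro s
      induction s using Finset.induction_on with
      | empty => simp [R.ord_one]
      | insert a s ha ih =>
        rw [Finset.prod_insert ha, Finset.sum_insert ha,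
          R.ord_mul (hgb _) (Finset.prod_ne_zero_iff.2 fun g _ => hgb _), ih]
    exact this Finset.univ
  have h11 : (e : ℤ) * P.ord N₀ = 0 := by
    rw [← hQ, hN₀, hprod]
    exact Finset.sum_eq_zero fun g _ => h5 g
  have h12 : 0 < (e' : ℤ) * P.ord N₀ := by
    rw [← hQ', hN₀, hprod]
    refine Finset.sum_pos' (fun g _ => h10 g) ⟨1, Finset.mem_univ _, ?_⟩
    exact h9
  have h13 : P.ord N₀ = 0 := by
    rcases mul_eq_zero.1 h11 with h | h
    · omega
    · exact h
  rw [h13, mul_zero] at h12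
  exact lt_irrefl _ h12

theorem leafTRANS : S_TRANS := by
  intro K K' _ _ _ _ π G _ hfix P Q Q' e e' hQ hQ'
  let _ : Algebra K K' := (π : K →+* K').toAlgebra
  have h1 : IsScalarTower ℂ K K' := IsScalarTower.of_algebraMap_eq fun c => (π.commutes c).symm
  have h2 : FiniteDimensional K K' := finite_quot π G hfix
  exact trans_aux G hfix P Q Q' e e' hQ.1 hQ.2 hQ'.2

end Pool.Agent.H85.CQ
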